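import Mathlib

open Polynomial

namespace Pool.Agent.H12

section Padic

variable (p : ℕ) [Fact p.Prime]

variable {p}

theorem norm_eq_v (x : ℂ_[p]) : ‖x‖ = ((Valued.v x : NNReal) : ℝ) := by
  rw [PadicComplex.norm_eq_norm, Valuation.norm_def, PadicComplex.RankOne.hom_eq_embedding]
  rw [Valuation.embedding_restrict]

theorem mem_OC (x : ℂ_[p]) : x ∈ PadicComplexInt p ↔ ‖x‖ ≤ 1 := by
  rw [norm_eq_v]
  exact Iff.rfl

theorem norm_p_Cp : ‖((p : ℕ) : ℂ_[p])‖ = (p : ℝ)⁻¹ := by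
  have h1 : ((p : ℕ) : ℂ_[p]) = (((p : ℕ) : ℚ_[p]) : ℂ_[p]) := by
    exact (map_natCast (algebraMap ℚ_[p] ℂ_[p]) p).symm
  rw [h1]
  have := PadicComplex.norm_extends' p ((p : ℕ) : ℚ_[p])
  rw [this, Padic.norm_p]

theorem mem_span_pow_iff (x : PadicComplexInt p) (n : ℕ) :
    x ∈ (Ideal.span {((p : ℕ) : PadicComplexInt p)}) ^ n ↔ ‖(x : ℂ_[p])‖ ≤ ((p : ℝ)⁻¹) ^ n := by
  have hp0 : ((p : ℕ) : ℂ_[p]) ≠ 0 := Nat.cast_ne_zero.mpr (Fact.out : p.Prime).ne_zero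
  rw [Ideal.span_singleton_pow, Ideal.mem_span_singleton]
  constructor
  · rintro ⟨y, rfl⟩
    push_cast
    rw [norm_mul, norm_pow, norm_p_Cp]
    exact mul_le_of_le_one_right (by positivity) ((mem_OC _).mp y.2)
  · intro h
    refine ⟨⟨(x : ℂ_[p]) / (p : ℂ_[p]) ^ n, ?_⟩, ?_⟩
    · rw [mem_OC, norm_div, norm_pow, norm_p_Cp]
      exact div_le_one_of_le₀ h (by positivity)
    · apply Subtype.ext
      push_cast
      rw [mul_div_cancel₀]
      exact pow_ne_zero _ hp0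

instance notUnit : Fact (¬ IsUnit ((p : ℕ) : PadicComplexInt p)) := ⟨by
  intro h
  obtain ⟨u, hu⟩ := h
  have h1 : ((u : PadicComplexInt p) : ℂ_[p]) * ((u⁻¹ : (PadicComplexInt p)ˣ) : PadicComplexInt p) = 1 := by
    rw [← MulMemClass.coe_mul, Units.mul_inv]; rfl
  have h2 := congrArg norm h1
  rw [norm_mul, hu, norm_one] at h2
  have h3 : ‖(((p : ℕ) : PadicComplexInt p) : ℂ_[p])‖ = (p : ℝ)⁻¹ := by
    rw [← norm_p_Cp]; rfl
  rw [h3] at h2
  have h4 : ‖(((u⁻¹ : (PadicComplexInt p)ˣ) : PadicComplexInt p) : ℂ_[p])‖ ≤ 1 := (mem_OC _).mp (Subtype.prop _)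
  have h5 : (1 : ℝ) < p := by exact_mod_cast (Fact.out : p.Prime).one_lt
  have h6 : (p : ℝ)⁻¹ < 1 := inv_lt_one_of_one_lt₀ h5
  nlinarith [norm_nonneg (((u⁻¹ : (PadicComplexInt p)ˣ) : PadicComplexInt p) : ℂ_[p]),
    inv_pos.mpr (by linarith : (0 : ℝ) < p)]⟩

instance adicComplete : IsAdicComplete (Ideal.span {((p : ℕ) : PadicComplexInt p)})
    (PadicComplexInt p) where
  haus' := by
    intro x hx
    have h1 : ∀ n : ℕ, ‖(x : ℂ_[p])‖ ≤ ((p : ℝ)⁻¹) ^ n := by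
      intro n
      have h2 := hx n
      rw [SModEq.zero, smul_eq_mul, Ideal.mul_top, mem_span_pow_iff] at h2
      exact h2
    have h5 : (1 : ℝ) < p := by exact_mod_cast (Fact.out : p.Prime).one_lt
    have h6 : (p : ℝ)⁻¹ < 1 := inv_lt_one_of_one_lt₀ h5
    have h7 : ‖(x : ℂ_[p])‖ ≤ 0 :=
      ge_of_tendsto' (tendsto_pow_atTop_nhds_zero_of_lt_one (by positivity) h6) h1
    apply Subtype.ext
    exact norm_le_zero_iff.mp h7
  prec' := by
    intro f hf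
    have h5 : (1 : ℝ) < p := by exact_mod_cast (Fact.out : p.Prime).one_lt
    have h6 : (p : ℝ)⁻¹ < 1 := inv_lt_one_of_one_lt₀ h5
    have h1 : ∀ m n : ℕ, m ≤ n → ‖(f m : ℂ_[p]) - f n‖ ≤ ((p : ℝ)⁻¹) ^ m := by
      intro m n hmn
      have h2 := hf hmn
      rw [SModEq.sub_mem, smul_eq_mul, Ideal.mul_top, mem_span_pow_iff] at h2
      exact h2
    have hcau : CauchySeq (fun n => (f n : ℂ_[p])) := by
      rw [Metric.cauchySeq_iff']
      intro ε hε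
      obtain ⟨N, hN⟩ := exists_pow_lt_of_lt_one hε h6
      refine ⟨N, fun n hn => ?_⟩
      rw [dist_comm, dist_eq_norm]
      exact lt_of_le_of_lt (h1 N n hn) hN
    obtain ⟨L, hL⟩ := cauchySeq_tendsto_of_complete hcau
    have hLn : ∀ m, ‖(f m : ℂ_[p]) - L‖ ≤ ((p : ℝ)⁻¹) ^ m := by
      intro m
      have h3 : Filter.Tendsto (fun n => ‖(f m : ℂ_[p]) - f n‖) Filter.atTop
          (nhds ‖(f m : ℂ_[p]) - L‖) := (tendsto_const_nhds.sub hL).norm
      exact le_of_tendsto h3 (Filter.eventually_atTop.mpr ⟨m, fun n hn => h1 m n hn⟩)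
    have hLO : L ∈ PadicComplexInt p := by
      rw [mem_OC]
      have h4 := hLn 0
      rw [pow_zero] at h4
      have h8 : L = (f 0 : ℂ_[p]) + (-((f 0 : ℂ_[p]) - L)) := by ring
      rw [h8]
      refine (IsUltrametricDist.norm_add_le_max _ _).trans (max_le ((mem_OC _).mp (f 0).2) ?_)
      rw [norm_neg]
      exact h4
    refine ⟨⟨L, hLO⟩, fun n => ?_⟩
    rw [SModEq.sub_mem, smul_eq_mul, Ideal.mul_top, mem_span_pow_iff]
    exact hLn n

end Padic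

end Pool.Agent.H12
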