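import Mathlib

open Polynomial

namespace Pool.Agent.H12

section Local

variable {p : ℕ} [Fact p.Prime]

theorem norm_galois (g : PadicAlgCl p ≃ₐ[ℚ_[p]] PadicAlgCl p) (x : PadicAlgCl p) :
    ‖g x‖ = ‖x‖ :=
  (spectralNorm_eq_of_equiv g x).symm

theorem norm_pow_finrank (K : IntermediateField ℚ_[p] (PadicAlgCl p))
    [FiniteDimensional ℚ_[p] K] (z : PadicAlgCl p) (hz : z ∈ K) (hz0 : z ≠ 0) :
    ∃ r : ℤ, ‖z‖ ^ (Module.finrank ℚ_[p] K) = (p : ℝ) ^ r := by
  have halg : IsIntegral ℚ_[p] z := Algebra.IsIntegral.isIntegral z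
  set f := minpoly ℚ_[p] z with hf
  have h1 : ‖z‖ = ‖f.coeff 0‖ ^ (1 / (f.natDegree : ℝ)) :=
    spectralNorm.spectralNorm_eq_norm_coeff_zero_rpow (K := ℚ_[p]) (L := PadicAlgCl p) z
  have hdeg : 0 < f.natDegree := minpoly.natDegree_pos halg
  have h2 : ‖z‖ ^ f.natDegree = ‖f.coeff 0‖ := by
    rw [h1, ← Real.rpow_natCast, ← Real.rpow_mul (norm_nonneg _), one_div,
      inv_mul_cancel₀ (by exact_mod_cast hdeg.ne'), Real.rpow_one]
  have h3 : f.coeff 0 ≠ 0 := minpoly.coeff_zero_ne_zero halg hz0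
  have h4 : f.natDegree ∣ Module.finrank ℚ_[p] K := by
    have h5 := minpoly.degree_dvd (K := ℚ_[p]) (x := (⟨z, hz⟩ : K))
      (Algebra.IsIntegral.isIntegral _)
    have h6 : minpoly ℚ_[p] (⟨z, hz⟩ : K) = f := by
      rw [hf, ← minpoly.algebraMap_eq (B := K) (B' := PadicAlgCl p)
        (FaithfulSMul.algebraMap_injective K (PadicAlgCl p)) ⟨z, hz⟩]
      rfl
    rwa [h6] at h5
  obtain ⟨m, hm⟩ := h4
  obtain ⟨v, hv⟩ : ∃ v : ℤ, ‖f.coeff 0‖ = (p : ℝ) ^ v :=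
    ⟨-(f.coeff 0).valuation, Padic.norm_eq_zpow_neg_valuation h3⟩
  refine ⟨v * m, ?_⟩
  rw [hm, pow_mul, h2, hv, zpow_mul, zpow_natCast]

/-- Hilbert 90 for a locally constant character. -/
theorem hilbert90 {n : ℕ} [NeZero n] (ζ : ℚ_[p]) (hζ : IsPrimitiveRoot ζ n)
    (L F : IntermediateField ℚ_[p] (PadicAlgCl p))
    [FiniteDimensional ℚ_[p] F]
    (ψ : (PadicAlgCl p ≃ₐ[ℚ_[p]] PadicAlgCl p) → ZMod n)
    (hψ : ∀ g ∈ L.fixingSubgroup, ∀ h ∈ L.fixingSubgroup, ψ (g * h) = ψ g + ψ h)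
    (hF : ∀ h ∈ L.fixingSubgroup, h ∈ F.fixingSubgroup → ψ h = 0) :
    ∃ c : PadicAlgCl p, c ≠ 0 ∧ ∀ h ∈ L.fixingSubgroup,
      h c = algebraMap ℚ_[p] (PadicAlgCl p) (ζ ^ (ψ h).val) * c := by
  classical
  have hn0 : (n : ℕ) ≠ 0 := NeZero.ne n
  have hζ0 : ζ ≠ 0 := hζ.ne_zero hn0
  -- the weight attached to an embedding of `F`
  have hone : (1 : PadicAlgCl p ≃ₐ[ℚ_[p]] PadicAlgCl p) ∈ L.fixingSubgroup := one_mem _
  have hψ1 : ψ 1 = 0 := by
    have := hψ 1 hone 1 hone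
    simpa using this
  have hψinv : ∀ g ∈ L.fixingSubgroup, ψ g⁻¹ = - ψ g := by
    intro g hg
    have := hψ g hg g⁻¹ (inv_mem hg)
    rw [mul_inv_cancel, hψ1] at this
    exact (neg_eq_of_add_eq_zero_right this.symm).symm
  have key : ∀ g ∈ L.fixingSubgroup, ∀ h ∈ L.fixingSubgroup,
      (∀ x ∈ F, g x = h x) → ψ g = ψ h := by
    intro g hg h hh hgh
    have h1 : g⁻¹ * h ∈ F.fixingSubgroup := by
      rw [IntermediateField.mem_fixingSubgroup_iff]
      intro x hx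
      rw [AlgEquiv.mul_apply, ← hgh x hx]
      exact AlgEquiv.symm_apply_apply g x
    have h2 : g⁻¹ * h ∈ L.fixingSubgroup := mul_mem (inv_mem hg) hh
    have h3 := hF _ h2 h1
    rw [hψ _ (inv_mem hg) _ hh, hψinv g hg] at h3
    rw [neg_add_eq_zero] at h3
    exact h3
  let w : (F →ₐ[ℚ_[p]] PadicAlgCl p) → PadicAlgCl p := fun f =>
    if hf : ∃ t ∈ L.fixingSubgroup, ∀ x : F, f x = t x then
      algebraMap ℚ_[p] (PadicAlgCl p) (ζ⁻¹ ^ (ψ hf.choose).val) else 0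
  have hw : ∀ (f : F →ₐ[ℚ_[p]] PadicAlgCl p) (t : PadicAlgCl p ≃ₐ[ℚ_[p]] PadicAlgCl p),
      t ∈ L.fixingSubgroup → (∀ x : F, f x = t x) →
      w f = algebraMap ℚ_[p] (PadicAlgCl p) (ζ⁻¹ ^ (ψ t).val) := by
    intro f t ht hft
    have hf : ∃ t ∈ L.fixingSubgroup, ∀ x : F, f x = t x := ⟨t, ht, hft⟩
    have : w f = algebraMap ℚ_[p] (PadicAlgCl p) (ζ⁻¹ ^ (ψ hf.choose).val) := dif_pos hf
    rw [this]
    have h5 := hf.choose_spec
    rw [key _ h5.1 t ht]
    intro x hx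
    have := h5.2 ⟨x, hx⟩
    rw [← this, ← hft ⟨x, hx⟩]
  have hw0 : ∀ (f : F →ₐ[ℚ_[p]] PadicAlgCl p),
      (¬ ∃ t ∈ L.fixingSubgroup, ∀ x : F, f x = t x) → w f = 0 := by
    intro f hf
    exact dif_neg hf
  -- Dedekind independence
  have hind := linearIndependent_monoidHom F (PadicAlgCl p)
  let e : (F →ₐ[ℚ_[p]] PadicAlgCl p) → (F →* PadicAlgCl p) := fun f => (f : F →* PadicAlgCl p)
  have hinj : Function.Injective e := by
    intro f g hfg
    ext x
    exact DFunLike.congr_fun hfg x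
  have hind2 := hind.comp e hinj
  have hne : ∃ z : F, ∑ f : F →ₐ[ℚ_[p]] PadicAlgCl p, w f * f z ≠ 0 := by
    by_contra hcon
    push Not at hcon
    have h6 := Fintype.linearIndependent_iff.mp hind2 w (by
      ext z
      simpa [e, Finset.sum_apply] using hcon z)
    have h7 := h6 F.val
    have h8 := hw F.val 1 hone (fun x => rfl)
    rw [h7, hψ1] at h8
    simp at h8
  obtain ⟨z, hz⟩ := hne
  refine ⟨_, hz, ?_⟩
  intro h hh
  rw [map_sum, Finset.mul_sum]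
  -- reindex by `f ↦ h ∘ f`
  let E : (F →ₐ[ℚ_[p]] PadicAlgCl p) ≃ (F →ₐ[ℚ_[p]] PadicAlgCl p) :=
    { toFun := fun f => (h : PadicAlgCl p →ₐ[ℚ_[p]] PadicAlgCl p).comp f
      invFun := fun f => (h.symm : PadicAlgCl p →ₐ[ℚ_[p]] PadicAlgCl p).comp f
      left_inv := by
        intro f
        ext x
        simp
      right_inv := by
        intro f
        ext x
        simp }
  rw [← Equiv.sum_comp E (fun f => algebraMap ℚ_[p] (PadicAlgCl p) (ζ ^ (ψ h).val) * (w f * f z))]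
  refine Finset.sum_congr rfl ?_
  intro f _
  rw [map_mul]
  have hEf : (E f) z = h (f z) := rfl
  rw [hEf, ← mul_assoc]
  congr 1
  by_cases hf : ∃ t ∈ L.fixingSubgroup, ∀ x : F, f x = t x
  · obtain ⟨t, ht, hft⟩ := hf
    rw [hw f t ht hft, hw (E f) (h * t) (mul_mem hh ht) (by
      intro x
      change h (f x) = h (t x)
      rw [hft x]), AlgEquiv.commutes, hψ h hh t ht, ← map_mul]
    congr 1
    have hz1 : ∀ a b : ZMod n, ζ ^ (a + b).val = ζ ^ a.val * ζ ^ b.val := by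
      intro a b
      rw [← pow_add, ZMod.val_add]
      conv_rhs => rw [← Nat.div_add_mod (a.val + b.val) n]
      rw [pow_add, pow_mul, hζ.pow_eq_one, one_pow, one_mul]
    rw [inv_pow, inv_pow, hz1]
    have : ζ ^ (ψ h).val ≠ 0 := pow_ne_zero _ hζ0
    have : ζ ^ (ψ t).val ≠ 0 := pow_ne_zero _ hζ0
    field_simp
  · rw [hw0 f hf, hw0 (E f) ?_, map_zero, mul_zero]
    rintro ⟨t, ht, hft⟩
    apply hf
    refine ⟨h⁻¹ * t, mul_mem (inv_mem hh) ht, ?_⟩
    intro x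
    have := hft x
    have h9 : h (f x) = t x := this
    rw [AlgEquiv.mul_apply, ← h9]
    exact (AlgEquiv.symm_apply_apply h _).symm

theorem zeta_add {n : ℕ} [NeZero n] {M : Type*} [CommMonoid M] {ζ : M}
    (hζ : ζ ^ n = 1) (a b : ZMod n) : ζ ^ (a + b).val = ζ ^ a.val * ζ ^ b.val := by
  rw [← pow_add, ZMod.val_add]
  conv_rhs => rw [← Nat.div_add_mod (a.val + b.val) n]
  rw [pow_add, pow_mul, hζ, one_pow, one_mul]

theorem isGalois_padic : IsGalois ℚ_[p] (PadicAlgCl p) := inferInstance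

/-- an element of the Kummer extension `K(b)`, `|b| = 1`, has norm in the value group of `K`. -/
theorem kummer_norm {n : ℕ} [NeZero n] (hpn : ¬ p ∣ n) (ζ : ℚ_[p]) (hζ : IsPrimitiveRoot ζ n)
    (K : IntermediateField ℚ_[p] (PadicAlgCl p)) [FiniteDimensional ℚ_[p] K]
    (b : PadicAlgCl p) (hb : ‖b‖ = 1)
    (β : (PadicAlgCl p ≃ₐ[ℚ_[p]] PadicAlgCl p) → ZMod n)
    (hβ : ∀ g ∈ K.fixingSubgroup, g b = algebraMap ℚ_[p] (PadicAlgCl p) (ζ ^ (β g).val) * b)
    (y : PadicAlgCl p) (hy0 : y ≠ 0)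
    (hy : ∀ g ∈ K.fixingSubgroup, g b = b → g y = y) :
    ∃ r : ℤ, ‖y‖ ^ (Module.finrank ℚ_[p] K) = (p : ℝ) ^ r := by
  classical
  have hn0 : (n : ℕ) ≠ 0 := NeZero.ne n
  have hζ0 : ζ ≠ 0 := hζ.ne_zero hn0
  have hζn : ζ ^ n = 1 := hζ.pow_eq_one
  have hb0 : b ≠ 0 := by
    intro h
    rw [h, norm_zero] at hb
    exact zero_ne_one hb
  have hnormζ : ‖ζ‖ = 1 := by
    have := congrArg norm hζn
    rw [norm_pow, norm_one] at this
    exact (pow_eq_one_iff_of_nonneg (norm_nonneg _) hn0).mp this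
  set A := algebraMap ℚ_[p] (PadicAlgCl p) with hA
  have hAinj : Function.Injective A := (algebraMap ℚ_[p] (PadicAlgCl p)).injective
  have hβmul : ∀ g ∈ K.fixingSubgroup, ∀ h ∈ K.fixingSubgroup, β (g * h) = β g + β h := by
    intro g hg h hh
    have h1 := hβ (g * h) (mul_mem hg hh)
    rw [AlgEquiv.mul_apply, hβ h hh, map_mul, AlgEquiv.commutes, hβ g hg, ← mul_assoc,
      ← map_mul] at h1
    have h2 := hAinj (mul_right_cancel₀ hb0 h1)
    rw [← zeta_add hζn] at h2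
    have h3 := hζ.pow_inj (ZMod.val_lt _) (ZMod.val_lt _) h2
    have h4 := ZMod.val_injective n h3
    rw [← h4, add_comm]
  -- the value of `g y` depends only on `β g`
  have hdep : ∀ g ∈ K.fixingSubgroup, ∀ h ∈ K.fixingSubgroup, β g = β h → g y = h y := by
    intro g hg h hh hgh
    have h1 : (g⁻¹ * h) b = b := by
      rw [AlgEquiv.mul_apply, hβ h hh, ← hgh, ← hβ g hg]
      exact AlgEquiv.symm_apply_apply g b
    have h2 := hy _ (mul_mem (inv_mem hg) hh) h1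
    rw [AlgEquiv.mul_apply] at h2
    have h3 := congrArg g h2
    rw [← AlgEquiv.mul_apply, mul_inv_cancel] at h3
    exact h3.symm
  let Y : ZMod n → PadicAlgCl p := fun s =>
    if hs : ∃ g ∈ K.fixingSubgroup, β g = s then hs.choose y else 0
  have hY : ∀ g ∈ K.fixingSubgroup, Y (β g) = g y := by
    intro g hg
    have hs : ∃ g' ∈ K.fixingSubgroup, β g' = β g := ⟨g, hg, rfl⟩
    have : Y (β g) = hs.choose y := dif_pos hs
    rw [this]
    exact hdep _ hs.choose_spec.1 g hg hs.choose_spec.2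
  have hYnot : ∀ s, (¬ ∃ g ∈ K.fixingSubgroup, β g = s) → Y s = 0 := fun s hs => dif_neg hs
  have hYact : ∀ g ∈ K.fixingSubgroup, ∀ s, g (Y s) = Y (s + β g) := by
    intro g hg s
    by_cases hs : ∃ h ∈ K.fixingSubgroup, β h = s
    · obtain ⟨h, hh, rfl⟩ := hs
      rw [hY h hh, add_comm, ← hβmul g hg h hh, hY _ (mul_mem hg hh), AlgEquiv.mul_apply]
    · rw [hYnot s hs, map_zero, hYnot]
      rintro ⟨h, hh, hhs⟩
      apply hs
      refine ⟨h * g⁻¹, mul_mem hh (inv_mem hg), ?_⟩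
      have h5 := hβmul (h * g⁻¹) (mul_mem hh (inv_mem hg)) g hg
      rw [inv_mul_cancel_right, hhs] at h5
      exact (add_right_cancel h5).symm
  have hYle : ∀ s, ‖Y s‖ ≤ ‖y‖ := by
    intro s
    by_cases hs : ∃ h ∈ K.fixingSubgroup, β h = s
    · obtain ⟨h, hh, rfl⟩ := hs
      rw [hY h hh, norm_galois]
    · rw [hYnot s hs, norm_zero]
      exact norm_nonneg _
  let Z : ZMod n → PadicAlgCl p := fun j => ∑ s : ZMod n, A (ζ⁻¹ ^ (j * s).val) * Y s
  have hζinv : (ζ⁻¹) ^ n = 1 := by rw [inv_pow, hζn, inv_one]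
  have hζinvprim : IsPrimitiveRoot ζ⁻¹ n := hζ.inv
  have hone : (1 : PadicAlgCl p ≃ₐ[ℚ_[p]] PadicAlgCl p) ∈ K.fixingSubgroup := one_mem _
  have hβ1 : β 1 = 0 := by
    have := hβmul 1 hone 1 hone
    simpa using this
  have hY0 : Y 0 = y := by
    rw [← hβ1, hY 1 hone]; rfl
  -- the sum of the `Z j`
  have hsum : ∑ j : ZMod n, Z j = (n : PadicAlgCl p) * y := by
    simp only [Z]
    rw [Finset.sum_comm]
    have : ∀ s : ZMod n, ∑ j : ZMod n, A (ζ⁻¹ ^ (j * s).val) * Y s =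
        if s = 0 then (n : PadicAlgCl p) * y else 0 := by
      intro s
      rw [← Finset.sum_mul]
      by_cases hs : s = 0
      · subst hs
        simp only [mul_zero, ZMod.val_zero, pow_zero, map_one, Finset.sum_const,
          Finset.card_univ, ZMod.card, nsmul_eq_mul, mul_one, if_true, hY0]
      · rw [if_neg hs]
        have h6 : ∑ j : ZMod n, A (ζ⁻¹ ^ (j * s).val) = 0 := by
          set S := ∑ j : ZMod n, A (ζ⁻¹ ^ (j * s).val) with hS
          have h7 : A (ζ⁻¹ ^ s.val) * S = S := by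
            have e1 : S = ∑ j : ZMod n, A (ζ⁻¹ ^ ((Equiv.addRight (1 : ZMod n) j) * s).val) :=
              (Equiv.sum_comp (Equiv.addRight (1 : ZMod n))
                (fun j => A (ζ⁻¹ ^ (j * s).val))).symm
            conv_rhs => rw [e1]
            rw [hS, Finset.mul_sum]
            refine Finset.sum_congr rfl fun j _ => ?_
            rw [← map_mul, Equiv.coe_addRight, add_mul, one_mul, zeta_add hζinv, mul_comm]
          have h8 : A (ζ⁻¹ ^ s.val) ≠ 1 := by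
            rw [← map_one A]
            intro h9
            have h10 := hAinj h9
            have h11 := hζinvprim.pow_inj (ZMod.val_lt s) (Nat.pos_of_ne_zero hn0)
              (h10.trans (pow_zero _).symm)
            exact hs ((ZMod.val_eq_zero s).mp h11)
          have h12 : (A (ζ⁻¹ ^ s.val) - 1) * S = 0 := by rw [sub_mul, h7, one_mul, sub_self]
          rcases mul_eq_zero.mp h12 with h | h
          · exact absurd (sub_eq_zero.mp h) h8
          · exact h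
        rw [h6, zero_mul]
    rw [Finset.sum_congr rfl fun s _ => this s]
    simp
  have hnormA : ∀ x : ℚ_[p], ‖A x‖ = ‖x‖ := fun x => PadicAlgCl.norm_extends p x
  have hZle : ∀ j, ‖Z j‖ ≤ ‖y‖ := by
    intro j
    refine IsUltrametricDist.norm_sum_le_of_forall_le_of_nonneg (norm_nonneg _) ?_
    intro s _
    rw [norm_mul, hnormA, norm_pow, norm_inv, hnormζ, inv_one, one_pow, one_mul]
    exact hYle s
  have hnn : ‖(n : PadicAlgCl p)‖ = 1 := by
    have h1 : (n : PadicAlgCl p) = A (n : ℚ_[p]) := by rw [hA, map_natCast]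
    rw [h1, hnormA]
    exact (Padic.norm_natCast_eq_one_iff).mpr ((Nat.Prime.coprime_iff_not_dvd Fact.out).mpr hpn)
  have hex : ∃ j, ‖y‖ ≤ ‖Z j‖ := by
    by_contra hcon
    push Not at hcon
    have h1 : ‖∑ j : ZMod n, Z j‖ < ‖y‖ := by
      obtain ⟨j, hj, hjm⟩ := Finset.exists_max_image (Finset.univ : Finset (ZMod n))
        (fun j => ‖Z j‖) ⟨0, Finset.mem_univ _⟩
      refine lt_of_le_of_lt (IsUltrametricDist.norm_sum_le_of_forall_le_of_nonneg
        (norm_nonneg (Z j)) ?_) (hcon j)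
      intro s hs
      exact hjm s hs
    rw [hsum, norm_mul, hnn, one_mul] at h1
    exact lt_irrefl _ h1
  obtain ⟨j, hj⟩ := hex
  have hj2 : ‖Z j‖ = ‖y‖ := le_antisymm (hZle j) hj
  -- `Z j * b^(-j)` lies in `K`
  have hZact : ∀ g ∈ K.fixingSubgroup, g (Z j) = A (ζ ^ (j * β g).val) * Z j := by
    intro g hg
    simp only [Z]
    rw [map_sum, Finset.mul_sum]
    rw [← Equiv.sum_comp (Equiv.addRight (β g)) (fun s =>
      A (ζ ^ (j * β g).val) * (A (ζ⁻¹ ^ (j * s).val) * Y s))]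
    refine Finset.sum_congr rfl fun s _ => ?_
    rw [map_mul, AlgEquiv.commutes, hYact g hg, Equiv.coe_addRight, ← mul_assoc, ← map_mul,
      mul_add, zeta_add hζinv]
    congr 2
    rw [mul_comm (ζ⁻¹ ^ (j * s).val), ← mul_assoc, inv_pow ζ (j * β g).val,
      mul_inv_cancel₀ (pow_ne_zero _ hζ0), one_mul]
  have hzK : Z j * (b ^ j.val)⁻¹ ∈ K := by
    have : Z j * (b ^ j.val)⁻¹ ∈ IntermediateField.fixedField K.fixingSubgroup := by
      rw [IntermediateField.mem_fixedField_iff]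
      intro g hg
      rw [map_mul, map_inv₀, map_pow, hZact g hg, hβ g hg, mul_pow, ← map_pow]
      have h1 : (ζ ^ (β g).val) ^ j.val = ζ ^ (j * β g).val := by
        rw [← pow_mul, ZMod.val_mul]
        conv_lhs => rw [mul_comm, ← Nat.div_add_mod (j.val * (β g).val) n]
        rw [pow_add, pow_mul, hζn, one_pow, one_mul]
      rw [h1, mul_inv, ← mul_assoc]
      have h2 : A (ζ ^ (j * β g).val) ≠ 0 := by
        rw [← map_zero A]
        exact fun h => pow_ne_zero _ hζ0 (hAinj h)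
      field_simp
    rwa [InfiniteGalois.fixedField_fixingSubgroup] at this
  have hZ0 : Z j ≠ 0 := by
    intro h
    rw [h, norm_zero] at hj2
    exact hy0 (norm_eq_zero.mp hj2.symm)
  have hz0 : Z j * (b ^ j.val)⁻¹ ≠ 0 := mul_ne_zero hZ0 (inv_ne_zero (pow_ne_zero _ hb0))
  obtain ⟨r, hr⟩ := norm_pow_finrank K _ hzK hz0
  refine ⟨r, ?_⟩
  rw [← hr, norm_mul, norm_inv, norm_pow, hb, one_pow, inv_one, mul_one, hj2]

theorem mem_fixing_adjoin (h : PadicAlgCl p ≃ₐ[ℚ_[p]] PadicAlgCl p) (S : Set (PadicAlgCl p))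
    (hS : ∀ x ∈ S, h x = x) : h ∈ (IntermediateField.adjoin ℚ_[p] S).fixingSubgroup := by
  have h1 : IntermediateField.adjoin ℚ_[p] S ≤
      IntermediateField.fixedField (Subgroup.zpowers h) := by
    rw [IntermediateField.adjoin_le_iff]
    intro x hx
    rw [SetLike.mem_coe, IntermediateField.mem_fixedField_iff]
    intro g hg
    obtain ⟨k, rfl⟩ := Subgroup.mem_zpowers_iff.mp hg
    have h2 : h ∈ MulAction.stabilizer (PadicAlgCl p ≃ₐ[ℚ_[p]] PadicAlgCl p) x := hS x hx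
    exact zpow_mem h2 k
  rw [IntermediateField.le_iff_le] at h1
  exact h1 (Subgroup.mem_zpowers h)

/-- The local obstruction. -/
theorem key_local {n : ℕ} [NeZero n] (hpn : ¬ p ∣ n) (ζ : ℚ_[p]) (hζ : IsPrimitiveRoot ζ n)
    (K : IntermediateField ℚ_[p] (PadicAlgCl p)) [FiniteDimensional ℚ_[p] K]
    (a b : PadicAlgCl p) (ha0 : a ≠ 0) (hb : ‖b‖ = 1)
    (vA : ℤ) (hA : ‖a‖ ^ n = (p : ℝ) ^ (-vA))
    (α β γ : (PadicAlgCl p ≃ₐ[ℚ_[p]] PadicAlgCl p) → ZMod n)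
    (hα : ∀ g ∈ K.fixingSubgroup, g a = algebraMap ℚ_[p] (PadicAlgCl p) (ζ ^ (α g).val) * a)
    (hβ : ∀ g ∈ K.fixingSubgroup, g b = algebraMap ℚ_[p] (PadicAlgCl p) (ζ ^ (β g).val) * b)
    (u : ℕ)
    (hγ : ∀ g ∈ K.fixingSubgroup, ∀ h ∈ K.fixingSubgroup,
      γ (g * h) = γ g + γ h + u * β g * α h)
    (F : IntermediateField ℚ_[p] (PadicAlgCl p)) [FiniteDimensional ℚ_[p] F]
    (hF : ∀ h ∈ K.fixingSubgroup, h ∈ F.fixingSubgroup → γ h = 0)
    (g₀ : PadicAlgCl p ≃ₐ[ℚ_[p]] PadicAlgCl p) (hg₀ : g₀ ∈ K.fixingSubgroup) :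
    (n : ℤ) ∣ vA * (u * (β g₀).val * Module.finrank ℚ_[p] K : ℕ) := by
  classical
  have hn0 : (n : ℕ) ≠ 0 := NeZero.ne n
  have hζ0 : ζ ≠ 0 := hζ.ne_zero hn0
  have hζn : ζ ^ n = 1 := hζ.pow_eq_one
  have hb0 : b ≠ 0 := by
    intro h
    rw [h, norm_zero] at hb
    exact zero_ne_one hb
  have hAinj : Function.Injective (algebraMap ℚ_[p] (PadicAlgCl p)) :=
    (algebraMap ℚ_[p] (PadicAlgCl p)).injective
  set ι := algebraMap ℚ_[p] (PadicAlgCl p) with hι
  set L : IntermediateField ℚ_[p] (PadicAlgCl p) := K ⊔ IntermediateField.adjoin ℚ_[p] {b}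
    with hL
  have hLK : ∀ h, h ∈ L.fixingSubgroup → h ∈ K.fixingSubgroup := fun h hh =>
    IntermediateField.fixingSubgroup_antitone (le_sup_left) hh
  have hLb : ∀ h, h ∈ L.fixingSubgroup → h b = b := by
    intro h hh
    have h1 : b ∈ L := (le_sup_right : _ ≤ L) (IntermediateField.mem_adjoin_simple_self _ _)
    exact (IntermediateField.mem_fixingSubgroup_iff _ _).mp hh b h1
  have hmem : ∀ h, h ∈ K.fixingSubgroup → h b = b → h ∈ L.fixingSubgroup := by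
    intro h hh hb'
    rw [hL, IntermediateField.fixingSubgroup_sup]
    refine ⟨hh, mem_fixing_adjoin h {b} ?_⟩
    intro x hx
    rw [Set.mem_singleton_iff.mp hx]
    exact hb'
  have hβ0 : ∀ h, h ∈ L.fixingSubgroup → β h = 0 := by
    intro h hh
    have h1 := hβ h (hLK h hh)
    rw [hLb h hh] at h1
    have h2 : ι (ζ ^ (β h).val) = 1 := by
      have h3 : ι (ζ ^ (β h).val) * b = 1 * b := by rw [one_mul]; exact h1.symm
      exact mul_right_cancel₀ hb0 h3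
    rw [← map_one ι] at h2
    have h4 := hAinj h2
    have h5 := hζ.pow_inj (ZMod.val_lt _) (Nat.pos_of_ne_zero hn0) (h4.trans (pow_zero _).symm)
    exact (ZMod.val_eq_zero _).mp h5
  obtain ⟨c, hc0, hc⟩ := hilbert90 ζ hζ L F γ (by
      intro g hg h hh
      rw [hγ g (hLK g hg) h (hLK h hh), hβ0 g hg]
      ring) (fun h hh hhF => hF h (hLK h hh) hhF)
  rw [← hι] at hc
  set β₀ := (β g₀).val with hβ₀
  set y : PadicAlgCl p := g₀⁻¹ c * c⁻¹ * (a ^ (u * β₀))⁻¹ with hy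
  have hy0 : y ≠ 0 := by
    refine mul_ne_zero (mul_ne_zero ?_ (inv_ne_zero hc0)) (inv_ne_zero (pow_ne_zero _ ha0))
    intro h
    exact hc0 ((map_eq_zero (g₀⁻¹ : PadicAlgCl p ≃ₐ[ℚ_[p]] PadicAlgCl p)).mp h)
  have hyfix : ∀ g ∈ K.fixingSubgroup, g b = b → g y = y := by
    intro h hh hb'
    have hhL := hmem h hh hb'
    have hconj : g₀ * h * g₀⁻¹ ∈ L.fixingSubgroup := by
      apply hmem _ (mul_mem (mul_mem hg₀ hh) (inv_mem hg₀))
      have h1 := hβ (g₀⁻¹) (inv_mem hg₀)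
      rw [AlgEquiv.mul_apply, h1, AlgEquiv.mul_apply, map_mul, AlgEquiv.commutes, hb', ← h1]
      exact AlgEquiv.apply_symm_apply g₀ b
    have hγconj : γ (g₀ * h * g₀⁻¹) = γ h + u * β g₀ * α h := by
      have h1 := hγ (g₀ * h * g₀⁻¹) (hLK _ hconj) g₀ hg₀
      rw [inv_mul_cancel_right, hγ g₀ hg₀ h hh, hβ0 _ hconj] at h1
      linear_combination (-1 : ZMod n) * h1
    have h2 : h (g₀⁻¹ c) = ι (ζ ^ (γ h + u * β g₀ * α h).val) * g₀⁻¹ c := by
      have h3 := hc _ hconj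
      rw [hγconj, AlgEquiv.mul_apply, AlgEquiv.mul_apply] at h3
      have h4 := congrArg (g₀⁻¹ : PadicAlgCl p ≃ₐ[ℚ_[p]] PadicAlgCl p) h3
      rw [map_mul, AlgEquiv.commutes, ← AlgEquiv.mul_apply, inv_mul_cancel,
        AlgEquiv.one_apply] at h4
      exact h4
    rw [hy, map_mul, map_mul, h2, map_inv₀, hc h hhL, map_inv₀, map_pow h a (u * β₀), hα h hh,
      zeta_add hζn]
    have h5 : (ζ ^ (α h).val) ^ (u * β₀) = ζ ^ ((u : ZMod n) * β g₀ * α h).val := by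
      have h6 : (u : ZMod n) * β g₀ * α h = ((α h).val * (u * β₀) : ℕ) := by
        push_cast
        rw [ZMod.natCast_zmod_val, hβ₀, ZMod.natCast_zmod_val]
        ring
      rw [h6, ZMod.val_natCast, ← pow_mul]
      conv_lhs => rw [← Nat.div_add_mod ((α h).val * (u * β₀)) n]
      rw [pow_add, pow_mul, hζn, one_pow, one_mul]
    rw [mul_pow, ← map_pow, h5]
    have e1 : ι (ζ ^ (γ h).val) ≠ 0 := by
      rw [← map_zero ι]; exact fun h => pow_ne_zero _ hζ0 (hAinj h)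
    have e2 : ι (ζ ^ ((u : ZMod n) * β g₀ * α h).val) ≠ 0 := by
      rw [← map_zero ι]; exact fun h => pow_ne_zero _ hζ0 (hAinj h)
    rw [map_mul]
    field_simp
  obtain ⟨r, hr⟩ := kummer_norm hpn ζ hζ K b hb β hβ y hy0 hyfix
  have hnormy : ‖y‖ = (‖a‖ ^ (u * β₀))⁻¹ := by
    have hc1 : ‖c‖ ≠ 0 := norm_ne_zero_iff.mpr hc0
    rw [hy, norm_mul, norm_mul, norm_galois, norm_inv, norm_inv, norm_pow,
      mul_inv_cancel₀ hc1, one_mul]
  set D := Module.finrank ℚ_[p] K with hD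
  have h1 : ((p : ℝ) ^ r) ^ n = ((p : ℝ) ^ (-vA)) ^ (-((u * β₀ * D : ℕ) : ℤ)) := by
    rw [← hr, hnormy, ← hA, zpow_neg, zpow_natCast, inv_pow, inv_pow]
    congr 1
    rw [← pow_mul, ← pow_mul, ← pow_mul]
    congr 1
    ring
  have hp1 : (1 : ℝ) < p := by exact_mod_cast (Fact.out : p.Prime).one_lt
  rw [← zpow_natCast, ← zpow_mul, ← zpow_mul] at h1
  have h2 := zpow_right_injective₀ (by linarith) hp1.ne' h1
  refine ⟨r, ?_⟩
  rw [mul_comm (n : ℤ) r, h2]
  ring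

end Local

end Pool.Agent.H12
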