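import Mathlib
import Pool.Agent.H12.Bst1
import Pool.Agent.H12.Local

open Polynomial WittVector

set_option warn.classDefReducibility false

namespace Pool.Agent.H12

section Action

variable (p : ℕ) [Fact p.Prime]

/-- The absolute Galois group of `ℚ_p`. -/
abbrev GalP := PadicAlgCl p ≃ₐ[ℚ_[p]] PadicAlgCl p

/-- The ring of integers of `ℂ_p`. -/
def OC : Type := PadicComplexInt p

noncomputable def instRingOC : CommRing (OC p) :=
  ValuationSubring.instCommRingSubtypeMem (PadicComplexInt p)

attribute [instance] instRingOC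

instance factOC : Fact (¬ IsUnit ((p : ℕ) : OC p)) := notUnit (p := p)

instance adicOC : IsAdicComplete (Ideal.span {((p : ℕ) : OC p)}) (OC p) := adicComplete (p := p)

/-- The tilt of `O_{ℂ_p}`. -/
def OCflat : Type := PreTilt (OC p) p

noncomputable def instRingOCflat : CommRing (OCflat p) := PreTilt.instCommRing (OC p) p

attribute [instance] instRingOCflat

instance charOCflat : CharP (OCflat p) p := PreTilt.instCharP (OC p) p

instance perfOCflat : PerfectRing (OCflat p) p := PreTilt.instPerfectRing (OC p) p

/-- `A_inf = W(O_{ℂ_p}^♭)`. -/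
def Ainf : Type := WittVector p (OCflat p)

noncomputable def instRingAinf : CommRing (Ainf p) := WittVector.instCommRing p (OCflat p)

attribute [instance] instRingAinf

/-- Fontaine's map `θ : A_inf → O_{ℂ_p}`. -/
noncomputable def theta : Ainf p →+* OC p := fontaineTheta (OC p) p

/-- The Teichmüller lift `O_{ℂ_p}^♭ → A_inf`. -/
noncomputable def teich : OCflat p →* Ainf p := WittVector.teichmuller p

variable {p}

theorem galois_continuous (σ : GalP p) : Continuous (σ : PadicAlgCl p →+* PadicAlgCl p) :=
  (AddMonoidHomClass.isometry_of_norm (σ : PadicAlgCl p →+* PadicAlgCl p)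
    (fun x => norm_galois σ x)).continuous

/-- The action of Galois on `ℂ_p`. -/
noncomputable def actCp (σ : GalP p) : ℂ_[p] →+* ℂ_[p] :=
  UniformSpace.Completion.mapRingHom (σ : PadicAlgCl p →+* PadicAlgCl p) (galois_continuous σ)

theorem actCp_coe (σ : GalP p) (x : PadicAlgCl p) : actCp σ (x : ℂ_[p]) = ((σ x : PadicAlgCl p) : ℂ_[p]) :=
  UniformSpace.Completion.mapRingHom_coe _ x

theorem norm_actCp (σ : GalP p) (x : ℂ_[p]) : ‖actCp σ x‖ = ‖x‖ := by
  refine UniformSpace.Completion.induction_on x ?_ ?_
  · refine isClosed_eq ?_ continuous_norm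
    exact continuous_norm.comp UniformSpace.Completion.continuous_map
  · intro a
    rw [actCp_coe, UniformSpace.Completion.norm_coe, UniformSpace.Completion.norm_coe, norm_galois]

theorem actCp_mem (σ : GalP p) : ∀ x ∈ PadicComplexInt p, actCp σ x ∈ PadicComplexInt p := by
  intro x hx
  rw [mem_OC, norm_actCp]
  exact (mem_OC x).mp hx

/-- The action of Galois on `O_{ℂ_p}`. -/
noncomputable def actOC (σ : GalP p) : OC p →+* OC p :=
  (actCp σ).restrict (PadicComplexInt p) (PadicComplexInt p) (actCp_mem σ)

theorem span_map_actOC (σ : GalP p) : Ideal.span {((p : ℕ) : OC p)} ≤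
    (Ideal.span {((p : ℕ) : OC p)}).comap (actOC σ) := by
  rw [← Ideal.map_le_iff_le_comap, Ideal.map_span, Set.image_singleton, map_natCast]

/-- The action on `O_{ℂ_p} / p`. -/
noncomputable def actMod (σ : GalP p) : ModP (OC p) p →+* ModP (OC p) p :=
  Ideal.quotientMap _ (actOC σ) (span_map_actOC σ)

/-- The action on the tilt. -/
noncomputable def actFlat (σ : GalP p) : OCflat p →+* OCflat p :=
  Perfection.map p (actMod σ)

/-- The action on `A_inf`. -/
noncomputable def actAinf (σ : GalP p) : Ainf p →+* Ainf p :=
  WittVector.map (actFlat σ)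

end Action

end Pool.Agent.H12
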