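import Mathlib
import Pool.Agent.H12.D1

open Polynomial WittVector

set_option warn.classDefReducibility false

namespace Pool.Agent.H12

section Action

variable {p : ℕ} [Fact p.Prime]

theorem actMod_mk (σ : GalP p) (x : OC p) :
    actMod σ (Ideal.Quotient.mk _ x) = Ideal.Quotient.mk _ (actOC σ x) := by
  simp [actMod]

theorem actAinf_teich (σ : GalP p) (y : OCflat p) :
    actAinf σ (teich p y) = teich p (actFlat σ y) := WittVector.map_teichmuller _ _ _

/-- untilting -/
noncomputable def untilt (x : OCflat p) : OC p := PreTilt.untilt (x : PreTilt (OC p) p)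

theorem theta_teich (y : OCflat p) : theta p (teich p y) = untilt y :=
  fontaineTheta_teichmuller _

theorem untilt_act (σ : GalP p) (x : OCflat p) :
    untilt (actFlat σ x) = actOC σ (untilt x) := by
  refine Perfection.teichmuller_spec fun n => ?_
  obtain ⟨z, hz⟩ := Ideal.Quotient.mk_surjective (I := Ideal.span {((p : ℕ) : OC p)})
    (Perfection.coeff _ p n (x : PreTilt (OC p) p))
  refine ⟨actOC σ z, ?_, ?_⟩
  · rw [← actMod_mk, hz]
    rfl
  · have h1 := Perfection.teichmuller_sModEq (x := (x : PreTilt (OC p) p)) hz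
    rw [SModEq.sub_mem] at h1 ⊢
    have h2 := Ideal.mem_map_of_mem (actOC σ) h1
    rw [Ideal.map_pow, Ideal.map_span, Set.image_singleton, map_natCast, map_sub, map_pow] at h2
    rw [← neg_mem_iff, neg_sub]
    exact h2

theorem theta_act (σ : GalP p) (x : Ainf p) :
    theta p (actAinf σ x) = actOC σ (theta p x) := by
  rw [IsHausdorff.eq_iff_smodEq (I := Ideal.span {((p : ℕ) : OC p)})]
  intro n
  rw [smul_eq_mul, Ideal.mul_top]
  have h1 : (Ideal.Quotient.mk (Ideal.span {((p : ℕ) : OC p)} ^ n)).comp
      ((theta p).comp (actAinf σ)) =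
      (Ideal.Quotient.mk (Ideal.span {((p : ℕ) : OC p)} ^ n)).comp
      ((actOC σ).comp (theta p)) := by
    refine eq_of_apply_teichmuller_eq (p := p) (R := OCflat p) _ _ ?_ ?_
    · refine ⟨n, ?_⟩
      rw [← map_natCast (Ideal.Quotient.mk (Ideal.span {((p : ℕ) : OC p)} ^ n)), ← map_pow,
        Ideal.Quotient.eq_zero_iff_mem]
      exact Ideal.pow_mem_pow (Ideal.mem_span_singleton_self _) _
    · intro y
      change Ideal.Quotient.mk _ (theta p (actAinf σ (teich p y))) =
        Ideal.Quotient.mk _ (actOC σ (theta p (teich p y)))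
      rw [actAinf_teich, theta_teich, theta_teich, untilt_act]
  have h2 := RingHom.congr_fun h1 x
  simp only [RingHom.comp_apply] at h2
  rw [SModEq.sub_mem]
  exact Ideal.Quotient.eq.mp h2

end Action

end Pool.Agent.H12
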