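import Mathlib
import Pool.Agent.H12.B2

open Polynomial WittVector

set_option warn.classDefReducibility false

namespace Pool.Agent.H12

section Cris

variable (p : ℕ) [Fact p.Prime]

/-- The kernel of Fontaine's `θ : A_inf → O_{ℂ_p}`. -/
noncomputable def kerTheta : Ideal (Ainf p) := RingHom.ker (theta p)

/-- `A_inf[1/p]`. -/
def AinfP : Type := Localization.Away ((p : ℕ) : Ainf p)

noncomputable def instRingAinfP : CommRing (AinfP p) := OreLocalization.instCommRing

attribute [instance] instRingAinfP

noncomputable def instAlgAinfP : Algebra (Ainf p) (AinfP p) := OreLocalization.instAlgebra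

attribute [instance] instAlgAinfP

instance instLocAinfP : IsLocalization.Away ((p : ℕ) : Ainf p) (AinfP p) :=
  Localization.isLocalization

/-- The map `A_inf → A_inf[1/p]`. -/
noncomputable def toAinfP : Ainf p →+* AinfP p := algebraMap (Ainf p) (AinfP p)

theorem isUnit_p_AinfP : IsUnit ((p : ℕ) : AinfP p) := by
  have := IsLocalization.Away.algebraMap_isUnit (S := AinfP p) ((p : ℕ) : Ainf p)
  rwa [map_natCast] at this

/-- The subring `A_cris^0` of `A_inf[1/p]` generated by `A_inf` and by all divided powers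
`x ^ n / n!` with `x ∈ ker θ`. -/
noncomputable def Acris0 : Subring (AinfP p) :=
  Subring.closure {y | (∃ x, toAinfP p x = y) ∨
    ∃ (n : ℕ) (x : Ainf p), x ∈ kerTheta p ∧ (n.factorial : AinfP p) * y = (toAinfP p x) ^ n}

/-- `A_cris^0` as a ring. -/
def A0 : Type := Acris0 p

noncomputable def instRingA0 : CommRing (A0 p) := (Acris0 p).toCommRing

attribute [instance] instRingA0

/-- The ideal `(p)` of `A_cris^0`. -/
noncomputable def idealP : Ideal (A0 p) := Ideal.span {((p : ℕ) : A0 p)}

/-- `A_cris^0 / p^n`. -/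
def Aq (n : ℕ) : Type := A0 p ⧸ idealP p ^ n

noncomputable def instRingAq (n : ℕ) : CommRing (Aq p n) := Ideal.Quotient.commRing _

attribute [instance] instRingAq

/-- The projection `A_cris^0 → A_cris^0 / p^n`. -/
noncomputable def mkq (n : ℕ) : A0 p →+* Aq p n := Ideal.Quotient.mk (idealP p ^ n)

/-- The transition map `A_cris^0 / p^(n+1) → A_cris^0 / p^n`. -/
noncomputable def transq (n : ℕ) : Aq p (n + 1) →+* Aq p n :=
  Ideal.Quotient.factorPow (idealP p) (Nat.le_succ n)

/-- The product of the rings `A_cris^0 / p^n`. -/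
def Aprod : Type := (n : ℕ) → Aq p n

noncomputable def instRingAprod : CommRing (Aprod p) := Pi.commRing

attribute [instance] instRingAprod

/-- The projections of the product. -/
noncomputable def projA (n : ℕ) : Aprod p →+* Aq p n := Pi.evalRingHom (Aq p) n

/-- `A_cris`, the `p`-adic completion of `A_cris^0`: the compatible sequences in the product of
the `A_cris^0 / p^n`. -/
noncomputable def AcrisSub : Subring (Aprod p) :=
  ⨅ n : ℕ, RingHom.eqLocus ((transq p n).comp (projA p (n + 1))) (projA p n)

/-- `A_cris` as a ring. -/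
def Acris : Type := AcrisSub p

noncomputable def instRingAcris : CommRing (Acris p) := (AcrisSub p).toCommRing

attribute [instance] instRingAcris

/-- The projection `A_cris → A_cris^0 / p^n`. -/
noncomputable def evalCris (n : ℕ) : Acris p →+* Aq p n := (projA p n).comp (AcrisSub p).subtype

variable {p}

theorem mem_AcrisSub (f : Aprod p) :
    f ∈ AcrisSub p ↔ ∀ n, transq p n (projA p (n + 1) f) = projA p n f := by
  rw [AcrisSub, Subring.mem_iInf]
  rfl

variable (p) in
/-- The diagonal map `A_cris^0 → ∏ A_cris^0 / p^n`. -/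
noncomputable def diagA : A0 p →+* Aprod p := RingHom.pi (mkq p)

theorem diagA_mem (y : A0 p) : diagA p y ∈ AcrisSub p := (mem_AcrisSub _).mpr fun _ => rfl

variable (p) in
/-- The map `A_cris^0 → A_cris`. -/
noncomputable def toAcris : A0 p →+* Acris p := (diagA p).codRestrict (AcrisSub p) diagA_mem

theorem A0_mem (x : Ainf p) : toAinfP p x ∈ Acris0 p := Subring.subset_closure (Or.inl ⟨x, rfl⟩)

variable (p) in
/-- The map `A_inf → A_cris^0`. -/
noncomputable def toA0 : Ainf p →+* A0 p := (toAinfP p).codRestrict (Acris0 p) A0_mem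

theorem isUnit_p_act (σ : GalP p) :
    IsUnit (((toAinfP p).comp (actAinf σ)) ((p : ℕ) : Ainf p)) := by
  rw [map_natCast]; exact isUnit_p_AinfP p

/-- The action on `A_inf[1/p]`. -/
noncomputable def actAinfP (σ : GalP p) : AinfP p →+* AinfP p :=
  IsLocalization.Away.lift ((p : ℕ) : Ainf p) (isUnit_p_act σ)

theorem actAinfP_algebraMap (σ : GalP p) (x : Ainf p) :
    actAinfP σ (toAinfP p x) = toAinfP p (actAinf σ x) :=
  IsLocalization.Away.lift_eq _ _ x

theorem actAinf_mem_ker (σ : GalP p) (x : Ainf p) (hx : x ∈ kerTheta p) :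
    actAinf σ x ∈ kerTheta p := by
  rw [kerTheta, RingHom.mem_ker] at hx ⊢
  rw [theta_act, hx, map_zero]

theorem actAinfP_mem (σ : GalP p) : ∀ y ∈ Acris0 p, actAinfP σ y ∈ Acris0 p := by
  intro y hy
  induction hy using Subring.closure_induction with
  | mem y hy =>
    rcases hy with ⟨x, rfl⟩ | ⟨n, x, hx, hy⟩
    · rw [actAinfP_algebraMap]
      exact Subring.subset_closure (Or.inl ⟨_, rfl⟩)
    · refine Subring.subset_closure (Or.inr ⟨n, actAinf σ x, actAinf_mem_ker σ x hx, ?_⟩)
      rw [← actAinfP_algebraMap, ← map_pow, ← hy, map_mul, map_natCast]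
  | zero => rw [map_zero]; exact zero_mem _
  | one => rw [map_one]; exact one_mem _
  | add x y _ _ hx hy => rw [map_add]; exact add_mem hx hy
  | neg x _ hx => rw [map_neg]; exact neg_mem hx
  | mul x y _ _ hx hy => rw [map_mul]; exact mul_mem hx hy

/-- The action on `A_cris^0`. -/
noncomputable def actAcris0 (σ : GalP p) : A0 p →+* A0 p :=
  (actAinfP σ).restrict (Acris0 p) (Acris0 p) (actAinfP_mem σ)

theorem actAcris0_span_le (σ : GalP p) (n : ℕ) :
    idealP p ^ n ≤ (idealP p ^ n).comap (actAcris0 σ) := by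
  rw [← Ideal.map_le_iff_le_comap, Ideal.map_pow, idealP, Ideal.map_span, Set.image_singleton,
    map_natCast]

/-- The induced action on `A_cris^0 / p^n`. -/
noncomputable def actQuot (σ : GalP p) (n : ℕ) : Aq p n →+* Aq p n :=
  Ideal.quotientMap (idealP p ^ n) (actAcris0 σ) (actAcris0_span_le σ n)

/-- The action on the product. -/
noncomputable def actProd (σ : GalP p) : Acris p →+* Aprod p :=
  RingHom.pi fun n => (actQuot σ n).comp (evalCris p n)

theorem actProd_mem (σ : GalP p) (x : Acris p) : actProd σ x ∈ AcrisSub p := by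
  rw [mem_AcrisSub]
  intro n
  obtain ⟨y, hy⟩ := Ideal.Quotient.mk_surjective (I := idealP p ^ (n + 1)) (evalCris p (n + 1) x)
  have hy2 : evalCris p n x = mkq p n y := by
    have h1 : transq p n (evalCris p (n + 1) x) = evalCris p n x := (mem_AcrisSub _).mp x.2 n
    rw [← h1, ← hy]
    rfl
  change transq p n (actQuot σ (n + 1) (evalCris p (n + 1) x)) = actQuot σ n (evalCris p n x)
  rw [hy2, ← hy]
  rfl

/-- The action on `A_cris`. -/
noncomputable def actAcris (σ : GalP p) : Acris p →+* Acris p :=
  (actProd σ).codRestrict (AcrisSub p) (actProd_mem σ)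

end Cris

end Pool.Agent.H12
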