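import Mathlib
import Pool.Agent.H12.D3

open Polynomial WittVector

namespace Pool.Agent.H12

section Cris

variable {p : ℕ} [Fact p.Prime]

variable (p) in
/-- The inclusion of `A_cris^0` in `A_inf[1/p]`. -/
noncomputable def inclA0 : A0 p →+* AinfP p := (Acris0 p).subtype

theorem ext_evalCris {x y : Acris p} (h : ∀ n, evalCris p n x = evalCris p n y) : x = y :=
  Subtype.ext (funext h)

theorem transq_mk (n : ℕ) (y : A0 p) : transq p n (mkq p (n + 1) y) = mkq p n y := rfl

theorem mkq_eq {n : ℕ} {x y : A0 p} : mkq p n x = mkq p n y ↔ x - y ∈ idealP p ^ n :=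
  Ideal.Quotient.eq

theorem evalCris_to (n : ℕ) (y : A0 p) : evalCris p n (toAcris p y) = mkq p n y := rfl

theorem inclA0_act (σ : GalP p) (y : A0 p) :
    inclA0 p (actAcris0 σ y) = actAinfP σ (inclA0 p y) := rfl

theorem actQuot_mk (σ : GalP p) (n : ℕ) (y : A0 p) :
    actQuot σ n (mkq p n y) = mkq p n (actAcris0 σ y) := rfl

theorem evalCris_act (σ : GalP p) (n : ℕ) (x : Acris p) :
    evalCris p n (actAcris σ x) = actQuot σ n (evalCris p n x) := rfl

end Cris

section QpLift

variable {p : ℕ} [Fact p.Prime] {B : Type*} [CommRing B]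

theorem isUnit_of_p (f : ℤ_[p] →+* B) (h : IsUnit ((p : ℕ) : B))
    (y : nonZeroDivisors ℤ_[p]) : IsUnit (f y) := by
  have hy0 : (y : ℤ_[p]) ≠ 0 := nonZeroDivisors.ne_zero y.2
  rw [PadicInt.unitCoeff_spec hy0, map_mul, map_pow, map_natCast]
  exact (Units.isUnit _ |>.map f).mul (h.pow _)

theorem qp_hom_ext {f g : ℚ_[p] →+* B} (h : ∀ x : ℤ_[p], f x = g x) : f = g :=
  IsLocalization.ringHom_ext (nonZeroDivisors ℤ_[p]) (RingHom.ext h)

end QpLift

end Pool.Agent.H12
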