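import Mathlib
import Pool.Agent.H12.B3

open Polynomial WittVector

set_option warn.classDefReducibility false

namespace Pool.Agent.H12

section Log

variable {p : ℕ} [Fact p.Prime]

theorem isUnit_factorial (n : ℕ) : IsUnit (n.factorial : AinfP p) := by
  have h0 : n.factorial ≠ 0 := Nat.factorial_ne_zero n
  have h1 : ((n.factorial : ℕ) : ℤ_[p]) ≠ 0 := Nat.cast_ne_zero.mpr h0
  have h2 := isUnit_of_p ((toAinfP p).comp ((WittVector.map (ZMod.castHom (dvd_refl p)
    (OCflat p))).comp (WittVector.equiv p).symm.toRingHom : ℤ_[p] →+* Ainf p)) (isUnit_p_AinfP p)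
    ⟨_, mem_nonZeroDivisors_of_ne_zero h1⟩
  rwa [map_natCast] at h2

theorem dpow_mem (x : Ainf p) (hx : x ∈ kerTheta p) (n : ℕ) :
    Ring.inverse (n.factorial : AinfP p) * (toAinfP p x) ^ n ∈ Acris0 p :=
  Subring.subset_closure (Or.inr ⟨n, x, hx, by
    rw [← mul_assoc, Ring.mul_inverse_cancel _ (isUnit_factorial n), one_mul]⟩)

/-- The divided power `x ^ n / n!` of an element `x` of `ker θ`. -/
noncomputable def dpow (x : Ainf p) (hx : x ∈ kerTheta p) (n : ℕ) : A0 p :=
  (⟨Ring.inverse (n.factorial : AinfP p) * (toAinfP p x) ^ n, dpow_mem x hx n⟩ : Acris0 p)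

/-- The partial sums `∑_{1 ≤ j ≤ p^n} (-1)^(j-1) (j-1)! · (x^j / j!)` of `log (1 + x)`. -/
noncomputable def logSum (x : Ainf p) (hx : x ∈ kerTheta p) (n : ℕ) : A0 p :=
  ∑ j ∈ Finset.range (p ^ n), (-1) ^ j * (j.factorial : A0 p) * dpow x hx (j + 1)

variable (p) in
/-- The sequences in `A_cris^0`, reduced modulo the powers of `p`. -/
noncomputable def seqProd (s : ℕ → A0 p) : Aprod p := fun n => mkq p n (s n)

theorem natCast_mem_idealP_pow {n : ℕ} {a : ℕ} (h : p ^ n ∣ a) :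
    (a : A0 p) ∈ idealP p ^ n := by
  obtain ⟨b, rfl⟩ := h
  push_cast
  exact Ideal.mul_mem_right _ _ (Ideal.pow_mem_pow (Ideal.mem_span_singleton_self _) n)

theorem logSum_mem (x : Ainf p) (hx : x ∈ kerTheta p) :
    seqProd p (logSum x hx) ∈ AcrisSub p := by
  rw [mem_AcrisSub]
  intro n
  change transq p n (mkq p (n + 1) (logSum x hx (n + 1))) = mkq p n (logSum x hx n)
  rw [transq_mk, mkq_eq]
  have hle : p ^ n ≤ p ^ (n + 1) := Nat.pow_le_pow_right (Fact.out : p.Prime).pos (Nat.le_succ n)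
  rw [logSum, logSum, ← Finset.sum_Ico_eq_sub _ hle]
  refine Ideal.sum_mem _ fun j hj => ?_
  have hj1 : p ^ n ≤ j := (Finset.mem_Ico.mp hj).1
  have h1 : p ^ n ∣ j.factorial := Nat.dvd_factorial (pow_pos (Fact.out : p.Prime).pos n) hj1
  exact Ideal.mul_mem_right _ _ (Ideal.mul_mem_left _ _ (natCast_mem_idealP_pow h1))

/-- `log (1 + x) ∈ A_cris`, for `x ∈ ker θ`: the limit of the partial sums. -/
noncomputable def logCris (x : Ainf p) (hx : x ∈ kerTheta p) : Acris p :=
  (⟨seqProd p (logSum x hx), logSum_mem x hx⟩ : AcrisSub p)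

end Log

end Pool.Agent.H12
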