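import Mathlib
import Pool.Agent.H12.D4

open Polynomial WittVector

namespace Pool.Agent.H12

section Log

variable {p : ℕ} [Fact p.Prime]

theorem factorial_dpow (x : Ainf p) (hx : x ∈ kerTheta p) (n : ℕ) :
    (n.factorial : AinfP p) * inclA0 p (dpow x hx n) = (toAinfP p x) ^ n := by
  change (n.factorial : AinfP p) * (Ring.inverse (n.factorial : AinfP p) * (toAinfP p x) ^ n) = _
  rw [← mul_assoc, Ring.mul_inverse_cancel _ (isUnit_factorial n), one_mul]

theorem evalCris_log (x : Ainf p) (hx : x ∈ kerTheta p) (n : ℕ) :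
    evalCris p n (logCris x hx) = mkq p n (logSum x hx n) := rfl

/-- An exact division of `(1 + x) ^ (p ^ n) - 1` by `p ^ n`. -/
noncomputable def qSum (x : Ainf p) (hx : x ∈ kerTheta p) (n : ℕ) : A0 p :=
  ∑ j ∈ Finset.range (p ^ n), ((p ^ n - 1).descFactorial j : A0 p) * dpow x hx (j + 1)

theorem qSum_spec (x : Ainf p) (hx : x ∈ kerTheta p) (n : ℕ) :
    ((p : ℕ) : AinfP p) ^ n * inclA0 p (qSum x hx n) =
      (1 + toAinfP p x) ^ (p ^ n) - 1 := by
  obtain ⟨N, hN⟩ : ∃ N, p ^ n = N + 1 := ⟨p ^ n - 1, by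
    have := pow_pos (Fact.out : p.Prime).pos n
    omega⟩
  have hq : inclA0 p (qSum x hx n) =
      ∑ j ∈ Finset.range (p ^ n), ((p ^ n - 1).descFactorial j : AinfP p) *
        inclA0 p (dpow x hx (j + 1)) := by
    rw [qSum, map_sum]
    exact Finset.sum_congr rfl fun _ _ => by rw [map_mul, map_natCast]
  rw [hq, add_comm (1 : AinfP p), add_pow, hN, Finset.sum_range_succ' _ (N + 1)]
  simp only [Nat.add_sub_cancel, one_pow, mul_one, pow_zero, Nat.choose_zero_right, Nat.cast_one,
    add_sub_cancel_right]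
  rw [Finset.mul_sum]
  refine Finset.sum_congr rfl fun j _ => ?_
  have h1 : ((p : ℕ) : AinfP p) ^ n = ((N + 1 : ℕ) : AinfP p) := by
    rw [← hN]; push_cast; rfl
  have h2 : ((N + 1 : ℕ) : AinfP p) * (N.descFactorial j : AinfP p) =
      ((N + 1).choose (j + 1) : AinfP p) * ((j + 1).factorial : AinfP p) := by
    rw [← Nat.cast_mul, ← Nat.cast_mul, ← Nat.succ_descFactorial_succ,
      Nat.descFactorial_eq_factorial_mul_choose, mul_comm]
  rw [h1, ← mul_assoc, h2, mul_assoc, factorial_dpow, mul_comm]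

theorem descFactorial_modEq (N j : ℕ) (hN : 0 < N) :
    (N : ℤ) ∣ ((N - 1).descFactorial j : ℤ) - (-1) ^ j * (j.factorial : ℤ) := by
  induction j with
  | zero => simp
  | succ j ih =>
    by_cases hj : j ≤ N - 1
    · rw [Nat.descFactorial_succ, Nat.factorial_succ]
      have h1 : ((N - 1 - j : ℕ) : ℤ) = (N : ℤ) - (j + 1) := by omega
      push_cast [h1]
      have h2 : ((N : ℤ) - (j + 1)) * ((N - 1).descFactorial j : ℤ) -
          (-1) ^ (j + 1) * (((j : ℤ) + 1) * (j.factorial : ℤ)) =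
          (N : ℤ) * ((N - 1).descFactorial j : ℤ) -
          (j + 1) * (((N - 1).descFactorial j : ℤ) - (-1) ^ j * (j.factorial : ℤ)) := by
        rw [pow_succ]
        ring
      rw [h2]
      exact dvd_sub (Dvd.intro _ rfl) (Dvd.dvd.mul_left ih _)
    · have h1 : (N - 1).descFactorial (j + 1) = 0 := by
        rw [Nat.descFactorial_eq_zero_iff_lt]
        omega
      rw [h1, Nat.cast_zero, zero_sub, dvd_neg]
      have h2 : N ∣ (j + 1).factorial := Nat.dvd_factorial hN (by omega)
      exact Dvd.dvd.mul_left (Int.natCast_dvd_natCast.mpr h2) _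

theorem qSum_logSum (x : Ainf p) (hx : x ∈ kerTheta p) (n : ℕ) :
    qSum x hx n - logSum x hx n ∈ idealP p ^ n := by
  rw [qSum, logSum, ← Finset.sum_sub_distrib]
  refine Ideal.sum_mem _ fun j _ => ?_
  rw [← sub_mul]
  refine Ideal.mul_mem_right _ _ ?_
  obtain ⟨c, hc⟩ := descFactorial_modEq (p ^ n) j (pow_pos (Fact.out : p.Prime).pos n)
  have h1 : (((p ^ n - 1).descFactorial j : ℕ) : A0 p) -
      (-1) ^ j * ((j.factorial : ℕ) : A0 p) = ((p : ℕ) : A0 p) ^ n * (c : A0 p) := by
    have := congrArg (Int.cast : ℤ → A0 p) hc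
    push_cast at this
    exact this
  rw [h1]
  exact Ideal.mul_mem_right _ _ (Ideal.pow_mem_pow (Ideal.mem_span_singleton_self _) n)

theorem evalCris_log' (x : Ainf p) (hx : x ∈ kerTheta p) (n : ℕ) :
    evalCris p n (logCris x hx) = mkq p n (qSum x hx n) := by
  rw [evalCris_log]
  exact (mkq_eq.mpr (qSum_logSum x hx n)).symm

/-- uniqueness of the exact division -/
theorem qSum_unique (x : Ainf p) (hx : x ∈ kerTheta p) (n : ℕ) (q : A0 p)
    (hq : ((p : ℕ) : AinfP p) ^ n * inclA0 p q =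
      (1 + toAinfP p x) ^ (p ^ n) - 1) : q = qSum x hx n := by
  apply Subtype.ext
  have hu : IsUnit (((p : ℕ) : AinfP p) ^ n) := (isUnit_p_AinfP p).pow n
  exact hu.mul_left_cancel (hq.trans (qSum_spec x hx n).symm)

theorem logCris_mul (x y z : Ainf p) (hx : x ∈ kerTheta p) (hy : y ∈ kerTheta p)
    (hz : z ∈ kerTheta p) (h : (1 : Ainf p) + z = (1 + x) * (1 + y)) :
    logCris z hz = logCris x hx + logCris y hy := by
  apply ext_evalCris
  intro n
  rw [map_add, evalCris_log', evalCris_log', evalCris_log', ← map_add, mkq_eq]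
  have h1 : qSum z hz n = qSum x hx n * (1 + ((p : ℕ) : A0 p) ^ n * qSum y hy n) +
      qSum y hy n := by
    symm
    apply qSum_unique
    have h2 : (1 : AinfP p) + toAinfP p z = (1 + toAinfP p x) * (1 + toAinfP p y) := by
      rw [← map_one (toAinfP p), ← map_add, h, map_mul, map_add, map_add]
    rw [h2, mul_pow]
    have h3 := qSum_spec x hx n
    have h4 := qSum_spec y hy n
    have h5 : (1 + toAinfP p x) ^ (p ^ n) =
      1 + ((p : ℕ) : AinfP p) ^ n * inclA0 p (qSum x hx n) := by rw [h3]; ring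
    have h6 : (1 + toAinfP p y) ^ (p ^ n) =
      1 + ((p : ℕ) : AinfP p) ^ n * inclA0 p (qSum y hy n) := by rw [h4]; ring
    rw [h5, h6, map_add, map_mul, map_add, map_mul, map_one, map_pow, map_natCast]
    ring
  rw [h1]
  have h7 : qSum x hx n * (1 + ((p : ℕ) : A0 p) ^ n * qSum y hy n) + qSum y hy n -
      (qSum x hx n + qSum y hy n) = ((p : ℕ) : A0 p) ^ n * (qSum x hx n * qSum y hy n) := by ring
  rw [h7]
  exact Ideal.mul_mem_right _ _ (Ideal.pow_mem_pow (Ideal.mem_span_singleton_self _) n)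

theorem actAcris_logCris (σ : GalP p) (x z : Ainf p) (hx : x ∈ kerTheta p) (hz : z ∈ kerTheta p)
    (h : z = actAinf σ x) : actAcris σ (logCris x hx) = logCris z hz := by
  apply ext_evalCris
  intro n
  rw [evalCris_act, evalCris_log', evalCris_log', actQuot_mk]
  congr 1
  apply qSum_unique
  have h1 : inclA0 p (actAcris0 σ (qSum x hx n)) = actAinfP σ (inclA0 p (qSum x hx n)) := rfl
  have h2 := congrArg (actAinfP σ) (qSum_spec x hx n)
  rw [map_mul, map_pow, map_natCast, map_sub, map_pow, map_add, map_one, actAinfP_algebraMap,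
    ← h] at h2
  rw [h1, h2]

end Log

end Pool.Agent.H12
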