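import Mathlib

namespace Pool.Agent.H12

variable (k : Type) [Field k] (ℓ : ℕ) [Fact ℓ.Prime]

/-- The `ℓ`-adic cyclotomic character of the absolute Galois group of `k`. -/
noncomputable def cyc : (AlgebraicClosure k ≃ₐ[k] AlgebraicClosure k) →* ℤ_[ℓ]ˣ :=
  (cyclotomicCharacter (AlgebraicClosure k) ℓ).comp
    (MulSemiringAction.toRingAut (AlgebraicClosure k ≃ₐ[k] AlgebraicClosure k)
      (AlgebraicClosure k))

end Pool.Agent.H12
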