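import Mathlib
import Pool.Agent.H12.Cyc

open Polynomial

namespace Pool.Agent.H12

section Kummer

variable (k : Type) [Field k] [CharZero k] (ℓ : ℕ) [Fact ℓ.Prime]

instance enough (i : ℕ) : HasEnoughRootsOfUnity (AlgebraicClosure k) (ℓ ^ i) := by
  have : NeZero ((ℓ ^ i : ℕ) : AlgebraicClosure k) := ⟨by
    rw [Nat.cast_ne_zero]
    exact pow_ne_zero _ (Fact.out : ℓ.Prime).ne_zero⟩
  infer_instance

theorem cyc_spec (g : AlgebraicClosure k ≃ₐ[k] AlgebraicClosure k) (n : ℕ)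
    (t : AlgebraicClosure k) (ht : t ^ ℓ ^ n = 1) :
    g t = t ^ (PadicInt.toZModPow n (cyc k ℓ g : ℤ_[ℓ])).val :=
  cyclotomicCharacter.spec ℓ (MulSemiringAction.toRingAut _ _ g) t ht

theorem cyc_continuous : Continuous (cyc k ℓ) :=
  cyclotomicCharacter.continuous ℓ k (AlgebraicClosure k)

/-- compatible systems of roots -/
theorem exists_zeta : ∃ ζ : ℕ → AlgebraicClosure k, (∀ n, IsPrimitiveRoot (ζ n) (ℓ ^ n)) ∧
    ∀ n, ζ (n + 1) ^ ℓ = ζ n := by
  have hℓ : ℓ.Prime := Fact.out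
  have hstep : ∀ (n : ℕ) (z : {z : AlgebraicClosure k // IsPrimitiveRoot z (ℓ ^ n)}),
      ∃ w : {z : AlgebraicClosure k // IsPrimitiveRoot z (ℓ ^ (n + 1))}, w.1 ^ ℓ = z.1 := by
    rintro n ⟨z, hz⟩
    obtain ⟨x, hx⟩ := HasEnoughRootsOfUnity.exists_primitiveRoot (AlgebraicClosure k) (ℓ ^ (n + 1))
    have h1 : IsPrimitiveRoot (x ^ ℓ) (ℓ ^ n) := by
      have := hx.pow (a := ℓ) (b := ℓ ^ n) (pow_pos hℓ.pos _) (by rw [pow_succ'])
      exact this
    have hpos : NeZero (ℓ ^ n) := ⟨pow_ne_zero _ hℓ.ne_zero⟩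
    obtain ⟨i, hi, hiz⟩ := h1.eq_pow_of_pow_eq_one hz.pow_eq_one
    by_cases hn : n = 0
    · subst hn
      rw [pow_zero] at hz
      refine ⟨⟨x, hx⟩, ?_⟩
      rw [pow_zero, IsPrimitiveRoot.one_right_iff] at h1
      rw [IsPrimitiveRoot.one_right_iff] at hz
      simp only
      rw [h1, hz]
    · have hcop : i.Coprime (ℓ ^ n) := by
        rw [← hiz] at hz
        exact (h1.pow_iff_coprime (pow_pos hℓ.pos _) i).mp hz
      have hcop2 : i.Coprime (ℓ ^ (n + 1)) := by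
        have : i.Coprime ℓ := Nat.Coprime.coprime_dvd_right (dvd_pow_self ℓ hn) hcop
        exact Nat.Coprime.pow_right _ this
      refine ⟨⟨x ^ i, hx.pow_of_coprime i hcop2⟩, ?_⟩
      simp only
      rw [← hiz, ← pow_mul, ← pow_mul, mul_comm]
  choose T hT using hstep
  have h0 : IsPrimitiveRoot (1 : AlgebraicClosure k) (ℓ ^ 0) := by
    rw [pow_zero]; exact IsPrimitiveRoot.one
  let S : ∀ n, {z : AlgebraicClosure k // IsPrimitiveRoot z (ℓ ^ n)} := fun n =>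
    Nat.rec ⟨1, h0⟩ (fun n z => T n z) n
  exact ⟨fun n => (S n).1, fun n => (S n).2, fun n => hT n (S n)⟩

theorem exists_roots (m A : ℕ → ℕ) (hA0 : A 0 = 1) (hA : ∀ i, A (i + 1) = A i * m i ^ ℓ ^ i) :
    ∃ u : ℕ → AlgebraicClosure k, (∀ n, u (n + 1) ^ ℓ = u n * m n) ∧
      ∀ n, u n ^ ℓ ^ n = A n := by
  have hℓ : ℓ.Prime := Fact.out
  have hroot : ∀ x : AlgebraicClosure k, ∃ z, z ^ ℓ = x := fun x =>
    IsAlgClosed.exists_pow_nat_eq x hℓ.pos
  choose R hR using hroot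
  let u : ℕ → AlgebraicClosure k := fun n => Nat.rec 1 (fun n z => R (z * m n)) n
  have hu : ∀ n, u (n + 1) ^ ℓ = u n * m n := fun n => hR _
  refine ⟨u, hu, ?_⟩
  intro n
  induction n with
  | zero => simp [u, hA0]
  | succ n ih => rw [pow_succ', pow_mul, hu, mul_pow, ih, hA]; push_cast; ring

theorem pow_val_natCast {M : Type*} [Monoid M] {n : ℕ} (z : M) (hz : z ^ n = 1) (a : ℕ) :
    z ^ (a : ZMod n).val = z ^ a := by
  rw [ZMod.val_natCast]
  conv_rhs => rw [← Nat.div_add_mod a n]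
  rw [pow_add, pow_mul, hz, one_pow, one_mul]

variable {k ℓ}

theorem exists_kummer (ζ : ℕ → AlgebraicClosure k) (hζ : ∀ n, IsPrimitiveRoot (ζ n) (ℓ ^ n))
    (hζs : ∀ n, ζ (n + 1) ^ ℓ = ζ n) (m A : ℕ → ℕ) (hm : ∀ i, 0 < m i) (hApos : ∀ i, 0 < A i)
    (u : ℕ → AlgebraicClosure k)
    (hu : ∀ n, u (n + 1) ^ ℓ = u n * m n) (hA : ∀ n, u n ^ ℓ ^ n = A n) :
    ∃ κ : (AlgebraicClosure k ≃ₐ[k] AlgebraicClosure k) → ℤ_[ℓ],
      (∀ n g, g (u n) = ζ n ^ (PadicInt.toZModPow n (κ g)).val * u n) ∧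
      (∀ g h, κ (g * h) = κ g + (cyc k ℓ g : ℤ_[ℓ]) * κ h) ∧ Continuous κ := by
  have hℓ : ℓ.Prime := Fact.out
  have hu0 : ∀ n, u n ≠ 0 := by
    intro n h
    have := hA n
    rw [h, zero_pow (pow_ne_zero _ hℓ.ne_zero)] at this
    exact (Nat.cast_ne_zero.mpr (hApos n).ne') this.symm
  have hex : ∀ n (g : AlgebraicClosure k ≃ₐ[k] AlgebraicClosure k), ∃ a : ℕ,
      g (u n) = ζ n ^ a * u n := by
    intro n g
    have hpos : NeZero (ℓ ^ n) := ⟨pow_ne_zero _ hℓ.ne_zero⟩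
    have h1 : (g (u n) / u n) ^ ℓ ^ n = 1 := by
      rw [div_pow, ← map_pow, hA, map_natCast, div_self]
      exact Nat.cast_ne_zero.mpr (hApos n).ne'
    obtain ⟨i, hi, hi2⟩ := (hζ n).eq_pow_of_pow_eq_one h1
    exact ⟨i, by rw [hi2, div_mul_cancel₀ _ (hu0 n)]⟩
  choose a ha using hex
  have hcompat : ∀ g n, (ℓ : ℤ) ^ n ∣ (a (n + 1) g : ℤ) - a n g := by
    intro g n
    have h1 : g (u (n + 1)) ^ ℓ = g (u n) * m n := by
      rw [← map_pow, hu, map_mul, map_natCast]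
    rw [ha, ha, mul_pow, hu, ← pow_mul, mul_comm (a (n + 1) g) ℓ, pow_mul, hζs, mul_assoc] at h1
    have h2 : ζ n ^ a (n + 1) g = ζ n ^ a n g :=
      mul_right_cancel₀ (mul_ne_zero (hu0 n) (Nat.cast_ne_zero.mpr (hm n).ne')) h1
    have hpos : NeZero (ℓ ^ n) := ⟨pow_ne_zero _ hℓ.ne_zero⟩
    rw [← pow_val_natCast _ (hζ n).pow_eq_one, ← pow_val_natCast _ (hζ n).pow_eq_one (a n g)] at h2
    have h3 := ZMod.val_injective _ ((hζ n).pow_inj (ZMod.val_lt _) (ZMod.val_lt _) h2)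
    have h4 : a n g ≡ a (n + 1) g [MOD ℓ ^ n] := ((ZMod.natCast_eq_natCast_iff _ _ _).mp h3).symm
    have := Nat.modEq_iff_dvd.mp h4
    push_cast at this
    exact this
  let κ : (AlgebraicClosure k ≃ₐ[k] AlgebraicClosure k) → ℤ_[ℓ] := fun g =>
    PadicInt.ofIntSeq _ (PadicInt.isCauSeq_padicNorm_of_pow_dvd_sub
      (fun n => (a n g : ℤ)) ℓ (hcompat g))
  have hκ : ∀ g n, PadicInt.toZModPow n (κ g) = (a n g : ZMod (ℓ ^ n)) := by
    intro g n
    have := PadicInt.toZModPow_ofIntSeq_of_pow_dvd_sub (fun n => (a n g : ℤ)) ℓ (hcompat g) n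
    rw [Int.cast_natCast] at this
    exact this
  have hspec : ∀ n g, g (u n) = ζ n ^ (PadicInt.toZModPow n (κ g)).val * u n := by
    intro n g
    rw [hκ, pow_val_natCast _ (hζ n).pow_eq_one, ha]
  have hcoc : ∀ g h, κ (g * h) = κ g + (cyc k ℓ g : ℤ_[ℓ]) * κ h := by
    intro g h
    apply PadicInt.ext_of_toZModPow.mp
    intro n
    have h1 := hspec n (g * h)
    rw [AlgEquiv.mul_apply, hspec n h, map_mul, map_pow, hspec n g,
      cyc_spec k ℓ g n (ζ n) (hζ n).pow_eq_one, ← mul_assoc, ← pow_mul, ← pow_add] at h1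
    have h2 := mul_right_cancel₀ (hu0 n) h1
    rw [← pow_val_natCast _ (hζ n).pow_eq_one] at h2
    have hpos : NeZero (ℓ ^ n) := ⟨pow_ne_zero _ hℓ.ne_zero⟩
    have h3 := (hζ n).pow_inj (ZMod.val_lt _) (ZMod.val_lt _) h2
    have h4 := ZMod.val_injective _ h3
    rw [← h4]
    push_cast
    rw [ZMod.natCast_zmod_val, ZMod.natCast_zmod_val, ZMod.natCast_zmod_val, map_add, map_mul]
    ring
  refine ⟨κ, hspec, hcoc, ?_⟩
  have hκ1 : κ 1 = 0 := by
    have := hcoc 1 1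
    simpa using this
  -- continuity at 1
  have hc1 : ContinuousAt κ 1 := by
    rw [ContinuousAt, hκ1, (galGroupBasis k (AlgebraicClosure k)).nhds_one_hasBasis.tendsto_iff
      (Metric.nhds_basis_ball (α := ℤ_[ℓ]) (x := 0))]
    intro ε hε
    obtain ⟨n, hn⟩ := PadicInt.exists_pow_neg_lt ℓ hε
    refine ⟨_, ⟨_, ⟨IntermediateField.adjoin k {u n},
      IntermediateField.adjoin.finiteDimensional (Algebra.IsIntegral.isIntegral _), rfl⟩, rfl⟩, ?_⟩
    intro σ hσ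
    refine lt_of_le_of_lt ?_ hn
    rw [dist_eq_norm, sub_zero, PadicInt.norm_le_pow_iff_mem_span_pow, ← PadicInt.ker_toZModPow,
      RingHom.mem_ker]
    have h1 : σ (u n) = u n := hσ ⟨u n, IntermediateField.mem_adjoin_simple_self k (u n)⟩
    have h2 := hspec n σ
    rw [h1] at h2
    have h3 : ζ n ^ (PadicInt.toZModPow n (κ σ)).val = ζ n ^ 0 := by
      rw [pow_zero]
      have : (1 : AlgebraicClosure k) * u n = ζ n ^ (PadicInt.toZModPow n (κ σ)).val * u n := by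
        rw [one_mul]; exact h2
      exact (mul_right_cancel₀ (hu0 n) this).symm
    have hpos : NeZero (ℓ ^ n) := ⟨pow_ne_zero _ hℓ.ne_zero⟩
    have h4 := (hζ n).pow_inj (ZMod.val_lt _) (pow_pos hℓ.pos _) h3
    exact (ZMod.val_eq_zero _).mp h4
  rw [continuous_iff_continuousAt]
  intro g
  have h1 : κ = fun h => κ g + (cyc k ℓ g : ℤ_[ℓ]) * κ (g⁻¹ * h) := by
    ext h
    rw [← hcoc, mul_inv_cancel_left]
  rw [h1]
  refine ContinuousAt.add continuousAt_const (ContinuousAt.mul continuousAt_const ?_)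
  have h2 : ContinuousAt (fun h => g⁻¹ * h) g := (continuous_const_mul g⁻¹).continuousAt
  refine ContinuousAt.comp (g := κ) (f := fun h => g⁻¹ * h) ?_ h2
  rw [inv_mul_cancel]
  exact hc1

end Kummer

end Pool.Agent.H12
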