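import Mathlib
import Pool.Agent.H12.B4
import Pool.Agent.H12.Kummer

open Polynomial WittVector

set_option warn.classDefReducibility false

namespace Pool.Agent.H12

section Period

variable (p : ℕ) [Fact p.Prime]

/-- A compatible system of primitive `p ^ n`-th roots of unity in the algebraic closure of `ℚ_p`. -/
noncomputable def zetaP : ℕ → PadicAlgCl p := (exists_zeta ℚ_[p] p).choose

theorem zetaP_prim (n : ℕ) : IsPrimitiveRoot (zetaP p n) (p ^ n) :=
  (exists_zeta ℚ_[p] p).choose_spec.1 n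

theorem zetaP_succ (n : ℕ) : zetaP p (n + 1) ^ p = zetaP p n :=
  (exists_zeta ℚ_[p] p).choose_spec.2 n

theorem zetaP_zero : zetaP p 0 = 1 := by
  have := zetaP_prim p 0
  rwa [pow_zero, IsPrimitiveRoot.one_right_iff] at this

theorem norm_zetaP (n : ℕ) : ‖zetaP p n‖ = 1 := by
  have h := congrArg norm (zetaP_prim p n).pow_eq_one
  rw [norm_pow, norm_one] at h
  exact (pow_eq_one_iff_of_nonneg (norm_nonneg _) (pow_ne_zero _ (Fact.out : p.Prime).ne_zero)).mp h

theorem norm_zetaP_le (n : ℕ) : ‖zetaP p n‖ ≤ 1 := (norm_zetaP p n).le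

variable {p}

theorem toOC_mem (x : PadicAlgCl p) (hx : ‖x‖ ≤ 1) : (x : ℂ_[p]) ∈ PadicComplexInt p := by
  rw [mem_OC, PadicComplex.norm_extends]; exact hx

/-- Elements of norm at most one of the algebraic closure, as elements of `O_{ℂ_p}`. -/
noncomputable def toOC (x : PadicAlgCl p) (hx : ‖x‖ ≤ 1) : OC p :=
  (⟨(x : ℂ_[p]), toOC_mem x hx⟩ : PadicComplexInt p)

theorem toOC_pow (x : PadicAlgCl p) (hx : ‖x‖ ≤ 1) (n : ℕ) (hxn : ‖x ^ n‖ ≤ 1) :
    toOC (x ^ n) hxn = toOC x hx ^ n := by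
  apply Subtype.ext
  exact map_pow (algebraMap (PadicAlgCl p) ℂ_[p]) x n

theorem toOC_congr {x y : PadicAlgCl p} (h : x = y) (hx : ‖x‖ ≤ 1) (hy : ‖y‖ ≤ 1) :
    toOC x hx = toOC y hy := by subst h; rfl

/-- The reduction `O_{ℂ_p} → O_{ℂ_p} / p`. -/
noncomputable def redOC : OC p →+* ModP (OC p) p := Ideal.Quotient.mk _

theorem flatOf_compat (x : ℕ → PadicAlgCl p) (hx : ∀ n, ‖x n‖ ≤ 1)
    (hx' : ∀ n, x (n + 1) ^ p = x n) (n : ℕ) :
    (redOC (toOC (x (n + 1)) (hx (n + 1)))) ^ p = redOC (toOC (x n) (hx n)) := by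
  rw [← map_pow, ← toOC_pow (hxn := by rw [hx']; exact hx n)]
  exact congrArg _ (toOC_congr (hx' n) _ _)

/-- The element of the tilt given by a compatible system `x (n + 1) ^ p = x n` in `O_{ℂ_p}`. -/
noncomputable def flatOf (x : ℕ → PadicAlgCl p) (hx : ∀ n, ‖x n‖ ≤ 1)
    (hx' : ∀ n, x (n + 1) ^ p = x n) : OCflat p :=
  (⟨fun n => redOC (toOC (x n) (hx n)), flatOf_compat x hx hx'⟩ : Perfection (ModP (OC p) p) p)

theorem flatOf_untilt (x : ℕ → PadicAlgCl p) (hx : ∀ n, ‖x n‖ ≤ 1)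
    (hx' : ∀ n, x (n + 1) ^ p = x n) :
    untilt (flatOf x hx hx') = toOC (x 0) (hx 0) := by
  have h := Perfection.teichmuller₀_mapMonoidHom_idealQuotientMk (p := p)
    (I := Ideal.span {((p : ℕ) : OC p)})
    (x := (⟨fun n => toOC (x n) (hx n), fun n => by
      rw [← toOC_pow (hxn := by rw [hx']; exact hx n)]
      exact toOC_congr (hx' n) _ _⟩ : Perfection (OC p) p))
  exact h

theorem flatOf_mem (x : ℕ → PadicAlgCl p) (hx : ∀ n, ‖x n‖ ≤ 1)
    (hx' : ∀ n, x (n + 1) ^ p = x n) (hx0 : x 0 = 1) :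
    teich p (flatOf x hx hx') - 1 ∈ kerTheta p := by
  rw [kerTheta, RingHom.mem_ker, map_sub, map_one, theta_teich, flatOf_untilt,
    sub_eq_zero]
  apply Subtype.ext
  change ((x 0 : PadicAlgCl p) : ℂ_[p]) = 1
  rw [hx0]
  exact UniformSpace.Completion.coe_one _

/-- `log [x]` for a compatible system `x` with `x 0 = 1`. -/
noncomputable def logFlat (x : ℕ → PadicAlgCl p) (hx : ∀ n, ‖x n‖ ≤ 1)
    (hx' : ∀ n, x (n + 1) ^ p = x n) (hx0 : x 0 = 1) : Acris p :=
  logCris (teich p (flatOf x hx hx') - 1) (flatOf_mem x hx hx' hx0)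

variable (p)

/-- Fontaine's element `t = log [ε] ∈ A_cris`. -/
noncomputable def tCris : Acris p :=
  logFlat (zetaP p) (norm_zetaP_le p) (zetaP_succ p) (zetaP_zero p)

/-- The structure map `ℤ_p = W(𝔽_p) → A_inf`. -/
noncomputable def zpAinf : ℤ_[p] →+* Ainf p :=
  (WittVector.map (ZMod.castHom (dvd_refl p) (OCflat p))).comp
    (WittVector.equiv p).symm.toRingHom

/-- The structure map `ℤ_p → A_cris`. -/
noncomputable def zpAcris : ℤ_[p] →+* Acris p := (toAcris p).comp ((toA0 p).comp (zpAinf p))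

end Period

end Pool.Agent.H12
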