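import Mathlib
import Pool.Agent.H12.D5

open Polynomial WittVector

namespace Pool.Agent.H12

section Period

variable {p : ℕ} [Fact p.Prime]

theorem toOC_mul (x y : PadicAlgCl p) (hx : ‖x‖ ≤ 1) (hy : ‖y‖ ≤ 1) (hxy : ‖x * y‖ ≤ 1) :
    toOC (x * y) hxy = toOC x hx * toOC y hy := by
  apply Subtype.ext
  exact UniformSpace.Completion.coe_mul x y

theorem actOC_toOC (σ : GalP p) (x : PadicAlgCl p) (hx : ‖x‖ ≤ 1) (hx' : ‖σ x‖ ≤ 1) :
    actOC σ (toOC x hx) = toOC (σ x) hx' := by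
  apply Subtype.ext
  exact actCp_coe σ x

/-- the coefficients of an element of the tilt -/
noncomputable def coeffFlat (n : ℕ) : OCflat p →+* ModP (OC p) p := Perfection.coeff _ p n

theorem ext_coeffFlat {x y : OCflat p} (h : ∀ n, coeffFlat n x = coeffFlat n y) : x = y :=
  Perfection.ext h

theorem flatOf_coeff (x : ℕ → PadicAlgCl p) (hx : ∀ n, ‖x n‖ ≤ 1)
    (hx' : ∀ n, x (n + 1) ^ p = x n) (n : ℕ) :
    coeffFlat n (flatOf x hx hx') = redOC (toOC (x n) (hx n)) := rfl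

theorem actFlat_flatOf (σ : GalP p) (x : ℕ → PadicAlgCl p) (hx : ∀ n, ‖x n‖ ≤ 1)
    (hx' : ∀ n, x (n + 1) ^ p = x n) :
    actFlat σ (flatOf x hx hx') = flatOf (fun n => σ (x n))
      (fun n => by rw [norm_galois]; exact hx n) (fun n => by rw [← map_pow, hx']) := by
  apply ext_coeffFlat
  intro n
  rw [flatOf_coeff]
  have h1 : coeffFlat n (actFlat σ (flatOf x hx hx')) =
      actMod σ (coeffFlat n (flatOf x hx hx')) := rfl
  rw [h1, flatOf_coeff, redOC, actMod_mk, actOC_toOC]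

theorem flatOf_mul (x y : ℕ → PadicAlgCl p) (hx : ∀ n, ‖x n‖ ≤ 1)
    (hx' : ∀ n, x (n + 1) ^ p = x n) (hy : ∀ n, ‖y n‖ ≤ 1)
    (hy' : ∀ n, y (n + 1) ^ p = y n) (hxy : ∀ n, ‖x n * y n‖ ≤ 1)
    (hxy' : ∀ n, (x (n + 1) * y (n + 1)) ^ p = x n * y n) :
    flatOf (fun n => x n * y n) hxy hxy' = flatOf x hx hx' * flatOf y hy hy' := by
  apply ext_coeffFlat
  intro n
  rw [flatOf_coeff, map_mul, flatOf_coeff, flatOf_coeff, ← map_mul, toOC_mul]

theorem logFlat_congr {x y : ℕ → PadicAlgCl p} (hxy : x = y) (hx : ∀ n, ‖x n‖ ≤ 1)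
    (hx' : ∀ n, x (n + 1) ^ p = x n) (hx0 : x 0 = 1) (hy : ∀ n, ‖y n‖ ≤ 1)
    (hy' : ∀ n, y (n + 1) ^ p = y n) (hy0 : y 0 = 1) :
    logFlat x hx hx' hx0 = logFlat y hy hy' hy0 := by subst hxy; rfl

theorem logFlat_mul (x y : ℕ → PadicAlgCl p) (hx : ∀ n, ‖x n‖ ≤ 1)
    (hx' : ∀ n, x (n + 1) ^ p = x n) (hx0 : x 0 = 1) (hy : ∀ n, ‖y n‖ ≤ 1)
    (hy' : ∀ n, y (n + 1) ^ p = y n) (hy0 : y 0 = 1) (hxy : ∀ n, ‖x n * y n‖ ≤ 1)
    (hxy' : ∀ n, (x (n + 1) * y (n + 1)) ^ p = x n * y n) (hxy0 : x 0 * y 0 = 1) :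
    logFlat (fun n => x n * y n) hxy hxy' hxy0 = logFlat x hx hx' hx0 + logFlat y hy hy' hy0 := by
  rw [logFlat, logFlat, logFlat]
  apply logCris_mul
  simp only [add_sub_cancel]
  rw [flatOf_mul x y hx hx' hy hy', map_mul]

theorem logFlat_act (σ : GalP p) (x : ℕ → PadicAlgCl p) (hx : ∀ n, ‖x n‖ ≤ 1)
    (hx' : ∀ n, x (n + 1) ^ p = x n) (hx0 : x 0 = 1) (h1 : ∀ n, ‖σ (x n)‖ ≤ 1)
    (h2 : ∀ n, σ (x (n + 1)) ^ p = σ (x n)) (h3 : σ (x 0) = 1) :
    actAcris σ (logFlat x hx hx' hx0) = logFlat (fun n => σ (x n)) h1 h2 h3 := by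
  rw [logFlat, logFlat]
  apply actAcris_logCris
  rw [map_sub, map_one, actAinf_teich, actFlat_flatOf]

theorem logFlat_pow (x : ℕ → PadicAlgCl p) (hx : ∀ n, ‖x n‖ ≤ 1)
    (hx' : ∀ n, x (n + 1) ^ p = x n) (hx0 : x 0 = 1) (k : ℕ) (h1 : ∀ n, ‖x n ^ k‖ ≤ 1)
    (h2 : ∀ n, (x (n + 1) ^ k) ^ p = x n ^ k) (h3 : x 0 ^ k = 1) :
    logFlat (fun n => x n ^ k) h1 h2 h3 = k * logFlat x hx hx' hx0 := by
  induction k with
  | zero =>
    have e1 : ∀ _ : ℕ, ‖(1 : PadicAlgCl p)‖ ≤ 1 := fun _ => norm_one.le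
    have h4 : logFlat (fun _ : ℕ => (1 : PadicAlgCl p)) e1 (fun _ => one_pow _) rfl =
        logFlat (fun _ : ℕ => (1 : PadicAlgCl p)) e1 (fun _ => one_pow _) rfl +
        logFlat (fun _ : ℕ => (1 : PadicAlgCl p)) e1 (fun _ => one_pow _) rfl := by
      rw [← logFlat_mul (fun _ : ℕ => (1 : PadicAlgCl p)) (fun _ : ℕ => (1 : PadicAlgCl p))
        e1 (fun _ => one_pow _) rfl e1 (fun _ => one_pow _) rfl
        (fun _ => by rw [mul_one]; exact norm_one.le) (fun _ => by rw [mul_one, one_pow])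
        (mul_one _)]
      apply logFlat_congr
      ext n
      rw [mul_one]
    have h5 : logFlat (fun _ : ℕ => (1 : PadicAlgCl p)) e1 (fun _ => one_pow _) rfl = 0 := by
      have := h4
      rw [left_eq_add] at this
      exact this
    rw [Nat.cast_zero, zero_mul, ← h5]
    apply logFlat_congr
    ext n
    rw [pow_zero]
  | succ k ih =>
    have e1 : ∀ n, ‖x n ^ k‖ ≤ 1 := fun n => by
      rw [norm_pow]; exact pow_le_one₀ (norm_nonneg _) (hx n)
    have e2 : ∀ n, (x (n + 1) ^ k) ^ p = x n ^ k := fun n => by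
      rw [← pow_mul, mul_comm, pow_mul, hx']
    have e3 : x 0 ^ k = 1 := by rw [hx0, one_pow]
    rw [Nat.cast_succ, add_mul, one_mul, ← ih e1 e2 e3, ← logFlat_mul (fun n => x n ^ k) x
      e1 e2 e3 hx hx' hx0
      (fun n => by rw [← pow_succ]; exact h1 n) (fun n => by rw [← pow_succ, ← pow_succ]; exact h2 n)
      (by rw [← pow_succ]; exact h3)]
    apply logFlat_congr
    ext n
    rw [pow_succ]

theorem act_tCris (σ : GalP p) :
    actAcris σ (tCris p) = zpAcris p (cyc ℚ_[p] p σ : ℤ_[p]) * tCris p := by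
  have hp : p.Prime := Fact.out
  have hnorm : ∀ n, ‖σ (zetaP p n)‖ = 1 := fun n => by rw [norm_galois, norm_zetaP]
  rw [tCris, logFlat_act σ _ _ _ _ (fun n => (hnorm n).le)
    (fun n => by rw [← map_pow, zetaP_succ]) (by rw [zetaP_zero, map_one])]
  apply ext_evalCris
  intro n
  set χ : ℤ_[p] := (cyc ℚ_[p] p σ : ℤ_[p]) with hχ
  set k : ℕ := (PadicInt.toZModPow n χ).val with hk
  have : NeZero (p ^ n) := ⟨pow_ne_zero _ hp.ne_zero⟩
  -- the auxiliary system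
  let ω : ℕ → PadicAlgCl p := fun m => σ (zetaP p (m + n)) * ((zetaP p (m + n)) ^ k)⁻¹
  have hω1 : ∀ m, ‖ω m‖ = 1 := by
    intro m
    simp only [ω]
    rw [norm_mul, hnorm, norm_inv, norm_pow, norm_zetaP, one_pow, inv_one, one_mul]
  have hω2 : ∀ m, ω (m + 1) ^ p = ω m := by
    intro m
    simp only [ω]
    rw [mul_pow, ← map_pow, inv_pow, ← pow_mul, mul_comm k p, pow_mul,
      add_right_comm m 1 n, zetaP_succ]
  have hω0 : ω 0 = 1 := by
    simp only [ω]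
    rw [zero_add, cyc_spec ℚ_[p] p σ n (zetaP p n) (zetaP_prim p n).pow_eq_one]
    exact mul_inv_cancel₀ (pow_ne_zero _ ((zetaP_prim p n).ne_zero (NeZero.ne _)))
  have hωpow : ∀ m, ω m ^ p ^ n * (zetaP p m) ^ k = σ (zetaP p m) := by
    intro m
    have hz : ∀ j, zetaP p (m + j) ^ p ^ j = zetaP p m := by
      intro j
      induction j with
      | zero => rw [pow_zero, pow_one, add_zero]
      | succ j ih => rw [← add_assoc, pow_succ', pow_mul, zetaP_succ, ih]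
    simp only [ω]
    rw [mul_pow, ← map_pow, inv_pow, ← pow_mul, mul_comm k, pow_mul, hz n, mul_assoc,
      inv_mul_cancel₀, mul_one]
    exact pow_ne_zero _ ((zetaP_prim p m).ne_zero (pow_ne_zero _ hp.ne_zero))
  have e1 : ∀ m, ‖ω m ^ p ^ n‖ ≤ 1 := fun m => by rw [norm_pow, hω1, one_pow]
  have e2 : ∀ m, (ω (m + 1) ^ p ^ n) ^ p = ω m ^ p ^ n := fun m => by
    rw [← pow_mul, mul_comm, pow_mul, hω2]
  have e3 : ω 0 ^ p ^ n = 1 := by rw [hω0, one_pow]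
  have f1 : ∀ m, ‖zetaP p m ^ k‖ ≤ 1 := fun m => by rw [norm_pow, norm_zetaP, one_pow]
  have f2 : ∀ m, (zetaP p (m + 1) ^ k) ^ p = zetaP p m ^ k := fun m => by
    rw [← pow_mul, mul_comm, pow_mul, zetaP_succ]
  have f3 : zetaP p 0 ^ k = 1 := by rw [zetaP_zero, one_pow]
  have key : logFlat (fun m => σ (zetaP p m)) (fun n => (hnorm n).le)
      (fun n => by rw [← map_pow, zetaP_succ]) (by rw [zetaP_zero, map_one]) =
      (p ^ n : ℕ) * logFlat ω (fun m => (hω1 m).le) hω2 hω0 + k * tCris p := by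
    rw [tCris, ← logFlat_pow ω (fun m => (hω1 m).le) hω2 hω0 (p ^ n) e1 e2 e3,
      ← logFlat_pow (zetaP p) (fun n => (norm_zetaP p n).le) (zetaP_succ p) (zetaP_zero p) k
        f1 f2 f3,
      ← logFlat_mul (fun m => ω m ^ p ^ n) (fun m => zetaP p m ^ k) e1 e2 e3 f1 f2 f3
        (fun m => by rw [hωpow]; exact (hnorm m).le)
        (fun m => by rw [hωpow, hωpow, ← map_pow, zetaP_succ])
        (by rw [hωpow, zetaP_zero, map_one])]
    apply logFlat_congr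
    ext m
    rw [hωpow]
  rw [key, map_add, map_mul, map_mul, map_mul, map_natCast, map_natCast]
  have hpn : ((p ^ n : ℕ) : Aq p n) = 0 := by
    rw [← map_natCast (mkq p n), ← map_zero (mkq p n), mkq_eq, sub_zero]
    exact natCast_mem_idealP_pow dvd_rfl
  rw [hpn, zero_mul, zero_add]
  congr 1
  -- `χ ≡ k`
  have h1 : χ - (k : ℤ_[p]) ∈ RingHom.ker (PadicInt.toZModPow n : ℤ_[p] →+* ZMod (p ^ n)) := by
    rw [RingHom.mem_ker, map_sub, map_natCast, hk, ZMod.natCast_zmod_val, sub_self]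
  rw [PadicInt.ker_toZModPow, Ideal.mem_span_singleton] at h1
  obtain ⟨z, hz⟩ := h1
  have h2 : χ = k + (p : ℤ_[p]) ^ n * z := by rw [← hz]; ring
  rw [h2, map_add, map_mul, map_pow, map_natCast, map_natCast, map_add, map_mul, map_pow,
    map_natCast, map_natCast]
  push_cast at hpn
  rw [hpn, zero_mul, add_zero]

end Period

end Pool.Agent.H12
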