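import Mathlib
import Pool.Agent.H12.B5

open Polynomial WittVector

set_option warn.classDefReducibility false

namespace Pool.Agent.H12

section Bst

/-- Extend a ring homomorphism from `ℤ_p` to `ℚ_p` if `p` becomes invertible. -/
noncomputable def qpLift {p : ℕ} [Fact p.Prime] {B : Type} [CommRing B] (f : ℤ_[p] →+* B)
    (h : IsUnit ((p : ℕ) : B)) : ℚ_[p] →+* B :=
  IsLocalization.lift (M := nonZeroDivisors ℤ_[p]) (S := ℚ_[p]) (isUnit_of_p f h)

theorem qpLift_coe {p : ℕ} [Fact p.Prime] {B : Type} [CommRing B] (f : ℤ_[p] →+* B)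
    (h : IsUnit ((p : ℕ) : B)) (x : ℤ_[p]) : qpLift f h (x : ℚ_[p]) = f x :=
  IsLocalization.lift_eq _ x

variable (p : ℕ) [Fact p.Prime]

/-- `B_cris^+ = A_cris[1/p]`. -/
def BcrisPlus : Type := Localization.Away ((p : ℕ) : Acris p)

noncomputable def instRingBcrisPlus : CommRing (BcrisPlus p) := OreLocalization.instCommRing

attribute [instance] instRingBcrisPlus

noncomputable def instAlgBcrisPlus : Algebra (Acris p) (BcrisPlus p) := OreLocalization.instAlgebra

attribute [instance] instAlgBcrisPlus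

instance instLocBcrisPlus : IsLocalization.Away ((p : ℕ) : Acris p) (BcrisPlus p) :=
  Localization.isLocalization

/-- The map `A_cris → B_cris^+`. -/
noncomputable def toBcrisPlus : Acris p →+* BcrisPlus p := algebraMap (Acris p) (BcrisPlus p)

theorem isUnit_p_BcrisPlus : IsUnit ((p : ℕ) : BcrisPlus p) := by
  have := IsLocalization.Away.algebraMap_isUnit (S := BcrisPlus p) ((p : ℕ) : Acris p)
  rwa [map_natCast] at this

/-- The element `t` in `B_cris^+`. -/
noncomputable def tPlus : BcrisPlus p := toBcrisPlus p (tCris p)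

/-- `B_cris = B_cris^+[1/t]`. -/
def Bcris : Type := Localization.Away (tPlus p)

noncomputable def instRingBcris : CommRing (Bcris p) := OreLocalization.instCommRing

attribute [instance] instRingBcris

noncomputable def instAlgBcris : Algebra (BcrisPlus p) (Bcris p) := OreLocalization.instAlgebra

attribute [instance] instAlgBcris

instance instLocBcris : IsLocalization.Away (tPlus p) (Bcris p) := Localization.isLocalization

/-- The map `B_cris^+ → B_cris`. -/
noncomputable def toBcris : BcrisPlus p →+* Bcris p := algebraMap (BcrisPlus p) (Bcris p)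

/-- The structure map `ℚ_p → B_cris^+`. -/
noncomputable def qpBcrisPlus : ℚ_[p] →+* BcrisPlus p :=
  qpLift ((toBcrisPlus p).comp (zpAcris p)) (isUnit_p_BcrisPlus p)

/-- The structure map `ℚ_p → B_cris`. -/
noncomputable def qpBcris : ℚ_[p] →+* Bcris p := (toBcris p).comp (qpBcrisPlus p)

/-- The element `t` in `B_cris`. -/
noncomputable def tB : Bcris p := toBcris p (tPlus p)

theorem isUnit_tB : IsUnit (tB p) := IsLocalization.Away.algebraMap_isUnit (tPlus p)

variable {p}

theorem isUnit_p_actCris (σ : GalP p) :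
    IsUnit (((toBcrisPlus p).comp (actAcris σ)) ((p : ℕ) : Acris p)) := by
  rw [map_natCast]; exact isUnit_p_BcrisPlus p

/-- The action on `B_cris^+`. -/
noncomputable def actBcrisPlus (σ : GalP p) : BcrisPlus p →+* BcrisPlus p :=
  IsLocalization.Away.lift ((p : ℕ) : Acris p) (isUnit_p_actCris σ)

theorem actBcrisPlus_algebraMap (σ : GalP p) (x : Acris p) :
    actBcrisPlus σ (toBcrisPlus p x) = toBcrisPlus p (actAcris σ x) :=
  IsLocalization.Away.lift_eq _ _ x

theorem actBcrisPlus_t (σ : GalP p) :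
    actBcrisPlus σ (tPlus p) = qpBcrisPlus p ((cyc ℚ_[p] p σ : ℤ_[p]) : ℚ_[p]) * tPlus p := by
  rw [tPlus, actBcrisPlus_algebraMap, act_tCris, map_mul, qpBcrisPlus, qpLift_coe]
  rfl

theorem isUnit_t_act (σ : GalP p) : IsUnit (((toBcris p).comp (actBcrisPlus σ)) (tPlus p)) := by
  rw [RingHom.comp_apply, actBcrisPlus_t, map_mul]
  refine IsUnit.mul ?_ (isUnit_tB p)
  have h1 : IsUnit ((cyc ℚ_[p] p σ : ℤ_[p]) : ℚ_[p]) :=
    (Units.isUnit (cyc ℚ_[p] p σ)).map (PadicInt.Coe.ringHom (p := p))
  exact (h1.map (qpBcrisPlus p)).map (toBcris p)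

/-- The action on `B_cris`. -/
noncomputable def actBcris (σ : GalP p) : Bcris p →+* Bcris p :=
  IsLocalization.Away.lift (tPlus p) (isUnit_t_act σ)

theorem actBcris_algebraMap (σ : GalP p) (x : BcrisPlus p) :
    actBcris σ (toBcris p x) = toBcris p (actBcrisPlus σ x) :=
  IsLocalization.Away.lift_eq _ _ x

/-- the action fixes `ℤ_p` -/
theorem actAinf_zpAinf (σ : GalP p) (x : ℤ_[p]) : actAinf σ (zpAinf p x) = zpAinf p x := by
  have h1 : (actFlat σ).comp (ZMod.castHom (dvd_refl p) (OCflat p)) =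
      ZMod.castHom (dvd_refl p) (OCflat p) := RingHom.ext_zmod _ _
  refine WittVector.ext fun n => ?_
  exact RingHom.congr_fun h1 (((WittVector.equiv p).symm x).coeff n)

theorem actAcris_zpAcris (σ : GalP p) (x : ℤ_[p]) : actAcris σ (zpAcris p x) = zpAcris p x := by
  apply ext_evalCris
  intro n
  rw [evalCris_act]
  have h1 : zpAcris p x = toAcris p (toA0 p (zpAinf p x)) := rfl
  have h2 : actAcris0 σ (toA0 p (zpAinf p x)) = toA0 p (zpAinf p x) := by
    apply Subtype.ext
    change actAinfP σ (toAinfP p (zpAinf p x)) = toAinfP p (zpAinf p x)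
    rw [actAinfP_algebraMap, actAinf_zpAinf]
  rw [h1, evalCris_to, actQuot_mk, h2]

theorem actBcrisPlus_qp (σ : GalP p) (x : ℚ_[p]) :
    actBcrisPlus σ (qpBcrisPlus p x) = qpBcrisPlus p x := by
  have h : (actBcrisPlus σ).comp (qpBcrisPlus p) = qpBcrisPlus p := by
    apply qp_hom_ext
    intro x
    rw [RingHom.comp_apply, qpBcrisPlus, qpLift_coe, RingHom.comp_apply, actBcrisPlus_algebraMap,
      actAcris_zpAcris]
  exact RingHom.congr_fun h x

theorem actBcris_qp (σ : GalP p) (x : ℚ_[p]) : actBcris σ (qpBcris p x) = qpBcris p x := by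
  rw [qpBcris, RingHom.comp_apply, actBcris_algebraMap, actBcrisPlus_qp]

variable (p)

/-- A compatible system of `p ^ n`-th roots of `p`. -/
theorem exists_rootsOfP : ∃ u : ℕ → PadicAlgCl p, u 0 = (p : PadicAlgCl p) ∧
    ∀ n, u (n + 1) ^ p = u n := by
  have hroot : ∀ x : PadicAlgCl p, ∃ z, z ^ p = x := fun x =>
    IsAlgClosed.exists_pow_nat_eq x (Fact.out : p.Prime).pos
  choose R hR using hroot
  exact ⟨fun n => Nat.rec (p : PadicAlgCl p) (fun _ z => R z) n, rfl, fun n => hR _⟩

/-- The compatible system `p^♭ = (p, p^(1/p), p^(1/p^2), …)`. -/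
noncomputable def rootP : ℕ → PadicAlgCl p := (exists_rootsOfP p).choose

theorem rootP_zero : rootP p 0 = (p : PadicAlgCl p) := (exists_rootsOfP p).choose_spec.1

theorem rootP_succ (n : ℕ) : rootP p (n + 1) ^ p = rootP p n := (exists_rootsOfP p).choose_spec.2 n

theorem rootP_pow (n : ℕ) : rootP p n ^ p ^ n = ((p : ℕ) : PadicAlgCl p) := by
  induction n with
  | zero => rw [pow_zero, pow_one, rootP_zero]
  | succ n ih => rw [pow_succ', pow_mul, rootP_succ, ih]

theorem exists_kummerP : ∃ κ : GalP p → ℤ_[p], ∀ n g,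
    g (rootP p n) = zetaP p n ^ (PadicInt.toZModPow n (κ g)).val * rootP p n := by
  obtain ⟨κ, h, _⟩ := exists_kummer (k := ℚ_[p]) (ℓ := p) (zetaP p) (zetaP_prim p) (zetaP_succ p)
    (fun _ => 1) (fun _ => p) (fun _ => Nat.one_pos) (fun _ => (Fact.out : p.Prime).pos) (rootP p)
    (fun n => by rw [rootP_succ, Nat.cast_one, mul_one]) (rootP_pow p)
  exact ⟨κ, h⟩

variable {p}

/-- The Kummer cocycle `c : G → ℤ_p` of `p`: `σ (p^♭) = ε^(c σ) p^♭`. -/
noncomputable def kummerP (σ : GalP p) : ℤ_[p] := (exists_kummerP p).choose σ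

variable (p)

/-- `B_st = B_cris[u]`, where `u = log [p^♭]`. -/
def Bst : Type := (Bcris p)[X]

noncomputable def instRingBst : CommRing (Bst p) := Polynomial.commRing

attribute [instance] instRingBst

/-- The inclusion of `B_cris` in `B_st`. -/
noncomputable def inclBst : Bcris p →+* Bst p := (Polynomial.C : Bcris p →+* (Bcris p)[X])

/-- The element `u` of `B_st`. -/
noncomputable def uSt : Bst p := (Polynomial.X : (Bcris p)[X])

noncomputable def instAlgBst : Algebra ℚ_[p] (Bst p) := ((inclBst p).comp (qpBcris p)).toAlgebra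

attribute [instance] instAlgBst

variable {p}

/-- The action on `B_st = B_cris[u]`: it extends that on `B_cris` and `σ u = u + c(σ) t`. -/
noncomputable def actBstHom (σ : GalP p) : Bst p →+* Bst p :=
  (Polynomial.eval₂RingHom ((inclBst p).comp (actBcris σ))
    (uSt p + inclBst p (qpBcris p (kummerP σ : ℤ_[p])) * inclBst p (tB p)) :
    (Bcris p)[X] →+* Bst p)

theorem actBstHom_C (σ : GalP p) (x : Bcris p) :
    actBstHom σ (inclBst p x) = inclBst p (actBcris σ x) :=
  Polynomial.eval₂_C _ _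

theorem actBst_commutes (σ : GalP p) (x : ℚ_[p]) :
    actBstHom σ (algebraMap ℚ_[p] (Bst p) x) = algebraMap ℚ_[p] (Bst p) x :=
  (actBstHom_C σ (qpBcris p x)).trans (congrArg (inclBst p) (actBcris_qp σ x))

/-- The action on `B_st` as a map of `ℚ_p`-algebras. -/
noncomputable def actBst (σ : GalP p) : Bst p →ₐ[ℚ_[p]] Bst p :=
  AlgHom.mk (actBstHom σ) (actBst_commutes σ)

end Bst

end Pool.Agent.H12
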