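import Mathlib
import Pool.Agent.H12.D6

open Polynomial WittVector

namespace Pool.Agent.H12

section Bst

variable {p : ℕ} [Fact p.Prime]

theorem actBcris_t (σ : GalP p) :
    actBcris σ (tB p) = qpBcris p ((cyc ℚ_[p] p σ : ℤ_[p]) : ℚ_[p]) * tB p := by
  rw [tB, actBcris_algebraMap, actBcrisPlus_t, map_mul]
  rfl

theorem actBst_C (σ : GalP p) (x : Bcris p) :
    actBst σ (inclBst p x) = inclBst p (actBcris σ x) := actBstHom_C σ x

/-- `t` as a unit of `B_st`. -/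
noncomputable def tSt : (Bst p)ˣ := ((isUnit_tB p).map (inclBst p)).unit

theorem actBst_t (σ : GalP p) :
    actBst σ (tSt : (Bst p)ˣ) =
      algebraMap ℚ_[p] (Bst p) ((cyc ℚ_[p] p σ : ℤ_[p]) : ℚ_[p]) * (tSt : (Bst p)ˣ) := by
  have h1 : ((tSt : (Bst p)ˣ) : Bst p) = inclBst p (tB p) := rfl
  rw [h1, actBst_C, actBcris_t, map_mul]
  rfl

end Bst

end Pool.Agent.H12
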