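import Mathlib
import Pool.Agent.H12.B6

open Polynomial TensorProduct

set_option warn.classDefReducibility false

namespace Pool.Agent.H12

section Defs

/-- The absolute Galois group of `k`. -/
abbrev GG (k : Type) [Field k] : Type := AlgebraicClosure k ≃ₐ[k] AlgebraicClosure k

/-- An `ℓ`-adic representation of `G_k`: a finite-dimensional `ℚ_ℓ`-vector space with a
continuous linear action (continuity is continuity of all matrix coefficients). -/
structure LRep (k : Type) [Field k] (ℓ : ℕ) [Fact ℓ.Prime] where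
  /-- the underlying space -/
  V : Type
  [instAdd : AddCommGroup V]
  [instMod : Module ℚ_[ℓ] V]
  [instFin : FiniteDimensional ℚ_[ℓ] V]
  /-- the action -/
  ρ : Representation ℚ_[ℓ] (GG k) V
  cont : ∀ (v : V) (f : Module.Dual ℚ_[ℓ] V), Continuous fun g => f (ρ g v)

attribute [instance] LRep.instAdd LRep.instMod LRep.instFin

variable {k : Type} [Field k] {ℓ : ℕ} [Fact ℓ.Prime]

/-- The action of an element as a linear map. -/
noncomputable def LRep.lin (V : LRep k ℓ) (g : GG k) : V.V →ₗ[ℚ_[ℓ]] V.V := V.ρ g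

/-- The action of an element. -/
noncomputable def LRep.act (V : LRep k ℓ) (g : GG k) (v : V.V) : V.V := V.lin g v

/-- Morphisms of representations. -/
structure LHom (V W : LRep k ℓ) where
  /-- the linear map -/
  lin : V.V →ₗ[ℚ_[ℓ]] W.V
  comm : ∀ (g : GG k) (v : V.V), lin (V.act g v) = W.act g (lin v)

/-- The underlying function of a morphism. -/
noncomputable def LHom.fn {V W : LRep k ℓ} (f : LHom V W) (v : V.V) : W.V := f.lin v

/-- The integral closure `R'` of `R` in the algebraic closure of `k`. -/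
def Rbar (R : Subalgebra ℤ k) : Type := integralClosure R (AlgebraicClosure k)

noncomputable def instRingRbar (R : Subalgebra ℤ k) : CommRing (Rbar R) :=
  Subalgebra.toCommRing (integralClosure R (AlgebraicClosure k))

attribute [instance] instRingRbar

/-- The inclusion of `R'` in the algebraic closure of `k`. -/
noncomputable def inclRbar (R : Subalgebra ℤ k) : Rbar R →+* AlgebraicClosure k :=
  algebraMap (integralClosure R (AlgebraicClosure k)) (AlgebraicClosure k)

/-- The inclusion of `R` in `R'`. -/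
noncomputable def toRbar (R : Subalgebra ℤ k) : R →+* Rbar R :=
  algebraMap R (integralClosure R (AlgebraicClosure k))

/-- `Nx = #(R / x)`, for the closed point `x = 𝔓 ∩ R` of `Spec R`. -/
noncomputable def normPt (R : Subalgebra ℤ k) (𝔓 : Ideal (Rbar R)) : ℕ :=
  Nat.card (R ⧸ 𝔓.comap (toRbar R))

/-- `σ y ≡ y ^ q` modulo `𝔓` for all `y ∈ R'`. For `q = 1` this says that `σ` is in the inertia
group of `𝔓`, and for `q = Nx` that `σ` is an arithmetic Frobenius at `𝔓`. -/
def IsFrob (R : Subalgebra ℤ k) (𝔓 : Ideal (Rbar R)) (q : ℕ) (σ : GG k) : Prop :=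
  ∀ y z : Rbar R, inclRbar R z = σ (inclRbar R y) → z - y ^ q ∈ 𝔓

/-- `μ` is an algebraic number all of whose complex absolute values are `q ^ (m / 2)`. -/
def IsWeil (q : ℕ) (m : ℤ) (μ : AlgebraicClosure ℚ_[ℓ]) : Prop :=
  IsAlgebraic ℚ μ ∧ ∀ z : ℂ, aeval z (minpoly ℚ μ) = 0 → ‖z‖ = (q : ℝ) ^ ((m : ℝ) / 2)

/-- `V` is pure of weight `m`: there is a subring `R` of `k`, of finite type over `ℤ`, with
fraction field `k` and `ℓ` invertible in `R`, such that for every maximal ideal `𝔓` of the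
integral closure `R'` of `R` in the algebraic closure of `k` (lying over the closed point
`x = 𝔓 ∩ R` of `Spec R`):
* the inertia group at `𝔓` acts trivially on `V`;
* if `σ` is an arithmetic Frobenius at `𝔓`, then every eigenvalue of the geometric Frobenius
  `σ⁻¹` on `V` is an algebraic number all of whose complex absolute values are
  `(Nx) ^ (m / 2)`. -/
def IsPure (V : LRep k ℓ) (m : ℤ) : Prop :=
  ∃ R : Subalgebra ℤ k, R.FG ∧ IsFractionRing R k ∧ IsUnit ((ℓ : ℕ) : R) ∧
    ∀ 𝔓 : Ideal (Rbar R), 𝔓.IsMaximal →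
      (∀ σ : GG k, IsFrob R 𝔓 1 σ → ∀ v, V.act σ v = v) ∧
      (∀ σ : GG k, IsFrob R 𝔓 (normPt R 𝔓) σ → ∀ μ : AlgebraicClosure ℚ_[ℓ],
        Module.End.HasEigenvalue
          (LinearMap.baseChange (AlgebraicClosure ℚ_[ℓ]) (V.lin σ⁻¹)) μ →
        IsWeil (normPt R 𝔓) m μ)

/-- `P` is isomorphic to the quotient `A / B` of subrepresentations `B ⊆ A` of `V`: there is a
linear map `π` from `V` to `P` whose restriction to `A` is surjective with kernel `B`, and
compatible with the actions. -/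
def IsQuot (V : LRep k ℓ) (A B : Submodule ℚ_[ℓ] V.V) (P : LRep k ℓ) : Prop :=
  ∃ π : V.V →ₗ[ℚ_[ℓ]] P.V, (∀ y, ∃ v ∈ A, π v = y) ∧ (∀ v ∈ A, π v = 0 ↔ v ∈ B) ∧
    ∀ (g : GG k), ∀ v ∈ A, π (V.act g v) = P.act g (π v)

/-- `V` is mixed: there is a finite increasing filtration `W` by subrepresentations such that
`W_m / W_(m-1)` is pure of weight `m` for every `m`. -/
def IsMixed (V : LRep k ℓ) : Prop :=
  ∃ W : ℤ → Submodule ℚ_[ℓ] V.V, Monotone W ∧ (∃ a, W a = ⊥) ∧ (∃ b, W b = ⊤) ∧
    (∀ m (g : GG k), ∀ v ∈ W m, V.act g v ∈ W m) ∧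
    ∀ m, ∃ P : LRep k ℓ, IsPure P m ∧ IsQuot V (W m) (W (m - 1)) P

/-- `B_st ⊗ V`. -/
def BV (V : LRep k ℓ) : Type := Bst ℓ ⊗[ℚ_[ℓ]] V.V

noncomputable def instAddBV (V : LRep k ℓ) : AddCommGroup (BV V) := TensorProduct.addCommGroup

attribute [instance] instAddBV

noncomputable def instModBV (V : LRep k ℓ) : Module (Bst ℓ) (BV V) := TensorProduct.leftModule

attribute [instance] instModBV

/-- The action on `B_st` as a linear map. -/
noncomputable def actBstLin (σ : GalP ℓ) : Bst ℓ →ₗ[ℚ_[ℓ]] Bst ℓ := (actBst σ).toLinearMap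

/-- The action `σ ⊗ g` on `B_st ⊗ V`. -/
noncomputable def actBV (V : LRep k ℓ) (σ : GalP ℓ) (g : GG k) : BV V → BV V :=
  TensorProduct.map (actBstLin σ) (V.lin g)

/-- `V` is potentially semistable at every place of `k` above `ℓ`. For every embedding `ι` of the
algebraic closure of `k` into that of `ℚ_ℓ` (each place `v ∣ ℓ` is induced by such an `ι`)
there is a finite extension `L` of `ℚ_ℓ` containing `ι k` (so containing `k_v`) such that the
restriction of `V` to `G_L` is semistable: `B_st ⊗ V` has a `B_st`-basis of vectors fixed by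
`G_L`. Here `σ ∈ G_L` acts on `V` through the element `g` of `G_k` induced by `σ`. -/
def IsPst (V : LRep k ℓ) : Prop :=
  ∀ ι : AlgebraicClosure k →+* PadicAlgCl ℓ,
    ∃ L : IntermediateField ℚ_[ℓ] (PadicAlgCl ℓ), FiniteDimensional ℚ_[ℓ] L ∧
      (∀ x : k, ι (algebraMap k (AlgebraicClosure k) x) ∈ L) ∧
      ∃ b : Module.Basis (Fin (Module.finrank ℚ_[ℓ] V.V)) (Bst ℓ) (BV V),
        ∀ σ ∈ L.fixingSubgroup, ∀ g : GG k, (∀ x, ι (g x) = σ (ι x)) →
          ∀ i, actBV V σ g (b i) = b i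

/-- The objects of the category `C_{k,ℓ}`. -/
def InC (V : LRep k ℓ) : Prop := IsMixed V ∧ IsPst V

/-- A Yoneda 2-extension `0 → W → E → F → V → 0` with all terms in `C_{k,ℓ}`. -/
structure TwoExt (V W : LRep k ℓ) where
  /-- first middle term -/
  E : LRep k ℓ
  /-- second middle term -/
  F : LRep k ℓ
  hE : InC E
  hF : InC F
  /-- the first map -/
  i : LHom W E
  /-- the middle map -/
  d : LHom E F
  /-- the last map -/
  q : LHom F V
  inj : Function.Injective i.fn
  exE : ∀ x, d.fn x = 0 ↔ ∃ w, i.fn w = x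
  exF : ∀ y, q.fn y = 0 ↔ ∃ x, d.fn x = y
  surj : Function.Surjective q.fn

/-- There is a morphism of 2-extensions which is the identity on the two end terms. -/
def TwoExt.Rel {V W : LRep k ℓ} (ξ ξ' : TwoExt V W) : Prop :=
  ∃ (a : LHom ξ.E ξ'.E) (b : LHom ξ.F ξ'.F), (∀ w, a.fn (ξ.i.fn w) = ξ'.i.fn w) ∧
    (∀ x, b.fn (ξ.d.fn x) = ξ'.d.fn (a.fn x)) ∧ (∀ y, ξ'.q.fn (b.fn y) = ξ.q.fn y)

/-- Yoneda `Ext^2` in `C_{k,ℓ}`: 2-extensions modulo the equivalence relation generated by the
morphisms of 2-extensions inducing the identity on the end terms. -/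
def Ext2 (V W : LRep k ℓ) : Type 1 := Quot (TwoExt.Rel (V := V) (W := W))

/-- The identity morphism. -/
noncomputable def LHom.one (V : LRep k ℓ) : LHom V V := ⟨LinearMap.id, fun _ _ => rfl⟩

theorem zero_comm (V W : LRep k ℓ) (g : GG k) (v : V.V) :
    (0 : V.V →ₗ[ℚ_[ℓ]] W.V) (V.act g v) = W.act g ((0 : V.V →ₗ[ℚ_[ℓ]] W.V) v) :=
  (map_zero (W.ρ g)).symm

/-- The zero morphism. -/
noncomputable def LHom.null (V W : LRep k ℓ) : LHom V W := ⟨0, zero_comm V W⟩

/-- The 2-extension `0 → W = W → V = V → 0` with zero middle map. -/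
noncomputable def TwoExt.trivial (V W : LRep k ℓ) (hV : InC V) (hW : InC W) : TwoExt V W where
  E := W
  F := V
  hE := hW
  hF := hV
  i := LHom.one W
  d := LHom.null W V
  q := LHom.one V
  inj := fun _ _ h => h
  exE := fun x => ⟨fun _ => ⟨x, rfl⟩, fun _ => rfl⟩
  exF := fun x => ⟨fun h => ⟨0, h.symm⟩, fun ⟨_, h⟩ => h.symm⟩
  surj := fun y => ⟨y, rfl⟩

/-- The zero element of `Ext^2`. -/
noncomputable def Ext2.zero (V W : LRep k ℓ) (hV : InC V) (hW : InC W) : Ext2 V W :=
  Quot.mk _ (TwoExt.trivial V W hV hW)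

end Defs

end Pool.Agent.H12
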