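import Mathlib
import Pool.Agent.H12.D7

open Polynomial TensorProduct

set_option warn.classDefReducibility false

namespace Pool.Agent.H12

section Tate

variable (k : Type) [Field k] (ℓ : ℕ) [Fact ℓ.Prime]

/-- The cyclotomic character with values in `ℚ_ℓ`. -/
noncomputable def chi (g : GG k) : ℚ_[ℓ] := ((cyc k ℓ g : ℤ_[ℓ]) : ℚ_[ℓ])

theorem chi_mul (g h : GG k) : chi k ℓ (g * h) = chi k ℓ g * chi k ℓ h := by
  simp [chi]

theorem chi_one : chi k ℓ 1 = 1 := by simp [chi]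

/-- Multiplication by the `j`-th power of the cyclotomic character. -/
noncomputable def chiPow (j : ℕ) (g : GG k) : ℚ_[ℓ] →ₗ[ℚ_[ℓ]] ℚ_[ℓ] :=
  (chi k ℓ g ^ j) • LinearMap.id

theorem chiPow_one (j : ℕ) : chiPow k ℓ j 1 = 1 := by
  rw [chiPow, chi_one, one_pow, one_smul]; rfl

theorem chiPow_mul (j : ℕ) (g h : GG k) :
    chiPow k ℓ j (g * h) = chiPow k ℓ j g * chiPow k ℓ j h := by
  rw [chiPow, chi_mul, mul_pow]
  apply LinearMap.ext
  intro v
  simp [chiPow]
  ring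

theorem coe_continuous : Continuous (fun x : ℤ_[ℓ] => (x : ℚ_[ℓ])) := continuous_subtype_val

theorem chi_continuous [CharZero k] : Continuous (chi k ℓ) :=
  (coe_continuous ℓ).comp (Units.continuous_val.comp (cyc_continuous k ℓ))

theorem chiPow_cont [CharZero k] (j : ℕ) (v : ℚ_[ℓ]) (f : Module.Dual ℚ_[ℓ] ℚ_[ℓ]) :
    Continuous fun g => f (chiPow k ℓ j g v) := by
  have h : (fun g => f (chiPow k ℓ j g v)) = fun g => chi k ℓ g ^ j * f v := by
    ext g
    change f ((chi k ℓ g ^ j) • v) = _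
    rw [map_smul, smul_eq_mul]
  rw [h]
  exact ((chi_continuous k ℓ).pow j).mul continuous_const

/-- The Tate twist `ℚ_ℓ(j)`. -/
noncomputable def tate [CharZero k] (j : ℕ) : LRep k ℓ where
  V := ℚ_[ℓ]
  ρ := MonoidHom.mk (OneHom.mk (chiPow k ℓ j) (chiPow_one k ℓ j)) (chiPow_mul k ℓ j)
  cont := chiPow_cont k ℓ j

end Tate

end Pool.Agent.H12
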