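import Mathlib
import Pool.Agent.H12.D8

open Polynomial TensorProduct

namespace Pool.Agent.H12

section Objects

variable (k : Type) [Field k] [CharZero k] (ℓ : ℕ) [Fact ℓ.Prime]

theorem chi_ne_zero (g : GG k) : chi k ℓ g ≠ 0 := by
  have h : chi k ℓ g * chi k ℓ g⁻¹ = 1 := by rw [← chi_mul, mul_inv_cancel, chi_one]
  exact left_ne_zero_of_mul_eq_one h

theorem tate_apply (j : ℕ) (g : GG k) (v : ℚ_[ℓ]) :
    (tate k ℓ j).ρ g v = chi k ℓ g ^ j * v := rfl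

/-- The zero representation. -/
noncomputable def zeroRep : LRep k ℓ where
  V := PUnit
  ρ := 1
  cont := fun v f => by
    have : (fun g : GG k => f ((1 : Representation ℚ_[ℓ] (GG k) PUnit) g v)) = fun _ => f v := by
      ext g; rfl
    rw [this]
    exact continuous_const

variable {k ℓ}

/-- The extension of `ℚ_ℓ(j)` by `ℚ_ℓ(j+1)` given by the cocycle `κ`. -/
noncomputable def kum (j : ℕ) (κ : GG k → ℤ_[ℓ])
    (hκ : ∀ g h, κ (g * h) = κ g + (cyc k ℓ g : ℤ_[ℓ]) * κ h) (hc : Continuous κ) :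
    LRep k ℓ where
  V := ℚ_[ℓ] × ℚ_[ℓ]
  ρ :=
    { toFun := fun g =>
        { toFun := fun v => (chi k ℓ g ^ (j + 1) * v.1 + chi k ℓ g ^ j * (κ g : ℚ_[ℓ]) * v.2,
            chi k ℓ g ^ j * v.2)
          map_add' := fun v w => by
            ext
            · simp only [Prod.fst_add, Prod.snd_add]; ring
            · simp only [Prod.snd_add]; ring
          map_smul' := fun c v => by
            ext
            · simp only [Prod.smul_fst, Prod.smul_snd, smul_eq_mul, RingHom.id_apply]; ring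
            · simp only [Prod.smul_snd, smul_eq_mul, RingHom.id_apply]; ring }
      map_one' := by
        have h1 : κ 1 = 0 := by
          have := hκ 1 1
          simpa using this
        apply LinearMap.ext
        intro v
        simp [chi_one, h1]
      map_mul' := fun g h => by
        apply LinearMap.ext
        intro v
        simp only [LinearMap.coe_mk, AddHom.coe_mk, Module.End.mul_apply, chi_mul]
        ext
        · simp only
          rw [hκ]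
          push_cast
          have : ((cyc k ℓ g : ℤ_[ℓ]) : ℚ_[ℓ]) = chi k ℓ g := rfl
          rw [this]
          ring
        · simp only
          ring }
  cont := fun v f => by
    change Continuous fun g => f (chi k ℓ g ^ (j + 1) * v.1 +
      chi k ℓ g ^ j * (κ g : ℚ_[ℓ]) * v.2, chi k ℓ g ^ j * v.2)
    have h : (fun g => f (chi k ℓ g ^ (j + 1) * v.1 +
        chi k ℓ g ^ j * (κ g : ℚ_[ℓ]) * v.2, chi k ℓ g ^ j * v.2)) =
        fun g => (chi k ℓ g ^ (j + 1) * v.1 + chi k ℓ g ^ j * (κ g : ℚ_[ℓ]) * v.2) * f (1, 0) +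
          (chi k ℓ g ^ j * v.2) * f (0, 1) := by
      ext g
      rw [← smul_eq_mul (_ + _) (f (1, 0)), ← smul_eq_mul (_ * _) (f (0, 1)), ← map_smul,
        ← map_smul, ← map_add]
      congr 1
      ext <;> simp
    rw [h]
    have h1 : Continuous fun g => (κ g : ℚ_[ℓ]) := (coe_continuous ℓ).comp hc
    have h2 := chi_continuous k ℓ
    fun_prop

theorem kum_apply (j : ℕ) (κ : GG k → ℤ_[ℓ])
    (hκ : ∀ g h, κ (g * h) = κ g + (cyc k ℓ g : ℤ_[ℓ]) * κ h) (hc : Continuous κ)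
    (g : GG k) (v : ℚ_[ℓ] × ℚ_[ℓ]) :
    (kum j κ hκ hc).ρ g v = (chi k ℓ g ^ (j + 1) * v.1 + chi k ℓ g ^ j * (κ g : ℚ_[ℓ]) * v.2,
      chi k ℓ g ^ j * v.2) := rfl

/-! ### Purity -/

section Pure

variable (k ℓ) in
/-- `O_k[1/ℓ]` -/
noncomputable def Rloc : Subalgebra ℤ k :=
  integralClosure ℤ k ⊔ Algebra.adjoin ℤ {((ℓ : ℕ) : k)⁻¹}

omit [CharZero k] in
theorem Rloc_fg [NumberField k] : (Rloc k ℓ).FG := by
  refine Subalgebra.FG.sup ?_ ?_
  · apply Subalgebra.fg_of_fg_toSubmodule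
    have : Module.Finite ℤ (integralClosure ℤ k) := by
      change Module.Finite ℤ (NumberField.RingOfIntegers k)
      infer_instance
    exact (Submodule.fg_top _).mp this.fg_top
  · exact Subalgebra.fg_adjoin_finset {((ℓ : ℕ) : k)⁻¹} |> fun h => by simpa using h

theorem Rloc_isUnit : IsUnit ((ℓ : ℕ) : Rloc k ℓ) := by
  have h1 : ((ℓ : ℕ) : k)⁻¹ ∈ Rloc k ℓ :=
    (le_sup_right : _ ≤ Rloc k ℓ) (Algebra.subset_adjoin rfl)
  have hℓ : ((ℓ : ℕ) : k) ≠ 0 := Nat.cast_ne_zero.mpr (Fact.out : ℓ.Prime).ne_zero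
  refine IsUnit.of_mul_eq_one ⟨((ℓ : ℕ) : k)⁻¹, h1⟩ ?_
  apply Subtype.ext
  change (((ℓ : ℕ) : Rloc k ℓ) : k) * ((ℓ : ℕ) : k)⁻¹ = 1
  rw [SubringClass.coe_natCast, mul_inv_cancel₀ hℓ]

omit [CharZero k] in
theorem Rloc_frac [NumberField k] : IsFractionRing (Rloc k ℓ) k where
  map_units := by
    rintro ⟨y, hy⟩
    have : (y : Rloc k ℓ) ≠ 0 := nonZeroDivisors.ne_zero hy
    rw [isUnit_iff_ne_zero]
    intro h
    apply this
    exact Subtype.ext h
  surj := by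
    intro z
    obtain ⟨⟨x, y⟩, hxy⟩ := IsLocalization.surj (nonZeroDivisors (NumberField.RingOfIntegers k)) z
    have hle : integralClosure ℤ k ≤ Rloc k ℓ := le_sup_left
    refine ⟨(⟨(x : k), hle x.2⟩, ⟨⟨((y : NumberField.RingOfIntegers k) : k), hle y.1.2⟩, ?_⟩), ?_⟩
    · rw [mem_nonZeroDivisors_iff_ne_zero]
      intro h
      have h1 : ((y : NumberField.RingOfIntegers k) : k) = 0 := congrArg Subtype.val h
      exact nonZeroDivisors.ne_zero y.2 (NumberField.RingOfIntegers.coe_eq_zero_iff.mp h1)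
    · exact hxy
  exists_of_eq := by
    intro x y hxy
    exact ⟨1, by rw [Subtype.ext hxy]⟩

omit [CharZero k] in
theorem root_eq (R : Subalgebra ℤ k) (hℓ : IsUnit ((ℓ : ℕ) : R))
    (𝔓 : Ideal (integralClosure R (AlgebraicClosure k))) (h𝔓 : 𝔓 ≠ ⊤) (n : ℕ)
    (z w : integralClosure R (AlgebraicClosure k)) (hz : z ^ ℓ ^ n = 1) (hw : w ^ ℓ ^ n = 1)
    (h : z - w ∈ 𝔓) : z = w := by
  have hpr : ℓ.Prime := Fact.out
  obtain ⟨N, hN⟩ : ∃ N, ℓ ^ n = N + 1 := ⟨ℓ ^ n - 1, by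
    have := pow_pos hpr.pos n
    omega⟩
  set η := z * w ^ N with hη
  have hwN : w * w ^ N = 1 := by rw [← pow_succ', ← hN, hw]
  have hη1 : η - 1 ∈ 𝔓 := by
    have : η - 1 = (z - w) * w ^ N := by rw [hη, sub_mul, hwN]
    rw [this]
    exact Ideal.mul_mem_right _ _ h
  have hηN : η ^ ℓ ^ n = 1 := by
    rw [hη, mul_pow, hz, one_mul, ← pow_mul, mul_comm, pow_mul, hw, one_pow]
  by_cases hηe : η = 1
  · have h1 : z * (w ^ N * w) = w := by rw [← mul_assoc, ← hη, hηe, one_mul]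
    rwa [mul_comm (w ^ N), hwN, mul_one] at h1
  · exfalso
    have h1 : (∑ i ∈ Finset.range (ℓ ^ n), η ^ i) * (η - 1) = 0 := by
      rw [geom_sum_mul, hηN, sub_self]
    have h2 : ∑ i ∈ Finset.range (ℓ ^ n), η ^ i = 0 := by
      rcases mul_eq_zero.mp h1 with h | h
      · exact h
      · exact absurd (sub_eq_zero.mp h) hηe
    have h3 : ∑ i ∈ Finset.range (ℓ ^ n), (η ^ i - 1) ∈ 𝔓 := by
      refine Ideal.sum_mem _ fun i _ => ?_
      have h4 : η - 1 ∣ η ^ i - 1 ^ i := sub_dvd_pow_sub_pow η 1 i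
      rw [one_pow] at h4
      exact Ideal.mem_of_dvd _ h4 hη1
    rw [Finset.sum_sub_distrib, h2, zero_sub, neg_mem_iff, Finset.sum_const, Finset.card_range,
      nsmul_eq_mul, mul_one] at h3
    have h5 : IsUnit (((ℓ ^ n : ℕ)) : integralClosure R (AlgebraicClosure k)) := by
      have h6 := (hℓ.map (algebraMap R (integralClosure R (AlgebraicClosure k)))).pow n
      rw [map_natCast] at h6
      rw [Nat.cast_pow]
      exact h6
    exact h𝔓 (Ideal.eq_top_of_isUnit_mem _ h3 h5)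

/-- The cyclotomic character at an element acting on the residue ring by the `q`-th power. -/
theorem cyc_of_frob (R : Subalgebra ℤ k) (hℓ : IsUnit ((ℓ : ℕ) : R))
    (𝔓 : Ideal (integralClosure R (AlgebraicClosure k))) (h𝔓 : 𝔓 ≠ ⊤) (σ : GG k) (q : ℕ)
    (hσ : ∀ y z : integralClosure R (AlgebraicClosure k),
      (z : AlgebraicClosure k) = σ y → z - y ^ q ∈ 𝔓) : (cyc k ℓ σ : ℤ_[ℓ]) = q := by
  have hpr : ℓ.Prime := Fact.out
  apply PadicInt.ext_of_toZModPow.mp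
  intro n
  have : NeZero (ℓ ^ n) := ⟨pow_ne_zero _ hpr.ne_zero⟩
  obtain ⟨ζ, hζ⟩ := HasEnoughRootsOfUnity.exists_primitiveRoot (AlgebraicClosure k) (ℓ ^ n)
  have hint : ∀ x : AlgebraicClosure k, x ^ ℓ ^ n = 1 → x ∈ integralClosure R (AlgebraicClosure k) := by
    intro x hx
    exact ⟨X ^ ℓ ^ n - 1, monic_X_pow_sub_C 1 (NeZero.ne _), by simp [hx]⟩
  have hσζ : (σ ζ) ^ ℓ ^ n = 1 := by rw [← map_pow, hζ.pow_eq_one, map_one]
  let y : integralClosure R (AlgebraicClosure k) := ⟨ζ, hint ζ hζ.pow_eq_one⟩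
  let z : integralClosure R (AlgebraicClosure k) := ⟨σ ζ, hint _ hσζ⟩
  have h1 : z - y ^ q ∈ 𝔓 := hσ y z rfl
  have hy : y ^ ℓ ^ n = 1 := Subtype.ext hζ.pow_eq_one
  have hz : z ^ ℓ ^ n = 1 := Subtype.ext hσζ
  have h2 : z = y ^ q := root_eq R hℓ 𝔓 h𝔓 n z (y ^ q) hz
    (by rw [← pow_mul, mul_comm, pow_mul, hy, one_pow]) h1
  have h3 : σ ζ = ζ ^ q := congrArg Subtype.val h2
  rw [cyc_spec k ℓ σ n ζ hζ.pow_eq_one, ← pow_val_natCast _ hζ.pow_eq_one q] at h3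
  have h4 := ZMod.val_injective _ (hζ.pow_inj (ZMod.val_lt _) (ZMod.val_lt _) h3)
  rw [h4, map_natCast]

omit [CharZero k] in
theorem natCard_ne_zero (R : Subalgebra ℤ k)
    (𝔓 : Ideal (integralClosure R (AlgebraicClosure k))) (h𝔓 : 𝔓 ≠ ⊤) (σ : GG k) (q : ℕ)
    (hσ : ∀ y z : integralClosure R (AlgebraicClosure k),
      (z : AlgebraicClosure k) = σ y → z - y ^ q ∈ 𝔓) : q ≠ 0 := by
  rintro rfl
  have h1 := hσ 0 0 (by simp)
  rw [pow_zero, zero_sub, neg_mem_iff] at h1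
  exact h𝔓 ((Ideal.eq_top_iff_one _).mpr h1)

theorem tate_pure [NumberField k] (j : ℕ) : IsPure (tate k ℓ j) (-2 * j) := by
  refine ⟨Rloc k ℓ, Rloc_fg, Rloc_frac, Rloc_isUnit, fun 𝔓 h𝔓 => ⟨?_, ?_⟩⟩
  · intro σ hσ (v : ℚ_[ℓ])
    have h1 := cyc_of_frob (ℓ := ℓ) (Rloc k ℓ) Rloc_isUnit 𝔓 h𝔓.ne_top σ 1 hσ
    have h2 : chi k ℓ σ = 1 := by rw [chi, h1]; simp
    change chi k ℓ σ ^ j * v = v
    rw [h2, one_pow, one_mul]
  · intro σ hσ μ hμ
    set q := normPt (Rloc k ℓ) 𝔓 with hq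
    have hq0 : q ≠ 0 := natCard_ne_zero (Rloc k ℓ) 𝔓 h𝔓.ne_top σ q hσ
    have h1 := cyc_of_frob (ℓ := ℓ) (Rloc k ℓ) Rloc_isUnit 𝔓 h𝔓.ne_top σ q hσ
    have h2 : chi k ℓ σ = q := by rw [chi, h1]; simp
    have h3 : chi k ℓ σ⁻¹ = (q : ℚ_[ℓ])⁻¹ := by
      have h4 : chi k ℓ σ * chi k ℓ σ⁻¹ = 1 := by rw [← chi_mul, mul_inv_cancel, chi_one]
      rw [h2] at h4
      exact eq_inv_of_mul_eq_one_right h4
    have h5 : (tate k ℓ j).lin σ⁻¹ = (((q : ℚ_[ℓ])⁻¹) ^ j) • LinearMap.id := by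
      rw [← h3]; rfl
    obtain ⟨v, hv⟩ := hμ.exists_hasEigenvector
    have hv1 := hv.apply_eq_smul
    have hv2 := hv.2
    rw [h5, LinearMap.baseChange_smul, LinearMap.baseChange_id, LinearMap.smul_apply,
      LinearMap.id_apply] at hv1
    have h6 : μ = algebraMap ℚ (AlgebraicClosure ℚ_[ℓ]) (((q : ℚ)⁻¹) ^ j) := by
      have h7 : (algebraMap ℚ_[ℓ] (AlgebraicClosure ℚ_[ℓ]) (((q : ℚ_[ℓ])⁻¹) ^ j)) • v = μ • v := by
        rw [← hv1, algebraMap_smul]
      have h8 := smul_left_injective _ hv2 h7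
      rw [← h8]
      simp
    refine ⟨h6 ▸ isAlgebraic_algebraMap _, ?_⟩
    intro z hz
    rw [h6, minpoly.eq_X_sub_C, map_sub, aeval_X, aeval_C, sub_eq_zero] at hz
    rw [hz]
    have h9 : (0 : ℝ) < q := by exact_mod_cast Nat.pos_of_ne_zero hq0
    push_cast
    rw [norm_pow, norm_inv, Complex.norm_natCast]
    have h10 : (-2 * (j : ℝ)) / 2 = -(j : ℝ) := by ring
    rw [h10, Real.rpow_neg h9.le, Real.rpow_natCast, inv_pow]

end Pure

end Objects

end Pool.Agent.H12
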