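import Mathlib

open Polynomial

namespace Pool.Agent.H12

/-- An `ℓ`-adic integer congruent to `1` modulo `ℓ ^ 3` is an `ℓ`-th power. -/
theorem exists_root_of_one_mod {ℓ : ℕ} [Fact ℓ.Prime] (u : ℤ_[ℓ])
    (hu : u - 1 ∈ (Ideal.span {(ℓ : ℤ_[ℓ]) ^ 3} : Ideal ℤ_[ℓ])) :
    ∃ w : ℤ_[ℓ]ˣ, (w : ℤ_[ℓ]) ^ ℓ = u := by
  have hp : (1 : ℝ) < ℓ := by exact_mod_cast (Fact.out : ℓ.Prime).one_lt
  have hnorm : ‖u - 1‖ ≤ (ℓ : ℝ) ^ (-(3 : ℕ) : ℤ) := (PadicInt.norm_le_pow_iff_mem_span_pow _ 3).mpr hu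
  have h := hensels_lemma (p := ℓ) (F := (X ^ ℓ - C u : ℤ_[ℓ][X])) (a := (1 : ℤ_[ℓ])) (by
    simp only [map_sub, map_pow, aeval_X, one_pow, aeval_C, Algebra.algebraMap_self,
      RingHom.id_apply, derivative_X_pow, derivative_C, sub_zero, map_mul,
      map_natCast, mul_one]
    rw [norm_sub_rev, PadicInt.norm_p]
    refine lt_of_le_of_lt hnorm ?_
    rw [← zpow_neg_one, ← zpow_natCast, ← zpow_mul]
    exact zpow_lt_zpow_right₀ hp (by norm_num))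
  obtain ⟨z, hz, -⟩ := h
  simp only [map_sub, map_pow, aeval_X, aeval_C, Algebra.algebraMap_self, RingHom.id_apply,
    sub_eq_zero] at hz
  have hu1 : IsUnit u := by
    rw [PadicInt.isUnit_iff]
    have h1 : ‖u - 1‖ < 1 := lt_of_le_of_lt hnorm (zpow_lt_one_of_neg₀ hp (by norm_num))
    have h2 : u = (u - 1) + 1 := by ring
    rw [h2]
    have h3 : ‖(1 : ℤ_[ℓ])‖ = 1 := norm_one
    rw [PadicInt.norm_add_eq_max_of_ne (by rw [h3]; exact h1.ne), h3, max_eq_right h1.le]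
  have hz1 : IsUnit z := by
    rw [← hz] at hu1
    exact (isUnit_pow_iff (Fact.out : ℓ.Prime).ne_zero).mp hu1
  exact ⟨hz1.unit, by simpa using hz⟩

/-- In `F_p`, with `ℓ ^ (i + 1) ∣ p - 1`, any class can be multiplied by an `ℓ ^ i`-th power
so as not to be an `ℓ ^ (i + 1)`-th power. -/
theorem exists_nonpower {ℓ p i : ℕ} [Fact ℓ.Prime] [Fact p.Prime]
    (hdvd : ℓ ^ (i + 1) ∣ p - 1) (b : ZMod p) (hb : b ≠ 0) :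
    ∃ d : ZMod p, d ≠ 0 ∧ ∀ x : ZMod p, x ^ ℓ ^ (i + 1) ≠ b * d ^ ℓ ^ i := by
  by_cases h : ∀ x : ZMod p, x ^ ℓ ^ (i + 1) ≠ b
  · exact ⟨1, one_ne_zero, by simpa using h⟩
  · push Not at h
    obtain ⟨x, hx⟩ := h
    obtain ⟨g, hg⟩ := IsCyclic.exists_generator (α := (ZMod p)ˣ)
    have hord : orderOf g = p - 1 := by
      rw [orderOf_eq_card_of_forall_mem_zpowers hg, Nat.card_eq_fintype_card,
        ZMod.card_units_eq_totient, Nat.totient_prime Fact.out]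
    refine ⟨g, g.ne_zero, ?_⟩
    intro y hy
    have hx0 : x ≠ 0 := by
      rintro rfl
      rw [zero_pow (pow_ne_zero _ (Fact.out : ℓ.Prime).ne_zero)] at hx
      exact hb hx.symm
    have hy0 : y ≠ 0 := by
      rintro rfl
      rw [zero_pow (pow_ne_zero _ (Fact.out : ℓ.Prime).ne_zero)] at hy
      exact mul_ne_zero hb (pow_ne_zero _ g.ne_zero) hy.symm
    obtain ⟨k, hk⟩ := hdvd
    have h1 : (y / x) ^ ℓ ^ (i + 1) = (g : ZMod p) ^ ℓ ^ i := by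
      rw [div_pow, hy, hx, mul_div_assoc, mul_comm, div_mul_cancel₀]
      exact hb
    have h2 : (g : ZMod p) ^ (ℓ ^ i * k) = 1 := by
      rw [pow_mul, ← h1, ← pow_mul, ← hk]
      exact ZMod.pow_card_sub_one_eq_one (div_ne_zero hy0 hx0)
    have h3 : g ^ (ℓ ^ i * k) = 1 := Units.ext (by simpa using h2)
    have h4 := orderOf_dvd_of_pow_eq_one h3
    rw [hord, hk] at h4
    have hk0 : 0 < k := by
      rcases Nat.eq_zero_or_pos k with h | h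
      · rw [h, mul_zero] at hk
        have := (Fact.out : p.Prime).two_le
        omega
      · exact h
    have h5 := Nat.le_of_dvd (Nat.mul_pos (pow_pos (Fact.out : ℓ.Prime).pos _) hk0) h4
    have h6 : ℓ ^ (i + 1) ≤ ℓ ^ i := Nat.le_of_mul_le_mul_right h5 hk0
    have h7 : ℓ ^ i < ℓ ^ (i + 1) := Nat.pow_lt_pow_right (Fact.out : ℓ.Prime).one_lt (Nat.lt_succ_self i)
    omega

/-- One step of the construction. -/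
theorem step (ℓ : ℕ) [Fact ℓ.Prime] (i A B Q : ℕ) (hA : ∃ y : ℤ_[ℓ]ˣ, (y : ℤ_[ℓ]) ^ ℓ ^ i = A)
    (hB : ∃ y : ℤ_[ℓ]ˣ, (y : ℤ_[ℓ]) ^ ℓ ^ i = B) (hA0 : 0 < A) (hB0 : 0 < B) (hQ0 : 0 < Q)
    (hQ : ℓ.Coprime Q) :
    ∃ p m c : ℕ, p.Prime ∧ p ≡ 1 [MOD ℓ ^ (3 * i + 3)] ∧ ¬ p ∣ A ∧ ¬ p ∣ B ∧ ℓ.Coprime p ∧
      0 < m ∧ 0 < c ∧ (∃ s, m = p * s ∧ ¬ p ∣ s) ∧ m.Coprime Q ∧ c.Coprime (Q * p) ∧
      (∀ x : ZMod p, x ^ ℓ ^ (i + 1) ≠ (B * c ^ ℓ ^ i : ℕ)) ∧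
      (∃ y : ℤ_[ℓ]ˣ, (y : ℤ_[ℓ]) ^ ℓ ^ (i + 1) = (A * m ^ ℓ ^ i : ℕ)) ∧
      (∃ y : ℤ_[ℓ]ˣ, (y : ℤ_[ℓ]) ^ ℓ ^ (i + 1) = (B * c ^ ℓ ^ i : ℕ)) := by
  have hℓ : ℓ.Prime := Fact.out
  obtain ⟨p, hp, hpgt, hpmod⟩ := Nat.exists_prime_gt_modEq_one (k := ℓ ^ (3 * i + 3))
    (A * B * Q * ℓ) (pow_ne_zero _ hℓ.ne_zero)
  have : Fact p.Prime := ⟨hp⟩
  have hpos : ∀ N, 0 < N → N ∣ A * B * Q * ℓ → ¬ p ∣ N := by
    intro N hN hdvd hp'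
    have h1 := Nat.le_of_dvd hN hp'
    have h2 := Nat.le_of_dvd (by positivity [hℓ.pos]) hdvd
    omega
  have hpA : ¬ p ∣ A := hpos A hA0 ⟨B * Q * ℓ, by ring⟩
  have hpB : ¬ p ∣ B := hpos B hB0 ⟨A * Q * ℓ, by ring⟩
  have hpQ : ¬ p ∣ Q := hpos Q hQ0 ⟨A * B * ℓ, by ring⟩
  have hpℓ : ¬ p ∣ ℓ := hpos ℓ hℓ.pos ⟨A * B * Q, by ring⟩
  have hcopℓp : ℓ.Coprime p := ((Nat.Prime.coprime_iff_not_dvd hp).mpr hpℓ).symm
  have hcopQp : Q.Coprime p := ((Nat.Prime.coprime_iff_not_dvd hp).mpr hpQ).symm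
  have hmodℓ : (ℓ ^ 3).Coprime (Q * p) := Nat.Coprime.pow_left 3 (Nat.Coprime.mul_right hQ hcopℓp)
  have hpmod3 : p ≡ 1 [MOD ℓ ^ 3] := hpmod.of_dvd (pow_dvd_pow _ (by omega))
  have hdvd : ℓ ^ (i + 1) ∣ p - 1 := by
    have h1 : ℓ ^ (3 * i + 3) ∣ p - 1 := (Nat.modEq_iff_dvd' hp.one_lt.le).mp hpmod.symm
    exact (pow_dvd_pow _ (by omega)).trans h1
  have cast_mod : ∀ a b : ℕ, a ≡ b [MOD ℓ ^ 3] →
      ((a : ℤ_[ℓ]) - b) ∈ (Ideal.span {(ℓ : ℤ_[ℓ]) ^ 3} : Ideal ℤ_[ℓ]) := by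
    intro a b hab
    rw [Ideal.mem_span_singleton]
    have h1 : ((ℓ ^ 3 : ℕ) : ℤ) ∣ (a : ℤ) - b := (Nat.modEq_iff_dvd.mp hab.symm)
    obtain ⟨k, hk⟩ := h1
    refine ⟨(k : ℤ_[ℓ]), ?_⟩
    have := congrArg (Int.cast : ℤ → ℤ_[ℓ]) hk
    push_cast at this
    exact this
  -- a root exists as soon as `s ≡ y⁻¹`
  have root : ∀ (N s : ℕ) (y : ℤ_[ℓ]ˣ), (y : ℤ_[ℓ]) ^ ℓ ^ i = N →
      s ≡ ((y⁻¹ : ℤ_[ℓ]ˣ) : ℤ_[ℓ]).appr 3 [MOD ℓ ^ 3] →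
      ∃ w : ℤ_[ℓ]ˣ, (w : ℤ_[ℓ]) ^ ℓ ^ (i + 1) = (N * s ^ ℓ ^ i : ℕ) := by
    intro N s y hy hs
    have h1 := PadicInt.appr_spec 3 ((y⁻¹ : ℤ_[ℓ]ˣ) : ℤ_[ℓ])
    have h2 := cast_mod _ _ hs
    have h3 : (y : ℤ_[ℓ]) * s - 1 ∈ (Ideal.span {(ℓ : ℤ_[ℓ]) ^ 3} : Ideal ℤ_[ℓ]) := by
      have h4 := Ideal.mul_mem_left _ (y : ℤ_[ℓ]) (Ideal.sub_mem _ h2 h1)
      have h5 : (y : ℤ_[ℓ]) * (((s : ℤ_[ℓ]) - (((y⁻¹ : ℤ_[ℓ]ˣ) : ℤ_[ℓ]).appr 3 : ℕ)) -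
          (((y⁻¹ : ℤ_[ℓ]ˣ) : ℤ_[ℓ]) - (((y⁻¹ : ℤ_[ℓ]ˣ) : ℤ_[ℓ]).appr 3 : ℕ))) =
          (y : ℤ_[ℓ]) * s - 1 := by
        have h6 : (y : ℤ_[ℓ]) * ((y⁻¹ : ℤ_[ℓ]ˣ) : ℤ_[ℓ]) = 1 := Units.mul_inv y
        linear_combination (-1 : ℤ_[ℓ]) * h6
      rwa [h5] at h4
    obtain ⟨w, hw⟩ := exists_root_of_one_mod _ h3
    refine ⟨w, ?_⟩
    rw [pow_succ', pow_mul, hw, mul_pow, hy]
    push_cast
    ring
  obtain ⟨yA, hyA⟩ := hA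
  obtain ⟨yB, hyB⟩ := hB
  -- choose `s`
  obtain ⟨s, hs1, hs2⟩ := Nat.chineseRemainder hmodℓ (((yA⁻¹ : ℤ_[ℓ]ˣ) : ℤ_[ℓ]).appr 3) 1
  have hsQ : s.Coprime (Q * p) := by
    have h1 : Nat.gcd s (Q * p) = Nat.gcd 1 (Q * p) := hs2.gcd_eq
    rw [Nat.Coprime, h1, Nat.gcd_one_left]
  have hs0 : 0 < s := by
    rcases Nat.eq_zero_or_pos s with h | h
    · rw [h, Nat.Coprime, Nat.gcd_zero_left] at hsQ
      have h3 : p ∣ 1 := ⟨Q, by rw [← hsQ]; ring⟩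
      exact absurd (Nat.dvd_one.mp h3) hp.one_lt.ne'
    · exact h
  have hps : ¬ p ∣ s := by
    have h1 : s.Coprime p := Nat.Coprime.coprime_mul_left_right hsQ
    exact (Nat.Prime.coprime_iff_not_dvd hp).mp h1.symm
  -- choose `c`
  have hbne : ((B : ℕ) : ZMod p) ≠ 0 := by
    rw [Ne, ZMod.natCast_eq_zero_iff]
    exact hpB
  obtain ⟨d, hd0, hd⟩ := exists_nonpower (ℓ := ℓ) (i := i) hdvd ((B : ℕ) : ZMod p) hbne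
  obtain ⟨x, hx1, hx2⟩ := Nat.chineseRemainder hcopQp 1 d.val
  obtain ⟨c, hc1, hc2⟩ := Nat.chineseRemainder hmodℓ (((yB⁻¹ : ℤ_[ℓ]ˣ) : ℤ_[ℓ]).appr 3) x
  have hcQ : c ≡ 1 [MOD Q] := (hc2.of_dvd (Dvd.intro _ rfl)).trans hx1
  have hcp : c ≡ d.val [MOD p] := (hc2.of_dvd (Dvd.intro_left _ rfl)).trans hx2
  have hcd : ((c : ℕ) : ZMod p) = d := by
    have := (ZMod.natCast_eq_natCast_iff c d.val p).mpr hcp
    rw [this, ZMod.natCast_zmod_val]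
  have hpc : ¬ p ∣ c := by
    rw [← ZMod.natCast_eq_zero_iff, hcd]
    exact hd0
  have hcQ' : c.Coprime Q := by
    have h1 : Nat.gcd c Q = Nat.gcd 1 Q := hcQ.gcd_eq
    rw [Nat.Coprime, h1, Nat.gcd_one_left]
  refine ⟨p, p * s, c, hp, hpmod, hpA, hpB, hcopℓp, Nat.mul_pos hp.pos hs0, ?_, ⟨s, rfl, hps⟩,
    ?_, ?_, ?_, ?_, ?_⟩
  · rcases Nat.eq_zero_or_pos c with h | h
    · exact absurd (h ▸ dvd_zero p) hpc
    · exact h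
  · exact Nat.Coprime.mul_left hcopQp.symm (Nat.Coprime.coprime_mul_right_right hsQ)
  · exact Nat.Coprime.mul_right hcQ' ((Nat.Prime.coprime_iff_not_dvd hp).mpr hpc).symm
  · intro x
    have := hd x
    push_cast
    rw [hcd]
    exact this
  · refine root A (p * s) yA hyA ?_
    have : p * s ≡ 1 * (((yA⁻¹ : ℤ_[ℓ]ˣ) : ℤ_[ℓ]).appr 3) [MOD ℓ ^ 3] := hpmod3.mul hs1
    rwa [one_mul] at this
  · exact root B c yB hyB hc1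

/-- The sequences used in the counterexample. -/
theorem exists_seq (ℓ : ℕ) [Fact ℓ.Prime] :
    ∃ A B p m c : ℕ → ℕ, A 0 = 1 ∧ B 0 = 1 ∧
      (∀ i, A (i + 1) = A i * m i ^ ℓ ^ i) ∧ (∀ i, B (i + 1) = B i * c i ^ ℓ ^ i) ∧
      (∀ i, 0 < m i) ∧ (∀ i, 0 < c i) ∧
      (∀ i, (p i).Prime) ∧ (∀ i, p i ≡ 1 [MOD ℓ ^ (3 * i + 3)]) ∧ (∀ i, ℓ.Coprime (p i)) ∧
      (∀ i n, i < n → ∃ A', A n = p i ^ ℓ ^ i * A' ∧ ¬ p i ∣ A') ∧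
      (∀ i n, ¬ p i ∣ B n) ∧
      (∀ i n, i < n → ∃ w, B n = B (i + 1) * w ^ ℓ ^ (i + 1) ∧ ¬ p i ∣ w) ∧
      (∀ i, ∀ x : ZMod (p i), x ^ ℓ ^ (i + 1) ≠ (B (i + 1) : ℕ)) ∧
      (∀ i, ∃ y : ℤ_[ℓ]ˣ, (y : ℤ_[ℓ]) ^ ℓ ^ i = A i) ∧
      (∀ i, ∃ y : ℤ_[ℓ]ˣ, (y : ℤ_[ℓ]) ^ ℓ ^ i = B i) := by
  classical
  have hℓ : ℓ.Prime := Fact.out
  -- states
  let Inv : ℕ → ℕ × ℕ × ℕ → Prop := fun i s =>
    (∃ y : ℤ_[ℓ]ˣ, (y : ℤ_[ℓ]) ^ ℓ ^ i = s.1) ∧ (∃ y : ℤ_[ℓ]ˣ, (y : ℤ_[ℓ]) ^ ℓ ^ i = s.2.1) ∧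
    0 < s.1 ∧ 0 < s.2.1 ∧ 0 < s.2.2 ∧ ℓ.Coprime s.2.2
  let Rel : ℕ → ℕ × ℕ × ℕ → ℕ × ℕ × ℕ → Prop := fun i s t =>
    t.1.Prime ∧ t.1 ≡ 1 [MOD ℓ ^ (3 * i + 3)] ∧ ¬ t.1 ∣ s.1 ∧ ¬ t.1 ∣ s.2.1 ∧ ℓ.Coprime t.1 ∧
      0 < t.2.1 ∧ 0 < t.2.2 ∧ (∃ r, t.2.1 = t.1 * r ∧ ¬ t.1 ∣ r) ∧ t.2.1.Coprime s.2.2 ∧
      t.2.2.Coprime (s.2.2 * t.1) ∧
      (∀ x : ZMod t.1, x ^ ℓ ^ (i + 1) ≠ (s.2.1 * t.2.2 ^ ℓ ^ i : ℕ)) ∧
      Inv (i + 1) (s.1 * t.2.1 ^ ℓ ^ i, s.2.1 * t.2.2 ^ ℓ ^ i, s.2.2 * t.1)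
  have hstep : ∀ i (s : {s // Inv i s}), ∃ t, Rel i s.1 t := by
    rintro i ⟨⟨A, B, Q⟩, hA, hB, hA0, hB0, hQ0, hQ⟩
    obtain ⟨p, m, c, h1, h2, h3, h4, h5, h6, h7, h8, h9, h10, h11, h12, h13⟩ :=
      step ℓ i A B Q hA hB hA0 hB0 hQ0 hQ
    exact ⟨(p, m, c), h1, h2, h3, h4, h5, h6, h7, h8, h9, h10, h11, h12, h13,
      Nat.mul_pos hA0 (pow_pos h6 _), Nat.mul_pos hB0 (pow_pos h7 _), Nat.mul_pos hQ0 h1.pos,
      Nat.Coprime.mul_right hQ h5⟩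
  choose T hT using hstep
  have hinit : Inv 0 (1, 1, 1) :=
    ⟨⟨1, by simp⟩, ⟨1, by simp⟩, Nat.one_pos, Nat.one_pos, Nat.one_pos, Nat.coprime_one_right _⟩
  let S : ∀ i, {s // Inv i s} := fun i => Nat.rec ⟨(1, 1, 1), hinit⟩
    (fun i s => ⟨(s.1.1 * (T i s).2.1 ^ ℓ ^ i, s.1.2.1 * (T i s).2.2 ^ ℓ ^ i, s.1.2.2 * (T i s).1),
      (hT i s).2.2.2.2.2.2.2.2.2.2.2⟩) i
  let A : ℕ → ℕ := fun i => (S i).1.1
  let B : ℕ → ℕ := fun i => (S i).1.2.1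
  let Q : ℕ → ℕ := fun i => (S i).1.2.2
  let p : ℕ → ℕ := fun i => (T i (S i)).1
  let m : ℕ → ℕ := fun i => (T i (S i)).2.1
  let c : ℕ → ℕ := fun i => (T i (S i)).2.2
  have hAs : ∀ i, A (i + 1) = A i * m i ^ ℓ ^ i := fun i => rfl
  have hBs : ∀ i, B (i + 1) = B i * c i ^ ℓ ^ i := fun i => rfl
  have hQs : ∀ i, Q (i + 1) = Q i * p i := fun i => rfl
  have hp : ∀ i, (p i).Prime := fun i => (hT i (S i)).1
  have hpQ : ∀ i n, i < n → p i ∣ Q n := by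
    intro i n hin
    induction n, hin using Nat.le_induction with
    | base => rw [hQs]; exact Dvd.intro_left _ rfl
    | succ n hn ih => rw [hQs]; exact ih.mul_right _
  have hpm : ∀ i n, i < n → ¬ p i ∣ m n := by
    intro i n hin h
    have h1 : (m n).Coprime (Q n) := (hT n (S n)).2.2.2.2.2.2.2.2.1
    have h2 := Nat.dvd_gcd h (hpQ i n hin)
    rw [Nat.coprime_iff_gcd_eq_one.mp h1] at h2
    exact (hp i).one_lt.ne' (Nat.dvd_one.mp h2)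
  have hpc : ∀ i n, i ≤ n → ¬ p i ∣ c n := by
    intro i n hin h
    have h1 : (c n).Coprime (Q n * p n) := (hT n (S n)).2.2.2.2.2.2.2.2.2.1
    have h2 : p i ∣ Q n * p n := by
      rcases hin.eq_or_lt with h3 | h3
      · subst h3; exact Dvd.intro_left _ rfl
      · exact (hpQ i n h3).mul_right _
    have h3 := Nat.dvd_gcd h h2
    rw [Nat.coprime_iff_gcd_eq_one.mp h1] at h3
    exact (hp i).one_lt.ne' (Nat.dvd_one.mp h3)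
  have hBdvd : ∀ i n, i ≤ n → B i ∣ B n := by
    intro i n hin
    induction n, hin using Nat.le_induction with
    | base => exact dvd_rfl
    | succ n hn ih => rw [hBs]; exact ih.mul_right _
  have hpB : ∀ i n, ¬ p i ∣ B n := by
    intro i n
    rcases le_or_gt n i with h | h
    · intro h1
      exact (hT i (S i)).2.2.2.1 (h1.trans (hBdvd n i h))
    · have hle : i ≤ n := h.le
      induction n, hle using Nat.le_induction with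
      | base => exact absurd h (lt_irrefl _)
      | succ n hn ih =>
        rw [hBs]
        intro h2
        rcases (hp i).dvd_mul.mp h2 with h3 | h3
        · rcases hn.eq_or_lt with h4 | h4
          · subst h4
            exact (hT i (S i)).2.2.2.1 h3
          · exact ih h4 h3
        · exact hpc i n hn ((hp i).dvd_of_dvd_pow h3)
  refine ⟨A, B, p, m, c, rfl, rfl, hAs, hBs, fun i => (hT i (S i)).2.2.2.2.2.1,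
    fun i => (hT i (S i)).2.2.2.2.2.2.1, hp, fun i => (hT i (S i)).2.1,
    fun i => (hT i (S i)).2.2.2.2.1, ?_, hpB, ?_, fun i => (hT i (S i)).2.2.2.2.2.2.2.2.2.2.1,
    fun i => (S i).2.1, fun i => (S i).2.2.1⟩
  · intro i n hin
    induction n, hin using Nat.le_induction with
    | base =>
      obtain ⟨r, hr1, hr2⟩ := (hT i (S i)).2.2.2.2.2.2.2.1
      refine ⟨A i * r ^ ℓ ^ i, ?_, ?_⟩
      · have hr1' : m i = p i * r := hr1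
        rw [hAs, hr1', mul_pow]
        ring
      · intro h1
        rcases (hp i).dvd_mul.mp h1 with h2 | h2
        · exact (hT i (S i)).2.2.1 h2
        · exact hr2 ((hp i).dvd_of_dvd_pow h2)
    | succ n hn ih =>
      obtain ⟨A', hA1, hA2⟩ := ih
      refine ⟨A' * m n ^ ℓ ^ n, ?_, ?_⟩
      · rw [hAs, hA1]; ring
      · intro h1
        rcases (hp i).dvd_mul.mp h1 with h2 | h2
        · exact hA2 h2
        · exact hpm i n hn ((hp i).dvd_of_dvd_pow h2)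
  · intro i n hin
    induction n, hin using Nat.le_induction with
    | base =>
      refine ⟨1, by simp, ?_⟩
      intro h
      exact (hp i).one_lt.ne' (Nat.dvd_one.mp h)
    | succ n hn ih =>
      obtain ⟨w, hw1, hw2⟩ := ih
      have hn' : i + 1 ≤ n := hn
      refine ⟨w * c n ^ ℓ ^ (n - (i + 1)), ?_, ?_⟩
      · rw [hBs, hw1, mul_pow, ← pow_mul, ← pow_add, Nat.sub_add_cancel hn']
        ring
      · intro h1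
        rcases (hp i).dvd_mul.mp h1 with h2 | h2
        · exact hw2 h2
        · exact hpc i n (by omega) ((hp i).dvd_of_dvd_pow h2)

end Pool.Agent.H12
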