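import Mathlib
import Pool.Agent.H12.Kummer

open Polynomial

namespace Pool.Agent.H12

section LocalEll

variable {k : Type} [Field k] [CharZero k] {ℓ : ℕ} [Fact ℓ.Prime]

/-- The cyclotomic characters are compatible. -/
theorem cyc_compat (ι : AlgebraicClosure k →+* PadicAlgCl ℓ)
    (g : AlgebraicClosure k ≃ₐ[k] AlgebraicClosure k) (σ : PadicAlgCl ℓ ≃ₐ[ℚ_[ℓ]] PadicAlgCl ℓ)
    (h : ∀ x, ι (g x) = σ (ι x)) : cyc k ℓ g = cyc ℚ_[ℓ] ℓ σ := by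
  apply Units.ext
  apply PadicInt.ext_of_toZModPow.mp
  intro n
  have hℓ : ℓ.Prime := Fact.out
  have : NeZero (ℓ ^ n) := ⟨pow_ne_zero _ hℓ.ne_zero⟩
  obtain ⟨ζ, hζ⟩ := HasEnoughRootsOfUnity.exists_primitiveRoot (AlgebraicClosure k) (ℓ ^ n)
  have hζι : IsPrimitiveRoot (ι ζ) (ℓ ^ n) := hζ.map_of_injective ι.injective
  have h1 := cyc_spec k ℓ g n ζ hζ.pow_eq_one
  have h2 := cyc_spec ℚ_[ℓ] ℓ σ n (ι ζ) hζι.pow_eq_one
  have h3 := h ζ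
  rw [h1, h2, map_pow] at h3
  exact ZMod.val_injective _ (hζι.pow_inj (ZMod.val_lt _) (ZMod.val_lt _) h3)

/-- The Kummer cocycle splits locally at `ℓ`. -/
theorem local_split (ζ : ℕ → AlgebraicClosure k) (hζ : ∀ n, IsPrimitiveRoot (ζ n) (ℓ ^ n))
    (A : ℕ → ℕ) (hApos : ∀ i, 0 < A i)
    (hAloc : ∀ i, ∃ y : ℤ_[ℓ]ˣ, (y : ℤ_[ℓ]) ^ ℓ ^ i = A i)
    (u : ℕ → AlgebraicClosure k) (hA : ∀ n, u n ^ ℓ ^ n = A n)
    (κ : (AlgebraicClosure k ≃ₐ[k] AlgebraicClosure k) → ℤ_[ℓ])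
    (hκ : ∀ n g, g (u n) = ζ n ^ (PadicInt.toZModPow n (κ g)).val * u n)
    (ι : AlgebraicClosure k →+* PadicAlgCl ℓ) :
    ∃ c : ℤ_[ℓ], ∀ (g : AlgebraicClosure k ≃ₐ[k] AlgebraicClosure k)
      (σ : PadicAlgCl ℓ ≃ₐ[ℚ_[ℓ]] PadicAlgCl ℓ), (∀ x, ι (g x) = σ (ι x)) →
      κ g = ((cyc k ℓ g : ℤ_[ℓ]) - 1) * c := by
  have hℓ : ℓ.Prime := Fact.out
  have hu0 : ∀ n, u n ≠ 0 := by
    intro n h
    have := hA n
    rw [h, zero_pow (pow_ne_zero _ hℓ.ne_zero)] at this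
    exact (Nat.cast_ne_zero.mpr (hApos n).ne') this.symm
  choose y hy using hAloc
  let Y : ℕ → PadicAlgCl ℓ := fun n => algebraMap ℚ_[ℓ] (PadicAlgCl ℓ) ((y n : ℤ_[ℓ]) : ℚ_[ℓ])
  have hYpow : ∀ n, Y n ^ ℓ ^ n = ((A n : ℕ) : PadicAlgCl ℓ) := by
    intro n
    simp only [Y]
    rw [← map_pow, ← PadicInt.coe_pow, hy n, PadicInt.coe_natCast, map_natCast]
  have hY0 : ∀ n, Y n ≠ 0 := by
    intro n h
    have := hYpow n
    rw [h, zero_pow (pow_ne_zero _ hℓ.ne_zero)] at this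
    exact (Nat.cast_ne_zero.mpr (hApos n).ne') this.symm
  have hζι : ∀ n, IsPrimitiveRoot (ι (ζ n)) (ℓ ^ n) := fun n =>
    (hζ n).map_of_injective ι.injective
  have hex : ∀ n, ∃ c : ℕ, ι (u n) = Y n * ι (ζ n) ^ c := by
    intro n
    have : NeZero (ℓ ^ n) := ⟨pow_ne_zero _ hℓ.ne_zero⟩
    have h1 : (ι (u n) / Y n) ^ ℓ ^ n = 1 := by
      rw [div_pow, ← map_pow, hA, hYpow, map_natCast, div_self]
      exact Nat.cast_ne_zero.mpr (hApos n).ne'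
    obtain ⟨i, _, hi2⟩ := (hζι n).eq_pow_of_pow_eq_one h1
    exact ⟨i, by rw [hi2, mul_div_cancel₀ _ (hY0 n)]⟩
  choose c hc using hex
  have hmod : ∀ n (g : AlgebraicClosure k ≃ₐ[k] AlgebraicClosure k)
      (σ : PadicAlgCl ℓ ≃ₐ[ℚ_[ℓ]] PadicAlgCl ℓ), (∀ x, ι (g x) = σ (ι x)) →
      PadicInt.toZModPow n (κ g - ((cyc k ℓ g : ℤ_[ℓ]) - 1) * (c n : ℤ_[ℓ])) = 0 := by
    intro n g σ hσ
    have hnz : NeZero (ℓ ^ n) := ⟨pow_ne_zero _ hℓ.ne_zero⟩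
    have h1 : ι (g (u n)) = σ (ι (u n)) := hσ _
    rw [hc n, map_mul, map_pow, ← hσ (ζ n), cyc_spec k ℓ g n (ζ n) (hζ n).pow_eq_one, hκ n,
      map_mul, map_pow, map_pow, hc n] at h1
    have h2 : σ (Y n) = Y n := AlgEquiv.commutes _ _
    rw [h2] at h1
    have h3 : Y n * ι (ζ n) ^ ((PadicInt.toZModPow n (κ g)).val + c n) =
        Y n * ι (ζ n) ^ ((PadicInt.toZModPow n (cyc k ℓ g : ℤ_[ℓ])).val * c n) := by
      rw [pow_add, pow_mul, ← h1]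
      ring
    have h4 := mul_left_cancel₀ (hY0 n) h3
    rw [← pow_val_natCast _ (hζι n).pow_eq_one,
      ← pow_val_natCast _ (hζι n).pow_eq_one
        ((PadicInt.toZModPow n (cyc k ℓ g : ℤ_[ℓ])).val * c n)] at h4
    have h5 := ZMod.val_injective _ ((hζι n).pow_inj (ZMod.val_lt _) (ZMod.val_lt _) h4)
    push_cast at h5
    rw [ZMod.natCast_zmod_val, ZMod.natCast_zmod_val] at h5
    rw [map_sub, map_mul, map_sub, map_one, map_natCast]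
    linear_combination h5
  -- compactness
  obtain ⟨cc, _, w, hw, hlim⟩ := (isCompact_univ (X := ℤ_[ℓ])).tendsto_subseq
    (x := fun n => (c n : ℤ_[ℓ])) (fun _ => Set.mem_univ _)
  refine ⟨cc, fun g σ hσ => ?_⟩
  have h1 : Filter.Tendsto (fun n => κ g - ((cyc k ℓ g : ℤ_[ℓ]) - 1) * (c (w n) : ℤ_[ℓ]))
      Filter.atTop (nhds (κ g - ((cyc k ℓ g : ℤ_[ℓ]) - 1) * cc)) :=
    tendsto_const_nhds.sub (tendsto_const_nhds.mul hlim)
  have h2 : Filter.Tendsto (fun n => κ g - ((cyc k ℓ g : ℤ_[ℓ]) - 1) * (c (w n) : ℤ_[ℓ]))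
      Filter.atTop (nhds 0) := by
    rw [Metric.tendsto_atTop]
    intro ε hε
    obtain ⟨N, hN⟩ := PadicInt.exists_pow_neg_lt ℓ hε
    refine ⟨N, fun n hn => ?_⟩
    rw [dist_eq_norm, sub_zero]
    have h3 := hmod (w n) g σ hσ
    rw [← RingHom.mem_ker, PadicInt.ker_toZModPow, ← PadicInt.norm_le_pow_iff_mem_span_pow] at h3
    refine lt_of_le_of_lt (h3.trans ?_) hN
    have h4 : (1 : ℝ) ≤ ℓ := by exact_mod_cast hℓ.one_lt.le
    exact zpow_le_zpow_right₀ h4 (by have := hw.id_le n; simp only [id] at this; omega)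
  have h3 := tendsto_nhds_unique h1 h2
  exact sub_eq_zero.mp h3

end LocalEll

end Pool.Agent.H12
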