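import Mathlib
import Pool.Agent.H12.Objects
import Pool.Agent.H12.LocalEll

open Polynomial TensorProduct

namespace Pool.Agent.H12

section InCat

variable {k : Type} [Field k] {ℓ : ℕ} [Fact ℓ.Prime]

theorem zero_pure [NumberField k] (m : ℤ) : IsPure (zeroRep k ℓ) m := by
  refine ⟨Rloc k ℓ, Rloc_fg, Rloc_frac, Rloc_isUnit, fun 𝔓 h𝔓 => ⟨fun σ _ _ => rfl, ?_⟩⟩
  intro σ hσ μ hμ
  exfalso
  obtain ⟨v, hv⟩ := hμ.exists_hasEigenvector
  apply hv.2
  have h0 : ∀ w : AlgebraicClosure ℚ_[ℓ] ⊗[ℚ_[ℓ]] (zeroRep k ℓ).V, w = 0 := by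
    intro w
    induction w using TensorProduct.induction_on with
    | zero => rfl
    | tmul a b =>
      have : b = 0 := rfl
      rw [this, TensorProduct.tmul_zero]
    | add a b ha hb => rw [ha, hb, add_zero]
  exact h0 v

/-- the zero quotient -/
theorem zero_quot (V : LRep k ℓ) (A B : Submodule ℚ_[ℓ] V.V) (h : A ≤ B) :
    IsQuot V A B (zeroRep k ℓ) :=
  ⟨0, fun _ => ⟨0, zero_mem _, rfl⟩, fun _ hv => ⟨fun _ => h hv, fun _ => rfl⟩,
    fun _ _ _ => rfl⟩

/-- a pure representation is mixed -/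
theorem mixed_of_pure [NumberField k] (V : LRep k ℓ) (a : ℤ) (hV : IsPure V a) : IsMixed V := by
  obtain ⟨W, hW1, hW2⟩ : ∃ W : ℤ → Submodule ℚ_[ℓ] V.V, (∀ m, m < a → W m = ⊥) ∧
      (∀ m, a ≤ m → W m = ⊤) :=
    ⟨fun m => if m < a then ⊥ else ⊤, fun m hm => if_pos hm, fun m hm => if_neg (by omega)⟩
  refine ⟨W, ?_, ⟨a - 1, hW1 _ (by omega)⟩, ⟨a, hW2 _ le_rfl⟩, ?_, ?_⟩
  · intro m n hmn
    rcases lt_or_ge m a with h | h
    · rw [hW1 m h]; exact bot_le
    · rw [hW2 n (by omega)]; exact le_top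
  · intro m g v hv
    rcases lt_or_ge m a with h | h
    · rw [hW1 m h, Submodule.mem_bot] at hv ⊢
      rw [hv]
      exact map_zero (V.ρ g)
    · rw [hW2 m h]; trivial
  · intro m
    rcases lt_trichotomy m a with hm | hm | hm
    · refine ⟨zeroRep k ℓ, zero_pure m, zero_quot V _ _ ?_⟩
      rw [hW1 m hm]; exact bot_le
    · subst hm
      refine ⟨V, hV, LinearMap.id, fun y => ⟨y, by rw [hW2 m le_rfl]; trivial, rfl⟩, ?_,
        fun _ _ _ => rfl⟩
      intro v _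
      rw [hW1 (m - 1) (by omega), Submodule.mem_bot]
      rfl
    · refine ⟨zeroRep k ℓ, zero_pure m, zero_quot V _ _ ?_⟩
      rw [hW2 (m - 1) (by omega)]; exact le_top

/-- an extension of a pure representation by a pure one of smaller weight is mixed -/
theorem mixed_of_ext [NumberField k] (V A B : LRep k ℓ) (a b : ℤ) (hab : a < b)
    (hA : IsPure A a) (hB : IsPure B b) (i : A.V →ₗ[ℚ_[ℓ]] V.V) (q : V.V →ₗ[ℚ_[ℓ]] B.V)
    (hi : ∀ g x, i (A.ρ g x) = V.ρ g (i x)) (hq : ∀ g x, q (V.ρ g x) = B.ρ g (q x))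
    (hinj : Function.Injective i) (hex : Function.Exact i q) (hsurj : Function.Surjective q) :
    IsMixed V := by
  obtain ⟨W, hW1, hW2, hW3⟩ : ∃ W : ℤ → Submodule ℚ_[ℓ] V.V, (∀ m, m < a → W m = ⊥) ∧
      (∀ m, a ≤ m → m < b → W m = LinearMap.range i) ∧ (∀ m, b ≤ m → W m = ⊤) := by
    refine ⟨fun m => if m < a then ⊥ else if m < b then LinearMap.range i else ⊤,
      fun m hm => if_pos hm, fun m hm hm' => ?_, fun m hm => ?_⟩
    · simp only
      rw [if_neg (by omega), if_pos hm']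
    · simp only
      rw [if_neg (by omega), if_neg (by omega)]
  have hmono : Monotone W := by
    intro m n hmn
    rcases lt_or_ge m a with h | h
    · rw [hW1 m h]; exact bot_le
    · rcases lt_or_ge n b with h' | h'
      · rw [hW2 m h (by omega), hW2 n (by omega) h']
      · rw [hW3 n h']; exact le_top
  refine ⟨W, hmono, ⟨a - 1, hW1 _ (by omega)⟩, ⟨b, hW3 _ le_rfl⟩, ?_, ?_⟩
  · intro m g v hv
    rcases lt_or_ge m a with h | h
    · rw [hW1 m h, Submodule.mem_bot] at hv ⊢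
      rw [hv]
      exact map_zero (V.ρ g)
    · rcases lt_or_ge m b with h' | h'
      · rw [hW2 m h h'] at hv ⊢
        obtain ⟨x, rfl⟩ := hv
        exact ⟨A.ρ g x, hi g x⟩
      · rw [hW3 m h']; trivial
  · intro m
    rcases lt_trichotomy m a with h | h | h
    · refine ⟨zeroRep k ℓ, zero_pure m, zero_quot V _ _ ?_⟩
      rw [hW1 m h]; exact bot_le
    · subst h
      obtain ⟨r, hr⟩ := i.exists_leftInverse_of_injective (LinearMap.ker_eq_bot.mpr hinj)
      have hr' : ∀ x, r (i x) = x := fun x => LinearMap.congr_fun hr x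
      refine ⟨A, hA, r, ?_, ?_, ?_⟩
      · intro x
        exact ⟨i x, by rw [hW2 m le_rfl hab]; exact ⟨x, rfl⟩, hr' x⟩
      · intro v hv
        rw [hW2 m le_rfl hab] at hv
        obtain ⟨x, rfl⟩ := hv
        rw [hW1 (m - 1) (by omega), Submodule.mem_bot, hr']
        constructor
        · intro h; rw [h, map_zero]
        · intro h; exact hinj (h.trans (map_zero i).symm)
      · intro g v hv
        rw [hW2 m le_rfl hab] at hv
        obtain ⟨x, rfl⟩ := hv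
        change r (V.ρ g (i x)) = A.ρ g (r (i x))
        rw [← hi, hr', hr']
    · rcases lt_trichotomy m b with h' | h' | h'
      · refine ⟨zeroRep k ℓ, zero_pure m, zero_quot V _ _ ?_⟩
        rw [hW2 (m - 1) (by omega) (by omega), hW2 m h.le h']
      · subst h'
        refine ⟨B, hB, q, ?_, ?_, ?_⟩
        · intro x
          obtain ⟨v, hv⟩ := hsurj x
          exact ⟨v, by rw [hW3 m le_rfl]; trivial, hv⟩
        · intro v _
          rw [hW2 (m - 1) (by omega) (by omega)]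
          exact hex v
        · intro g v _
          exact hq g v
      · refine ⟨zeroRep k ℓ, zero_pure m, zero_quot V _ _ ?_⟩
        rw [hW3 (m - 1) (by omega)]; exact le_top

theorem unit_pow_eigen {B K : Type*} [CommRing B] [Field K] [Algebra K B] (φ : B →ₐ[K] B)
    (t : Bˣ) (c : K) (hc : c ≠ 0) (h : φ t = algebraMap K B c * t) (n : ℕ) :
    φ ((t⁻¹ ^ n : Bˣ) : B) = algebraMap K B ((c ^ n)⁻¹) * ((t⁻¹ ^ n : Bˣ) : B) := by
  set T : B := ((t⁻¹ ^ n : Bˣ) : B) with hT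
  have h5 : (t : B) ^ n * T = 1 := by
    rw [hT, ← Units.val_pow_eq_pow_val, ← Units.val_mul, ← mul_pow, mul_inv_cancel, one_pow,
      Units.val_one]
  have h3 : φ T * (algebraMap K B (c ^ n) * (t : B) ^ n) = 1 := by
    have : φ ((t : B) ^ n * T) = 1 := by rw [h5, map_one]
    rw [map_mul, map_pow, h, mul_pow, ← map_pow] at this
    rw [mul_comm]
    exact this
  have h4 : algebraMap K B (c ^ n)⁻¹ * algebraMap K B (c ^ n) = 1 := by
    rw [← map_mul, inv_mul_cancel₀ (pow_ne_zero _ hc), map_one]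
  calc φ T = φ T * (algebraMap K B (c ^ n)⁻¹ * algebraMap K B (c ^ n)) *
        ((t : B) ^ n * T) := by rw [h4, h5, mul_one, mul_one]
    _ = (φ T * (algebraMap K B (c ^ n) * (t : B) ^ n)) *
        (algebraMap K B (c ^ n)⁻¹ * T) := by ring
    _ = _ := by rw [h3, one_mul]

variable [CharZero k]

/-- a representation that is a sum of Tate twists locally at `ℓ` is potentially semistable -/
theorem pst_of_local (V : LRep k ℓ) [NumberField k]
    (h : ∀ ι : AlgebraicClosure k →+* PadicAlgCl ℓ,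
      ∃ (v : Module.Basis (Fin (Module.finrank ℚ_[ℓ] V.V)) ℚ_[ℓ] V.V)
        (e : Fin (Module.finrank ℚ_[ℓ] V.V) → ℕ),
        ∀ (g : GG k) (σ : GalP ℓ), (∀ x, ι (g x) = σ (ι x)) →
          ∀ i, V.ρ g (v i) = chi k ℓ g ^ e i • v i) : IsPst V := by
  intro ι
  obtain ⟨v, e, hve⟩ := h ι
  obtain ⟨θ, hθ⟩ := Field.exists_primitive_element ℚ k
  refine ⟨IntermediateField.adjoin ℚ_[ℓ] {ι (algebraMap k _ θ)},
    IntermediateField.adjoin.finiteDimensional (Algebra.IsIntegral.isIntegral _), ?_, ?_⟩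
  · intro x
    have hx : x ∈ IntermediateField.adjoin ℚ {θ} := by rw [hθ]; trivial
    let f : k →+* PadicAlgCl ℓ := ι.comp (algebraMap k _)
    have h2 : ∀ y ∈ IntermediateField.adjoin ℚ {θ},
        f y ∈ IntermediateField.adjoin ℚ_[ℓ] {ι (algebraMap k _ θ)} := by
      intro y hy
      induction hy using IntermediateField.adjoin_induction with
      | mem y hy =>
        rw [Set.mem_singleton_iff.mp hy]
        exact IntermediateField.mem_adjoin_simple_self _ _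
      | algebraMap y =>
        have : f (algebraMap ℚ k y) = algebraMap ℚ_[ℓ] (PadicAlgCl ℓ) (y : ℚ_[ℓ]) := by
          simp
        rw [this]
        exact IntermediateField.algebraMap_mem _ _
      | add y z _ _ hy hz => rw [map_add]; exact add_mem hy hz
      | inv y _ hy => rw [map_inv₀]; exact inv_mem hy
      | mul y z _ _ hy hz => rw [map_mul]; exact mul_mem hy hz
    exact h2 x hx
  · have hbasis : ∃ b : Module.Basis (Fin (Module.finrank ℚ_[ℓ] V.V)) (Bst ℓ)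
        (Bst ℓ ⊗[ℚ_[ℓ]] V.V), ∀ i, b i = (((tSt : (Bst ℓ)ˣ)⁻¹ ^ e i : (Bst ℓ)ˣ) : Bst ℓ) ⊗ₜ v i := by
      refine ⟨(v.baseChange (Bst ℓ)).unitsSMul (fun i => (tSt : (Bst ℓ)ˣ)⁻¹ ^ e i), fun i => ?_⟩
      rw [Module.Basis.unitsSMul_apply, Module.Basis.baseChange_apply, Units.smul_def,
        TensorProduct.smul_tmul', smul_eq_mul, mul_one]
    obtain ⟨b, hb⟩ := hbasis
    refine ⟨b, ?_⟩
    intro σ _ g hg i
    have hχ : chi k ℓ g = ((cyc ℚ_[ℓ] ℓ σ : ℤ_[ℓ]) : ℚ_[ℓ]) := by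
      rw [chi, cyc_compat ι g σ hg]
    have hχ0 : ((cyc ℚ_[ℓ] ℓ σ : ℤ_[ℓ]) : ℚ_[ℓ]) ≠ 0 := by
      rw [← hχ]
      exact chi_ne_zero k ℓ g
    change TensorProduct.map (actBst σ).toLinearMap (V.ρ g) (b i) = (b i : Bst ℓ ⊗[ℚ_[ℓ]] V.V)
    rw [hb]
    set T : Bst ℓ := (((tSt : (Bst ℓ)ˣ)⁻¹ ^ e i : (Bst ℓ)ˣ) : Bst ℓ) with hT
    rw [TensorProduct.map_tmul, hve g σ hg, hχ]
    have h2 : actBst σ T = algebraMap ℚ_[ℓ] (Bst ℓ)
        ((((cyc ℚ_[ℓ] ℓ σ : ℤ_[ℓ]) : ℚ_[ℓ]) ^ e i)⁻¹) * T := by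
      have h3 := unit_pow_eigen (B := Bst ℓ) (K := ℚ_[ℓ]) (actBst σ) tSt
        ((cyc ℚ_[ℓ] ℓ σ : ℤ_[ℓ]) : ℚ_[ℓ]) hχ0 (actBst_t σ) (e i)
      exact h3
    change (actBst σ T) ⊗ₜ[ℚ_[ℓ]] _ = _
    rw [h2, TensorProduct.tmul_smul, ← Algebra.smul_def, ← TensorProduct.smul_tmul', smul_smul,
      mul_inv_cancel₀ (pow_ne_zero _ hχ0), one_smul]

end InCat

end Pool.Agent.H12
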