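import Mathlib
import Pool.Agent.H12.InCat

open Polynomial TensorProduct

namespace Pool.Agent.H12

section InCat2

variable {k : Type} [Field k] [NumberField k] {ℓ : ℕ} [Fact ℓ.Prime]

/-- `ℚ_ℓ(j)` is in the category. -/
theorem tate_inC (j : ℕ) : InC (tate k ℓ j) := by
  refine ⟨mixed_of_pure _ _ (tate_pure j), pst_of_local _ fun ι => ?_⟩
  have hfin : Module.finrank ℚ_[ℓ] (tate k ℓ j).V = 1 := Module.finrank_self ℚ_[ℓ]
  refine ⟨(Module.Basis.singleton (Fin 1) ℚ_[ℓ]).reindex (finCongr hfin.symm),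
    fun _ => j, fun g σ _ i => ?_⟩
  rw [tate_apply]
  rfl

/-- the basis `(1, 0), (-c, 1)` of `ℚ_ℓ²` -/
theorem exists_basis (c : ℚ_[ℓ]) : ∃ v : Module.Basis (Fin 2) ℚ_[ℓ] (ℚ_[ℓ] × ℚ_[ℓ]),
    v 0 = (1, 0) ∧ v 1 = (-c, 1) := by
  have hli : LinearIndependent ℚ_[ℓ] ![((1 : ℚ_[ℓ]), (0 : ℚ_[ℓ])), (-c, 1)] := by
    rw [LinearIndependent.pair_iff]
    intro s t hst
    have h2 : t = 0 := by simpa using congrArg Prod.snd hst
    have h1 : s = 0 := by simpa [h2] using congrArg Prod.fst hst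
    exact ⟨h1, h2⟩
  refine ⟨basisOfLinearIndependentOfCardEqFinrank hli (by simp), ?_, ?_⟩ <;> simp

/-- The Kummer extension is in the category. -/
theorem kum_inC (j : ℕ) (κ : GG k → ℤ_[ℓ])
    (hκ : ∀ g h, κ (g * h) = κ g + (cyc k ℓ g : ℤ_[ℓ]) * κ h) (hc : Continuous κ)
    (hloc : ∀ ι : AlgebraicClosure k →+* PadicAlgCl ℓ, ∃ c : ℤ_[ℓ],
      ∀ (g : GG k) (σ : GalP ℓ), (∀ x, ι (g x) = σ (ι x)) →
      κ g = ((cyc k ℓ g : ℤ_[ℓ]) - 1) * c) : InC (kum j κ hκ hc) := by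
  constructor
  · refine mixed_of_ext (kum j κ hκ hc) (tate k ℓ (j + 1)) (tate k ℓ j) (-2 * ((j + 1 : ℕ) : ℤ))
      (-2 * j) (by push_cast; omega) (tate_pure _) (tate_pure _)
      (LinearMap.inl ℚ_[ℓ] ℚ_[ℓ] ℚ_[ℓ]) (LinearMap.snd ℚ_[ℓ] ℚ_[ℓ] ℚ_[ℓ]) ?_ ?_ ?_ ?_ ?_
    · intro g (x : ℚ_[ℓ])
      rw [tate_apply]
      change ((chi k ℓ g ^ (j + 1) * x, (0 : ℚ_[ℓ])) : ℚ_[ℓ] × ℚ_[ℓ]) =
        (chi k ℓ g ^ (j + 1) * x + chi k ℓ g ^ j * (κ g : ℚ_[ℓ]) * 0, chi k ℓ g ^ j * 0)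
      rw [mul_zero, mul_zero, add_zero]
    · intro g x
      rfl
    · exact (LinearMap.inl_injective : Function.Injective (LinearMap.inl ℚ_[ℓ] ℚ_[ℓ] ℚ_[ℓ]))
    · intro (x : ℚ_[ℓ] × ℚ_[ℓ])
      constructor
      · intro h
        exact ⟨x.1, Prod.ext rfl (Eq.symm h)⟩
      · rintro ⟨y, rfl⟩
        rfl
    · exact (LinearMap.snd_surjective : Function.Surjective (LinearMap.snd ℚ_[ℓ] ℚ_[ℓ] ℚ_[ℓ]))
  · refine pst_of_local _ fun ι => ?_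
    obtain ⟨c, hcl⟩ := hloc ι
    have hfin : Module.finrank ℚ_[ℓ] (kum j κ hκ hc).V = 2 := by
      change Module.finrank ℚ_[ℓ] (ℚ_[ℓ] × ℚ_[ℓ]) = 2
      simp
    obtain ⟨v, hv0, hv1⟩ := exists_basis (c : ℚ_[ℓ])
    have hkey : ∀ (g : GG k) (σ : GalP ℓ), (∀ x, ι (g x) = σ (ι x)) → ∀ i : Fin 2,
        ((chi k ℓ g ^ (j + 1) * (v i).1 + chi k ℓ g ^ j * (κ g : ℚ_[ℓ]) * (v i).2,
          chi k ℓ g ^ j * (v i).2) : ℚ_[ℓ] × ℚ_[ℓ]) =
        (chi k ℓ g ^ ((![j + 1, j] : Fin 2 → ℕ) i) • (v i) : ℚ_[ℓ] × ℚ_[ℓ]) := by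
      intro g σ hσ i
      have h1 := hcl g σ hσ
      have h2 : (κ g : ℚ_[ℓ]) = (chi k ℓ g - 1) * c := by
        rw [h1]
        push_cast
        rfl
      fin_cases i
      · simp [hv0]
      · simp only [Fin.mk_one, hv1, Matrix.cons_val_one]
        rw [h2]
        ext
        · simp
          ring
        · simp
    refine ⟨v.reindex (finCongr hfin.symm), fun i => (![j + 1, j] : Fin 2 → ℕ) (finCongr hfin i),
      fun g σ hσ i => ?_⟩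
    have h1 : (v.reindex (finCongr hfin.symm)) i = v (finCongr hfin i) := by
      rw [Module.Basis.reindex_apply]
      rfl
    have h2 := hkey g σ hσ (finCongr hfin i)
    rw [← h1] at h2
    exact h2

end InCat2

end Pool.Agent.H12
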