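import Mathlib

open Polynomial

namespace Pool.Agent.H12

section Restrict

/-- Restriction of an automorphism of `Ω` fixing the image of `k` to the algebraic closure of `k`. -/
theorem exists_restrict {k Ω : Type*} [Field k] [Field Ω] (ι : AlgebraicClosure k →+* Ω)
    (σ : Ω ≃+* Ω) (hσ : ∀ x : k, σ (ι (algebraMap k _ x)) = ι (algebraMap k _ x)) :
    ∃ g : AlgebraicClosure k ≃ₐ[k] AlgebraicClosure k, ∀ x, ι (g x) = σ (ι x) := by
  let a1 : Algebra k Ω := (ι.comp (algebraMap k (AlgebraicClosure k))).toAlgebra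
  let a2 : Algebra (AlgebraicClosure k) Ω := ι.toAlgebra
  have a3 : IsScalarTower k (AlgebraicClosure k) Ω := IsScalarTower.of_algebraMap_eq fun x => rfl
  let τ : Ω ≃ₐ[k] Ω := AlgEquiv.ofRingEquiv (f := σ) (fun x => hσ x)
  refine ⟨τ.restrictNormal (AlgebraicClosure k), fun x => ?_⟩
  exact AlgEquiv.restrictNormal_commutes τ (AlgebraicClosure k) x

end Restrict

section Roots

variable {p : ℕ} [Fact p.Prime]

/-- `ℚ_p` contains the `n`-th roots of unity if `n ∣ p - 1`. -/
theorem exists_primitiveRoot {n : ℕ} (hn : n ∣ p - 1) (_ : 0 < n) :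
    ∃ z : ℚ_[p], IsPrimitiveRoot z n := by
  have hp : p.Prime := Fact.out
  obtain ⟨g, hg⟩ := IsCyclic.exists_generator (α := (ZMod p)ˣ)
  have hord : orderOf g = p - 1 := by
    rw [orderOf_eq_card_of_forall_mem_zpowers hg, Nat.card_eq_fintype_card,
      ZMod.card_units_eq_totient, Nat.totient_prime Fact.out]
  obtain ⟨m, hm⟩ := hn
  have hm0 : 0 < m := by
    rcases Nat.eq_zero_or_pos m with h | h
    · rw [h, mul_zero] at hm
      have := hp.two_le
      omega
    · exact h
  have hprim : IsPrimitiveRoot ((g : ZMod p) ^ m) n := by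
    have h1 : IsPrimitiveRoot (g : ZMod p) (p - 1) := by
      rw [← hord]
      exact IsPrimitiveRoot.coe_units_iff.mpr (IsPrimitiveRoot.orderOf g)
    exact h1.pow (by have := hp.two_le; omega) (by rw [hm, mul_comm])
  set x : ZMod p := (g : ZMod p) ^ m with hx
  have hpn : ¬ p ∣ n := by
    intro h
    have h1 : p ∣ p - 1 := h.trans ⟨m, hm⟩
    have := Nat.le_of_dvd (by have := hp.two_le; omega) h1
    have := hp.two_le
    omega
  have hx0 : x ≠ 0 := by rw [hx]; exact pow_ne_zero _ g.ne_zero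
  have hxcast : ((x.val : ℕ) : ZMod p) = x := ZMod.natCast_zmod_val x
  have hpx : ¬ p ∣ x.val := by
    rw [← ZMod.natCast_eq_zero_iff, hxcast]; exact hx0
  have hder : ‖(n : ℤ_[p]) * (x.val : ℤ_[p]) ^ (n - 1)‖ = 1 := by
    rw [norm_mul, norm_pow]
    have h1 : ‖(n : ℤ_[p])‖ = 1 := by
      have : IsUnit ((n : ℕ) : ℤ_[p]) := by
        rw [PadicInt.isUnit_iff, PadicInt.norm_natCast_eq_one_iff]
        exact (Nat.Prime.coprime_iff_not_dvd hp).mpr hpn
      exact PadicInt.isUnit_iff.mp this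
    have h2 : ‖(x.val : ℤ_[p])‖ = 1 := by
      rw [PadicInt.norm_natCast_eq_one_iff]
      exact (Nat.Prime.coprime_iff_not_dvd hp).mpr hpx
    rw [h1, h2, one_pow, one_mul]
  have hF : ‖(x.val : ℤ_[p]) ^ n - 1‖ < 1 := by
    have h1 : ((x.val : ℤ_[p]) ^ n - 1) = (((x.val : ℤ) ^ n - 1 : ℤ) : ℤ_[p]) := by push_cast; rfl
    rw [h1, PadicInt.norm_int_lt_one_iff_dvd, ← ZMod.intCast_eq_intCast_iff_dvd_sub 1 _ p]
    push_cast
    rw [hxcast, hprim.pow_eq_one]
  have h := hensels_lemma (p := p) (F := (X ^ n - 1 : ℤ_[p][X])) (a := (x.val : ℤ_[p])) (by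
    simp only [map_sub, map_pow, aeval_X, map_one, derivative_X_pow, derivative_one,
      sub_zero, map_mul, map_natCast]
    rw [hder, one_pow]
    exact hF)
  obtain ⟨z, hz, hz2, -⟩ := h
  simp only [map_sub, map_pow, aeval_X, map_one, sub_eq_zero, derivative_X_pow, derivative_one,
    sub_zero, map_mul, map_natCast] at hz hz2
  rw [hder] at hz2
  have hzx : PadicInt.toZMod z = x := by
    have h1 : z - (x.val : ℤ_[p]) ∈ IsLocalRing.maximalIdeal ℤ_[p] := by
      rw [IsLocalRing.mem_maximalIdeal, PadicInt.mem_nonunits]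
      exact hz2
    rw [← PadicInt.ker_toZMod, RingHom.mem_ker, map_sub, map_natCast, hxcast, sub_eq_zero] at h1
    exact h1
  refine ⟨(z : ℚ_[p]), ?_, ?_⟩
  · have := congrArg (fun y : ℤ_[p] => (y : ℚ_[p])) hz
    simpa using this
  · intro l hl
    have h1 : z ^ l = 1 := by
      apply Subtype.ext
      simpa using hl
    have h2 := congrArg PadicInt.toZMod h1
    rw [map_pow, hzx, map_one] at h2
    exact hprim.dvd_of_pow_eq_one l h2

end Roots

end Pool.Agent.H12
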