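import Mathlib
import Pool.Agent.H12.Local
import Pool.Agent.H12.Kummer
import Pool.Agent.H12.Restrict

open Polynomial

namespace Pool.Agent.H12

/-- power residue computation in `F_p`. -/
theorem power_of_pow_eq {ℓ p s t D : ℕ} [Fact ℓ.Prime] [Fact p.Prime]
    (hdvd : ℓ ^ (s + t) ∣ p - 1) (hD : 0 < D) (hDt : D < ℓ ^ t) (b x : ZMod p) (hb : b ≠ 0)
    (hx : x ^ ℓ ^ (s + t) = b ^ D) : ∃ y : ZMod p, y ^ ℓ ^ s = b := by
  have hp : p.Prime := Fact.out
  have hℓ : ℓ.Prime := Fact.out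
  obtain ⟨e, he⟩ := hdvd
  have hx0 : x ≠ 0 := by
    rintro rfl
    rw [zero_pow (pow_ne_zero _ hℓ.ne_zero)] at hx
    exact pow_ne_zero _ hb hx.symm
  have h1 : b ^ (D * e) = 1 := by
    rw [pow_mul, ← hx, ← pow_mul, ← he]
    exact ZMod.pow_card_sub_one_eq_one hx0
  have h2 : b ^ (ℓ ^ (s + t) * e) = 1 := by
    rw [← he]; exact ZMod.pow_card_sub_one_eq_one hb
  have h3 : b ^ (Nat.gcd (D * e) (ℓ ^ (s + t) * e)) = 1 := pow_gcd_eq_one.mpr ⟨h1, h2⟩
  rw [Nat.gcd_mul_right] at h3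
  obtain ⟨w, hw, hw2⟩ := (Nat.dvd_prime_pow hℓ).mp (Nat.gcd_dvd_right D (ℓ ^ (s + t)))
  have hwt : w < t := by
    have h4 : ℓ ^ w ∣ D := hw2 ▸ Nat.gcd_dvd_left D (ℓ ^ (s + t))
    have h5 := Nat.le_of_dvd hD h4
    exact (Nat.pow_lt_pow_iff_right hℓ.one_lt).mp (lt_of_le_of_lt h5 hDt)
  rw [hw2] at h3
  have h4 : b ^ (ℓ ^ t * e) = 1 := by
    have : ℓ ^ t * e = (ℓ ^ w * e) * ℓ ^ (t - w) := by
      rw [mul_right_comm, ← pow_add, Nat.add_sub_cancel' hwt.le]
    rw [this, pow_mul, h3, one_pow]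
  obtain ⟨g, hg⟩ := IsCyclic.exists_generator (α := (ZMod p)ˣ)
  have hord : orderOf g = p - 1 := by
    rw [orderOf_eq_card_of_forall_mem_zpowers hg, Nat.card_eq_fintype_card,
      ZMod.card_units_eq_totient, Nat.totient_prime Fact.out]
  have hfin : IsOfFinOrder g := isOfFinOrder_of_finite g
  obtain ⟨j, hj⟩ := (hfin.mem_powers_iff_mem_zpowers (y := Units.mk0 b hb)).mpr (hg _)
  have hj' : (g : ZMod p) ^ j = b := by
    have := congrArg (Units.val) hj
    simpa using this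
  have h5 : g ^ (j * (ℓ ^ t * e)) = 1 := by
    apply Units.ext
    rw [Units.val_pow_eq_pow_val, pow_mul, hj', h4, Units.val_one]
  have h6 := orderOf_dvd_of_pow_eq_one h5
  rw [hord, he] at h6
  have he0 : 0 < e := by
    rcases Nat.eq_zero_or_pos e with h | h
    · rw [h, mul_zero] at he
      have := hp.two_le
      omega
    · exact h
  have h7 : ℓ ^ s ∣ j := by
    have h8 : ℓ ^ s * (ℓ ^ t * e) ∣ j * (ℓ ^ t * e) := by
      rw [← mul_assoc, ← pow_add]; exact h6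
    exact Nat.dvd_of_mul_dvd_mul_right (Nat.mul_pos (pow_pos hℓ.pos _) he0) h8
  obtain ⟨q, hq⟩ := h7
  refine ⟨(g : ZMod p) ^ q, ?_⟩
  rw [← pow_mul, mul_comm, ← hq, hj']

theorem no_lift (k : Type) [Field k] [NumberField k] (ℓ : ℕ) [Fact ℓ.Prime]
    (A B p : ℕ → ℕ) (hApos : ∀ i, 0 < A i)
    (hp : ∀ i, (p i).Prime) (hmod : ∀ i, p i ≡ 1 [MOD ℓ ^ (3 * i + 3)])
    (hA : ∀ i n, i < n → ∃ A', A n = p i ^ ℓ ^ i * A' ∧ ¬ p i ∣ A')
    (hB1 : ∀ i n, ¬ p i ∣ B n)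
    (hB2 : ∀ i n, i < n → ∃ w, B n = B (i + 1) * w ^ ℓ ^ (i + 1) ∧ ¬ p i ∣ w)
    (hB3 : ∀ i, ∀ x : ZMod (p i), x ^ ℓ ^ (i + 1) ≠ (B (i + 1) : ℕ))
    (ζ : ℕ → AlgebraicClosure k) (hζ : ∀ n, IsPrimitiveRoot (ζ n) (ℓ ^ n))
    (a b : ℕ → AlgebraicClosure k) (ha : ∀ n, a n ^ ℓ ^ n = A n) (hb : ∀ n, b n ^ ℓ ^ n = B n)
    (α β : (AlgebraicClosure k ≃ₐ[k] AlgebraicClosure k) → ℤ_[ℓ])
    (hα : ∀ n g, g (a n) = ζ n ^ (PadicInt.toZModPow n (α g)).val * a n)
    (hβ : ∀ n g, g (b n) = ζ n ^ (PadicInt.toZModPow n (β g)).val * b n)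
    (Γ : (AlgebraicClosure k ≃ₐ[k] AlgebraicClosure k) → ℤ_[ℓ]) (hΓc : Continuous Γ) (C : ℕ)
    (hΓ : ∀ g h, Γ (g * h) = Γ g + (cyc k ℓ g : ℤ_[ℓ]) ^ 2 * Γ h +
      (ℓ : ℤ_[ℓ]) ^ C * (cyc k ℓ g : ℤ_[ℓ]) * β g * α h) : False := by
  classical
  have hℓ : ℓ.Prime := Fact.out
  set d := Module.finrank ℚ k with hd
  have hdpos : 0 < d := Module.finrank_pos
  -- choose the index
  set i := C + 2 * d with hi
  set M := 3 * i + 3 with hM
  set P := p i with hP
  have hPprime : P.Prime := hp i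
  have : Fact P.Prime := ⟨hPprime⟩
  set n := ℓ ^ M with hn
  have hnpos : 0 < n := pow_pos hℓ.pos _
  have : NeZero n := ⟨hnpos.ne'⟩
  have hndvd : n ∣ P - 1 := (Nat.modEq_iff_dvd' hPprime.one_lt.le).mp (hmod i).symm
  have hPn : ¬ P ∣ n := by
    intro h
    have h1 := Nat.le_of_dvd (by have := hPprime.two_le; omega) (h.trans hndvd)
    have := hPprime.two_le
    omega
  -- the embedding
  obtain ⟨ι⟩ : Nonempty (AlgebraicClosure k →+* PadicAlgCl P) := by
    have : Algebra.IsAlgebraic ℚ (AlgebraicClosure k) := Algebra.IsAlgebraic.trans ℚ k _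
    exact ⟨(IsAlgClosed.lift (R := ℚ) (S := AlgebraicClosure k) (M := PadicAlgCl P)).toRingHom⟩
  have hιinj : Function.Injective ι := ι.injective
  -- the primitive root in `ℚ_P`
  obtain ⟨z, hz⟩ := exists_primitiveRoot (p := P) hndvd hnpos
  have hζι : IsPrimitiveRoot (ι (ζ M)) n := (hζ M).map_of_injective hιinj
  obtain ⟨j, hj, hjz⟩ : ∃ j < n, (algebraMap ℚ_[P] (PadicAlgCl P) z) ^ j = ι (ζ M) :=
    (hz.map_of_injective (algebraMap ℚ_[P] (PadicAlgCl P)).injective).eq_pow_of_pow_eq_one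
      hζι.pow_eq_one
  set ξ : ℚ_[P] := z ^ j with hξ
  have hξι : algebraMap ℚ_[P] (PadicAlgCl P) ξ = ι (ζ M) := by rw [hξ, map_pow, hjz]
  have hξprim : IsPrimitiveRoot ξ n := by
    apply IsPrimitiveRoot.of_map_of_injective (f := algebraMap ℚ_[P] (PadicAlgCl P)) _
      (algebraMap ℚ_[P] (PadicAlgCl P)).injective
    rw [hξι]; exact hζι
  -- the local field
  obtain ⟨θ, hθ⟩ := Field.exists_primitive_element ℚ k
  set K : IntermediateField ℚ_[P] (PadicAlgCl P) :=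
    IntermediateField.adjoin ℚ_[P] {ι (algebraMap k _ θ)} with hK
  have hKfin : FiniteDimensional ℚ_[P] K :=
    IntermediateField.adjoin.finiteDimensional (Algebra.IsIntegral.isIntegral _)
  set D := Module.finrank ℚ_[P] K with hD
  have hDpos : 0 < D := Module.finrank_pos
  have hDd : D ≤ d := by
    rw [hD, hK, IntermediateField.adjoin.finrank (Algebra.IsIntegral.isIntegral _)]
    have h1 : d = (minpoly ℚ θ).natDegree := by
      rw [hd, ← IntermediateField.adjoin.finrank (Algebra.IsIntegral.isIntegral θ), hθ,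
        IntermediateField.finrank_top']
    rw [h1]
    have h2 : (minpoly ℚ_[P] (ι (algebraMap k _ θ))) ∣
        (minpoly ℚ θ).map (algebraMap ℚ ℚ_[P]) := by
      apply minpoly.dvd
      rw [aeval_map_algebraMap]
      have h3 : aeval (ι (algebraMap k _ θ)) (minpoly ℚ θ) =
          (ι.comp (algebraMap k (AlgebraicClosure k))) (aeval θ (minpoly ℚ θ)) := by
        rw [aeval_def, aeval_def, hom_eval₂]
        congr 1
        exact Subsingleton.elim _ _
      rw [h3, minpoly.aeval, map_zero]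
    have h3 := natDegree_le_of_dvd h2 ((minpoly.monic
      (Algebra.IsIntegral.isIntegral θ)).map _).ne_zero
    rwa [(minpoly.monic (Algebra.IsIntegral.isIntegral θ)).natDegree_map] at h3
  -- elements of `K.fixingSubgroup` fix `ι k`
  have hfixk : ∀ σ ∈ K.fixingSubgroup, ∀ x : k, σ (ι (algebraMap k _ x)) =
      ι (algebraMap k _ x) := by
    intro σ hσ x
    have hθK : σ (ι (algebraMap k _ θ)) = ι (algebraMap k _ θ) :=
      (IntermediateField.mem_fixingSubgroup_iff _ _).mp hσ _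
        (IntermediateField.mem_adjoin_simple_self _ _)
    have hx : x ∈ IntermediateField.adjoin ℚ {θ} := by rw [hθ]; trivial
    -- the two ring homs agree on `θ`
    let f1 : k →ₐ[ℚ] PadicAlgCl P :=
      ((σ : PadicAlgCl P →+* PadicAlgCl P).comp (ι.comp (algebraMap k _))).toRatAlgHom
    let f2 : k →ₐ[ℚ] PadicAlgCl P := (ι.comp (algebraMap k _)).toRatAlgHom
    have h1 : IntermediateField.adjoin ℚ {θ} ≤ AlgHom.fieldRange (AlgHom.id ℚ k) := by
      intro y _; exact ⟨y, rfl⟩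
    have h2 : ∀ y ∈ IntermediateField.adjoin ℚ {θ}, f1 y = f2 y := by
      intro y hy
      induction hy using IntermediateField.adjoin_induction with
      | mem y hy =>
        rw [Set.mem_singleton_iff.mp hy]
        exact hθK
      | algebraMap y => rw [AlgHom.commutes, AlgHom.commutes]
      | add y z _ _ hy hz => rw [map_add, map_add, hy, hz]
      | inv y _ hy => rw [map_inv₀, map_inv₀, hy]
      | mul y z _ _ hy hz => rw [map_mul, map_mul, hy, hz]
    exact h2 x hx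
  -- restriction
  have hres : ∀ σ : PadicAlgCl P ≃ₐ[ℚ_[P]] PadicAlgCl P,
      ∃ g : AlgebraicClosure k ≃ₐ[k] AlgebraicClosure k,
        σ ∈ K.fixingSubgroup → ∀ x, ι (g x) = σ (ι x) := by
    intro σ
    by_cases hσ : σ ∈ K.fixingSubgroup
    · obtain ⟨g, hg⟩ := exists_restrict ι (σ : PadicAlgCl P ≃+* PadicAlgCl P)
        (fun x => hfixk σ hσ x)
      exact ⟨g, fun _ x => hg x⟩
    · exact ⟨1, fun h => absurd h hσ⟩
  choose r hr using hres
  have hrmul : ∀ σ ∈ K.fixingSubgroup, ∀ τ ∈ K.fixingSubgroup, r (σ * τ) = r σ * r τ := by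
    intro σ hσ τ hτ
    ext x
    apply hιinj
    rw [hr _ (mul_mem hσ hτ), AlgEquiv.mul_apply, AlgEquiv.mul_apply, hr σ hσ, hr τ hτ]
  set α' : (PadicAlgCl P ≃ₐ[ℚ_[P]] PadicAlgCl P) → ZMod n := fun σ =>
    PadicInt.toZModPow M (α (r σ)) with hα'
  set β' : (PadicAlgCl P ≃ₐ[ℚ_[P]] PadicAlgCl P) → ZMod n := fun σ =>
    PadicInt.toZModPow M (β (r σ)) with hβ'
  set γ' : (PadicAlgCl P ≃ₐ[ℚ_[P]] PadicAlgCl P) → ZMod n := fun σ =>
    PadicInt.toZModPow M (Γ (r σ)) with hγ'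
  have hα2 : ∀ σ ∈ K.fixingSubgroup, σ (ι (a M)) =
      algebraMap ℚ_[P] (PadicAlgCl P) (ξ ^ (α' σ).val) * ι (a M) := by
    intro σ hσ
    rw [← hr σ hσ, hα M, map_mul, map_pow, map_pow, hξι]
  have hβ2 : ∀ σ ∈ K.fixingSubgroup, σ (ι (b M)) =
      algebraMap ℚ_[P] (PadicAlgCl P) (ξ ^ (β' σ).val) * ι (b M) := by
    intro σ hσ
    rw [← hr σ hσ, hβ M, map_mul, map_pow, map_pow, hξι]
  -- the cyclotomic character is trivial modulo `ℓ ^ M`
  have hcyc : ∀ σ ∈ K.fixingSubgroup, PadicInt.toZModPow M (cyc k ℓ (r σ) : ℤ_[ℓ]) = 1 := by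
    intro σ hσ
    have h1 := cyc_spec k ℓ (r σ) M (ζ M) (hζ M).pow_eq_one
    have h2 : r σ (ζ M) = ζ M := by
      apply hιinj
      rw [hr σ hσ, ← hξι, AlgEquiv.commutes]
    rw [h2] at h1
    have : NeZero (ℓ ^ M) := ⟨hnpos.ne'⟩
    have h3 : ζ M ^ (PadicInt.toZModPow M (cyc k ℓ (r σ) : ℤ_[ℓ])).val =
        ζ M ^ (1 : ZMod (ℓ ^ M)).val := by
      rw [← h1]
      have := pow_val_natCast (ζ M) (hζ M).pow_eq_one 1
      rw [Nat.cast_one, pow_one] at this
      exact this.symm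
    exact ZMod.val_injective _ ((hζ M).pow_inj (ZMod.val_lt _) (ZMod.val_lt _) h3)
  have hγ2 : ∀ σ ∈ K.fixingSubgroup, ∀ τ ∈ K.fixingSubgroup,
      γ' (σ * τ) = γ' σ + γ' τ + (ℓ ^ C : ℕ) * β' σ * α' τ := by
    intro σ hσ τ hτ
    simp only [hγ', hβ', hα']
    rw [hrmul σ hσ τ hτ, hΓ]
    simp only [map_add, map_mul, map_pow, hcyc σ hσ, map_natCast]
    push_cast
    ring
  -- local constancy
  have hΓ1 : Γ 1 = 0 := by
    have h1 := hΓ 1 1
    have hβ1 : β 1 = 0 := by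
      apply PadicInt.ext_of_toZModPow.mp
      intro m
      have : NeZero (ℓ ^ m) := ⟨pow_ne_zero _ hℓ.ne_zero⟩
      have h2 := hβ m 1
      have hb0 : b m ≠ 0 := by
        intro h
        have := hb m
        rw [h, zero_pow (pow_ne_zero _ hℓ.ne_zero)] at this
        have h3 : B m = 0 := by exact_mod_cast this.symm
        exact hB1 0 m (by rw [h3]; exact dvd_zero _)
      have h3 : ζ m ^ (PadicInt.toZModPow m (β 1)).val = ζ m ^ 0 := by
        rw [pow_zero]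
        have : (1 : AlgebraicClosure k) * b m =
            ζ m ^ (PadicInt.toZModPow m (β 1)).val * b m := by
          rw [one_mul]; exact h2
        exact (mul_right_cancel₀ hb0 this).symm
      have h4 := (hζ m).pow_inj (ZMod.val_lt _) (pow_pos hℓ.pos _) h3
      rw [map_zero]
      exact (ZMod.val_eq_zero _).mp h4
    rw [hβ1] at h1
    simpa using h1
  obtain ⟨E, hE, hE2⟩ : ∃ E : IntermediateField k (AlgebraicClosure k),
      FiniteDimensional k E ∧ ∀ g ∈ E.fixingSubgroup, PadicInt.toZModPow M (Γ g) = 0 := by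
    have hc1 : ContinuousAt Γ 1 := hΓc.continuousAt
    rw [ContinuousAt, hΓ1, (galGroupBasis k (AlgebraicClosure k)).nhds_one_hasBasis.tendsto_iff
      (Metric.nhds_basis_ball (α := ℤ_[ℓ]) (x := 0))] at hc1
    have hε : (0 : ℝ) < (ℓ : ℝ) ^ (-((M : ℕ) : ℤ) + 1) := zpow_pos (by exact_mod_cast hℓ.pos) _
    obtain ⟨V, ⟨_, ⟨E, hE, rfl⟩, rfl⟩, hV⟩ := hc1 _ hε
    refine ⟨E, hE, ?_⟩
    intro g hg
    have h1 := hV g hg
    rw [Metric.mem_ball, dist_eq_norm, sub_zero] at h1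
    have h2 := (PadicInt.norm_le_pow_iff_norm_lt_pow_add_one (Γ g) (-(M : ℤ))).mpr h1
    rw [PadicInt.norm_le_pow_iff_mem_span_pow, ← PadicInt.ker_toZModPow, RingHom.mem_ker] at h2
    exact h2
  obtain ⟨η, hη⟩ := Field.exists_primitive_element k E
  set F : IntermediateField ℚ_[P] (PadicAlgCl P) :=
    IntermediateField.adjoin ℚ_[P] {ι (η : AlgebraicClosure k)} with hF
  have : FiniteDimensional ℚ_[P] F :=
    IntermediateField.adjoin.finiteDimensional (Algebra.IsIntegral.isIntegral _)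
  have hF2 : ∀ σ ∈ K.fixingSubgroup, σ ∈ F.fixingSubgroup → γ' σ = 0 := by
    intro σ hσ hσF
    apply hE2
    have h1 : r σ (η : AlgebraicClosure k) = η := by
      apply hιinj
      rw [hr σ hσ]
      exact (IntermediateField.mem_fixingSubgroup_iff _ _).mp hσF _
        (IntermediateField.mem_adjoin_simple_self _ _)
    rw [IntermediateField.mem_fixingSubgroup_iff]
    intro x hx
    let f1 : E →ₐ[k] AlgebraicClosure k := (r σ : _ →ₐ[k] _).comp E.val
    let f2 : E →ₐ[k] AlgebraicClosure k := E.val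
    have h2 : ∀ y ∈ IntermediateField.adjoin k {η}, f1 y = f2 y := by
      intro y hy
      induction hy using IntermediateField.adjoin_induction with
      | mem y hy =>
        rw [Set.mem_singleton_iff.mp hy]
        exact h1
      | algebraMap y => rw [AlgHom.commutes, AlgHom.commutes]
      | add y z _ _ hy hz => rw [map_add, map_add, hy, hz]
      | inv y _ hy => rw [map_inv₀, map_inv₀, hy]
      | mul y z _ _ hy hz => rw [map_mul, map_mul, hy, hz]
    exact h2 ⟨x, hx⟩ (by rw [hη]; trivial)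
  -- norms
  have hMi : i < M := by omega
  obtain ⟨A', hA1, hA2⟩ := hA i M hMi
  have hι_nat : ∀ m : ℕ, ι (m : AlgebraicClosure k) = algebraMap ℚ_[P] (PadicAlgCl P) (m : ℚ_[P]) := by
    intro m; rw [map_natCast, map_natCast]
  have hnormnat : ∀ m : ℕ, ‖algebraMap ℚ_[P] (PadicAlgCl P) (m : ℚ_[P])‖ = ‖(m : ℚ_[P])‖ :=
    fun m => PadicAlgCl.norm_extends P _
  have hnorma : ‖ι (a M)‖ ^ n = (P : ℝ) ^ (-((ℓ ^ i : ℕ) : ℤ)) := by
    rw [← norm_pow, ← map_pow, ha, hι_nat, hnormnat, hA1]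
    push_cast
    rw [norm_mul, norm_pow, Padic.norm_p]
    have h1 : ‖((A' : ℕ) : ℚ_[P])‖ = 1 := Padic.norm_natCast_eq_one_iff.mpr
      ((Nat.Prime.coprime_iff_not_dvd hPprime).mpr hA2)
    rw [h1, mul_one, inv_pow, zpow_neg]
    norm_cast
  have hnormB : ‖((B M : ℕ) : ℚ_[P])‖ = 1 := Padic.norm_natCast_eq_one_iff.mpr
      ((Nat.Prime.coprime_iff_not_dvd hPprime).mpr (hB1 i M))
  have hnormb : ‖ι (b M)‖ = 1 := by
    have h1 : ‖ι (b M)‖ ^ n = 1 := by
      rw [← norm_pow, ← map_pow, hb, hι_nat, hnormnat, hnormB]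
    exact (pow_eq_one_iff_of_nonneg (norm_nonneg _) hnpos.ne').mp h1
  have ha0 : ι (a M) ≠ 0 := by
    intro h
    rw [h, norm_zero, zero_pow hnpos.ne'] at hnorma
    exact (zpow_pos (by exact_mod_cast hPprime.pos) _).ne hnorma
  -- a good element
  obtain ⟨g₀, hg₀, hg₀2⟩ : ∃ g₀ ∈ K.fixingSubgroup, ¬ ℓ ^ (i + 1 + d) ∣ (β' g₀).val := by
    by_contra hcon
    push Not at hcon
    set b' : PadicAlgCl P := ι (b M) ^ ℓ ^ (M - (i + 1 + d)) with hb'
    have hle : i + 1 + d ≤ M := by omega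
    have hb'fix : ∀ σ ∈ K.fixingSubgroup, σ b' = b' := by
      intro σ hσ
      rw [hb', map_pow, hβ2 σ hσ, mul_pow, ← map_pow, ← pow_mul]
      obtain ⟨q, hq⟩ := hcon σ hσ
      have h1 : (β' σ).val * ℓ ^ (M - (i + 1 + d)) = n * q := by
        rw [hq, hn, mul_right_comm, ← pow_add, Nat.add_sub_cancel' hle]
      rw [h1, pow_mul, hξprim.pow_eq_one, one_pow, map_one, one_mul]
    have hb'K : b' ∈ K := by
      have : b' ∈ IntermediateField.fixedField K.fixingSubgroup := by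
        rw [IntermediateField.mem_fixedField_iff]
        exact hb'fix
      rwa [InfiniteGalois.fixedField_fixingSubgroup] at this
    have hb'pow : b' ^ ℓ ^ (i + 1 + d) = algebraMap ℚ_[P] (PadicAlgCl P) (B M : ℚ_[P]) := by
      rw [hb', ← pow_mul, ← pow_add, Nat.sub_add_cancel hle, ← hn, ← map_pow, hb, hι_nat]
    have hb'pow2 : (⟨b', hb'K⟩ : K) ^ ℓ ^ (i + 1 + d) = algebraMap ℚ_[P] K (B M : ℚ_[P]) := by
      apply Subtype.ext
      rw [SubmonoidClass.coe_pow]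
      exact hb'pow
    have hnorm := congrArg (Algebra.norm ℚ_[P]) hb'pow2
    rw [map_pow, Algebra.norm_algebraMap, ← hD] at hnorm
    set x := Algebra.norm ℚ_[P] (⟨b', hb'K⟩ : K) with hx
    have hxnorm : ‖x‖ = 1 := by
      have h1 := congrArg norm hnorm
      rw [norm_pow, norm_pow, hnormB, one_pow] at h1
      exact (pow_eq_one_iff_of_nonneg (norm_nonneg _) (pow_ne_zero _ hℓ.ne_zero)).mp h1
    obtain ⟨X, hX⟩ : ∃ X : ℤ_[P], (X : ℚ_[P]) = x := ⟨⟨x, hxnorm.le⟩, rfl⟩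
    have hnorm2 : X ^ ℓ ^ (i + 1 + d) = ((B M : ℕ) : ℤ_[P]) ^ D := by
      apply Subtype.ext
      push_cast
      rw [hX]
      exact hnorm
    have hnorm3 := congrArg PadicInt.toZMod hnorm2
    rw [map_pow, map_pow, map_natCast] at hnorm3
    have hBne : ((B M : ℕ) : ZMod P) ≠ 0 := by
      rw [Ne, ZMod.natCast_eq_zero_iff]; exact hB1 i M
    have hℓd : d < ℓ ^ d := Nat.lt_pow_self hℓ.one_lt
    obtain ⟨y, hy⟩ := power_of_pow_eq (ℓ := ℓ) (p := P) (s := i + 1) (t := d) (D := D)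
      ((pow_dvd_pow ℓ hle).trans hndvd) hDpos (lt_of_le_of_lt hDd hℓd) _ _ hBne hnorm3
    obtain ⟨w, hw1, hw2⟩ := hB2 i M hMi
    rw [hw1] at hy
    push_cast at hy
    have hwne : ((w : ℕ) : ZMod P) ≠ 0 := by
      rw [Ne, ZMod.natCast_eq_zero_iff]; exact hw2
    apply hB3 i (y / (w : ZMod P))
    rw [div_pow, hy, mul_div_assoc, div_self (pow_ne_zero _ hwne), mul_one]
  have hfinal := key_local hPn ξ hξprim K (ι (a M)) (ι (b M)) ha0 hnormb ((ℓ ^ i : ℕ) : ℤ) hnorma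
    α' β' γ' hα2 hβ2 (ℓ ^ C) hγ2 F hF2 g₀ hg₀
  rw [← Nat.cast_mul, Int.natCast_dvd_natCast, ← hD] at hfinal
  set β₀ := (β' g₀).val with hβ₀
  have hβ₀pos : β₀ ≠ 0 := by
    intro h
    rw [h] at hg₀2
    exact hg₀2 (dvd_zero _)
  have hv1 : padicValNat ℓ β₀ < i + 1 + d := by
    by_contra hcon
    push Not at hcon
    exact hg₀2 ((padicValNat_dvd_iff_le hβ₀pos).mpr hcon)
  have hv2 : padicValNat ℓ D < d := by
    by_contra hcon
    push Not at hcon
    have h1 := Nat.le_of_dvd hDpos ((padicValNat_dvd_iff_le hDpos.ne').mpr hcon)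
    have h2 : d < ℓ ^ d := Nat.lt_pow_self hℓ.one_lt
    omega
  have hv3 : M ≤ padicValNat ℓ (ℓ ^ i * (ℓ ^ C * β₀ * D)) := by
    rw [← padicValNat_dvd_iff_le]
    · exact hfinal
    · have := pow_ne_zero i hℓ.ne_zero
      have := pow_ne_zero C hℓ.ne_zero
      have := hDpos.ne'
      positivity
  rw [padicValNat.mul (pow_ne_zero _ hℓ.ne_zero) (mul_ne_zero (mul_ne_zero
    (pow_ne_zero _ hℓ.ne_zero) hβ₀pos) hDpos.ne'), padicValNat.mul (mul_ne_zero
    (pow_ne_zero _ hℓ.ne_zero) hβ₀pos) hDpos.ne', padicValNat.mul (pow_ne_zero _ hℓ.ne_zero)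
    hβ₀pos, padicValNat.prime_pow, padicValNat.prime_pow] at hv3
  omega

end Pool.Agent.H12
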