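import Mathlib
import Pool.Agent.H12.D7

open Polynomial TensorProduct

namespace Pool.Agent.H12

section Yoneda

variable {k : Type} [Field k] {ℓ : ℕ} [Fact ℓ.Prime] {V W : LRep k ℓ}

/-- the vanishing criterion for a 2-extension -/
def Good (ξ : TwoExt V W) (v0 : V.V) : Prop :=
  ∃ (f : ξ.F.V) (e : GG k → ξ.E.V), ξ.q.lin f = v0 ∧
    (∀ φ : Module.Dual ℚ_[ℓ] ξ.E.V, Continuous fun g => φ (e g)) ∧
    (∀ g h, e (g * h) = e g + ξ.E.ρ g (e h)) ∧ ∀ g, ξ.d.lin (e g) = ξ.F.ρ g f - f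

theorem TwoExt.d_rho (ξ : TwoExt V W) (g : GG k) (x : ξ.E.V) :
    ξ.d.lin (ξ.E.ρ g x) = ξ.F.ρ g (ξ.d.lin x) := ξ.d.comm g x

theorem TwoExt.q_rho (ξ : TwoExt V W) (g : GG k) (x : ξ.F.V) :
    ξ.q.lin (ξ.F.ρ g x) = V.ρ g (ξ.q.lin x) := ξ.q.comm g x

theorem TwoExt.exE' (ξ : TwoExt V W) (x : ξ.E.V) : ξ.d.lin x = 0 ↔ ∃ w, ξ.i.lin w = x := ξ.exE x

theorem TwoExt.exF' (ξ : TwoExt V W) (y : ξ.F.V) : ξ.q.lin y = 0 ↔ ∃ x, ξ.d.lin x = y := ξ.exF y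

theorem rel_iff (ξ ξ' : TwoExt V W) (h : TwoExt.Rel ξ ξ') :
    ∃ (a : ξ.E.V →ₗ[ℚ_[ℓ]] ξ'.E.V) (b : ξ.F.V →ₗ[ℚ_[ℓ]] ξ'.F.V),
    (∀ g x, a (ξ.E.ρ g x) = ξ'.E.ρ g (a x)) ∧ (∀ g x, b (ξ.F.ρ g x) = ξ'.F.ρ g (b x)) ∧
    (∀ w, a (ξ.i.lin w) = ξ'.i.lin w) ∧ (∀ x, b (ξ.d.lin x) = ξ'.d.lin (a x)) ∧
    (∀ x, ξ'.q.lin (b x) = ξ.q.lin x) := by
  obtain ⟨a, b, h1, h2, h3⟩ := h
  exact ⟨a.lin, b.lin, a.comm, b.comm, h1, h2, h3⟩

theorem good_trivial (hV : InC V) (hW : InC W) (v0 : V.V) (h0 : ∀ g, V.ρ g v0 = v0) :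
    Good (TwoExt.trivial V W hV hW) v0 := by
  refine ⟨v0, fun _ => 0, rfl, fun φ => ?_, fun g h => ?_, fun g => ?_⟩
  · exact continuous_const
  · change (0 : W.V) = 0 + W.ρ g 0
    rw [map_zero, add_zero]
  · change (0 : V.V) = V.ρ g v0 - v0
    rw [h0, sub_self]

theorem good_push {ξ ξ' : TwoExt V W} (h : TwoExt.Rel ξ ξ') (v0 : V.V) (hg : Good ξ v0) :
    Good ξ' v0 := by
  obtain ⟨a, b, ha, hb, hai, hbd, hqb⟩ := rel_iff _ _ h
  obtain ⟨f, e, hf, hc, hcoc, hd⟩ := hg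
  refine ⟨b f, fun g => a (e g), by rw [hqb, hf], fun φ => hc (φ.comp a), fun g h => ?_,
    fun g => ?_⟩
  · change a (e (g * h)) = a (e g) + ξ'.E.ρ g (a (e h))
    rw [hcoc, map_add, ha]
  · rw [← hbd, hd, map_sub, hb]

theorem good_pull {ξ ξ' : TwoExt V W} (h : TwoExt.Rel ξ ξ') (v0 : V.V)
    (h0 : ∀ g, V.ρ g v0 = v0) (hg : Good ξ' v0) : Good ξ v0 := by
  obtain ⟨a, b, ha, hb, hai, hbd, hqb⟩ := rel_iff _ _ h
  obtain ⟨f', e', hf', hc', hcoc', hd'⟩ := hg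
  obtain ⟨f, hf⟩ := ξ.surj v0
  change ξ.q.lin f = v0 at hf
  obtain ⟨x', hx'⟩ : ∃ x', ξ'.d.lin x' = b f - f' := by
    apply (ξ'.exF' _).mp
    rw [map_sub, hqb, hf, hf', sub_self]
  -- change the cocycle
  let e'' : GG k → ξ'.E.V := fun g => e' g + (ξ'.E.ρ g x' - x')
  have he''c : ∀ φ : Module.Dual ℚ_[ℓ] ξ'.E.V, Continuous fun g => φ (e'' g) := by
    intro φ
    have : (fun g => φ (e'' g)) = fun g => φ (e' g) + (φ (ξ'.E.ρ g x') - φ x') := by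
      ext g
      simp only [e'', map_add, map_sub]
    rw [this]
    exact (hc' φ).add ((ξ'.E.cont x' φ).sub continuous_const)
  have he''coc : ∀ g h, e'' (g * h) = e'' g + ξ'.E.ρ g (e'' h) := by
    intro g h
    simp only [e'']
    rw [hcoc', map_add, map_sub, map_mul, Module.End.mul_apply]
    abel
  have he''d : ∀ g, ξ'.d.lin (e'' g) = ξ'.F.ρ g (b f) - b f := by
    intro g
    simp only [e'']
    rw [map_add, map_sub, hd', ξ'.d_rho, hx', map_sub]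
    abel
  -- a linear section of `d`
  obtain ⟨s, hs⟩ : ∃ s : ξ.F.V →ₗ[ℚ_[ℓ]] ξ.E.V, ∀ x, ξ.d.lin (s (ξ.d.lin x)) = ξ.d.lin x := by
    obtain ⟨s0, hs0⟩ := ξ.d.lin.rangeRestrict.exists_rightInverse_of_surjective
      (LinearMap.range_rangeRestrict _)
    obtain ⟨s, hs⟩ := LinearMap.exists_extend s0
    refine ⟨s, fun x => ?_⟩
    have h1 : s (ξ.d.lin x) = s0 ⟨ξ.d.lin x, LinearMap.mem_range_self _ _⟩ := by
      rw [← hs]; rfl
    have h2 := LinearMap.congr_fun hs0 ⟨ξ.d.lin x, LinearMap.mem_range_self _ _⟩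
    rw [h1]
    exact congrArg Subtype.val h2
  obtain ⟨r, hr⟩ := ξ'.i.lin.exists_leftInverse_of_injective (LinearMap.ker_eq_bot.mpr ξ'.inj)
  have hr' : ∀ w, r (ξ'.i.lin w) = w := fun w => LinearMap.congr_fun hr w
  have hrange : ∀ g, ∃ x, ξ.d.lin x = ξ.F.ρ g f - f := by
    intro g
    apply (ξ.exF' _).mp
    rw [map_sub, ξ.q_rho, hf, h0, sub_self]
  let e0 : GG k → ξ.E.V := fun g => s (ξ.F.ρ g f - f)
  have he0d : ∀ g, ξ.d.lin (e0 g) = ξ.F.ρ g f - f := by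
    intro g
    obtain ⟨x, hx⟩ := hrange g
    simp only [e0]
    rw [← hx, hs]
  have he0c : ∀ φ : Module.Dual ℚ_[ℓ] ξ.E.V, Continuous fun g => φ (e0 g) := by
    intro φ
    have : (fun g => φ (e0 g)) = fun g => (φ.comp s) (ξ.F.ρ g f) - (φ.comp s) f := by
      ext g
      simp only [e0, map_sub, LinearMap.comp_apply]
    rw [this]
    exact (ξ.F.cont f _).sub continuous_const
  let w : GG k → W.V := fun g => r (a (e0 g) - e'' g)
  have hw : ∀ g, ξ'.i.lin (w g) = a (e0 g) - e'' g := by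
    intro g
    obtain ⟨y, hy⟩ := (ξ'.exE' (a (e0 g) - e'' g)).mp (by
      rw [map_sub, ← hbd, he0d, he''d, map_sub, hb, sub_self])
    simp only [w]
    rw [← hy, hr']
  have hwc : ∀ φ : Module.Dual ℚ_[ℓ] W.V, Continuous fun g => φ (w g) := by
    intro φ
    have : (fun g => φ (w g)) = fun g => ((φ.comp r).comp a) (e0 g) - (φ.comp r) (e'' g) := by
      ext g
      simp only [w, map_sub, LinearMap.comp_apply]
    rw [this]
    exact (he0c _).sub (he''c _)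
  refine ⟨f, fun g => e0 g - ξ.i.lin (w g), hf, fun φ => ?_, fun g h => ?_, fun g => ?_⟩
  · have : (fun g => φ (e0 g - ξ.i.lin (w g))) = fun g => φ (e0 g) - (φ.comp ξ.i.lin) (w g) := by
      ext g
      rw [map_sub, LinearMap.comp_apply]
    rw [this]
    exact (he0c _).sub (hwc _)
  · have hae : ∀ g, a (e0 g - ξ.i.lin (w g)) = e'' g := by
      intro g
      rw [map_sub, hai, hw]
      abel
    have hde : ∀ g, ξ.d.lin (e0 g - ξ.i.lin (w g)) = ξ.F.ρ g f - f := by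
      intro g
      rw [map_sub, he0d, (ξ.exE' (ξ.i.lin (w g))).mpr ⟨_, rfl⟩, sub_zero]
    obtain ⟨y, hy⟩ := (ξ.exE' ((e0 (g * h) - ξ.i.lin (w (g * h))) -
        ((e0 g - ξ.i.lin (w g)) + ξ.E.ρ g (e0 h - ξ.i.lin (w h))))).mp (by
      rw [map_sub, map_add, ξ.d_rho, hde, hde, hde, map_mul, Module.End.mul_apply, map_sub]
      abel)
    have hy0 : ξ'.i.lin y = 0 := by
      rw [← hai, hy, map_sub, map_add, ha, hae, hae, hae, he''coc, sub_self]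
    have hy1 : y = 0 := ξ'.inj (hy0.trans (map_zero _).symm)
    rw [hy1, map_zero] at hy
    exact (sub_eq_zero.mp hy.symm)
  · rw [map_sub, he0d, (ξ.exE' (ξ.i.lin (w g))).mpr ⟨_, rfl⟩, sub_zero]

/-- a 2-extension whose class is zero satisfies the criterion -/
theorem good_of_zero (hV : InC V) (hW : InC W) (v0 : V.V) (h0 : ∀ g, V.ρ g v0 = v0)
    (ξ : TwoExt V W) (h : (Quot.mk _ ξ : Ext2 V W) = Ext2.zero V W hV hW) : Good ξ v0 := by
  have h1 := Quot.eqvGen_exact h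
  have h2 : ∀ ξ ξ' : TwoExt V W, Relation.EqvGen TwoExt.Rel ξ ξ' → (Good ξ v0 ↔ Good ξ' v0) := by
    intro ξ ξ' h
    induction h with
    | rel x y h => exact ⟨good_push h v0, good_pull h v0 h0⟩
    | refl x => exact Iff.rfl
    | symm x y _ ih => exact ih.symm
    | trans x y z _ _ ih1 ih2 => exact ih1.trans ih2
  exact (h2 _ _ h1).mpr (good_trivial hV hW v0 h0)

end Yoneda

end Pool.Agent.H12
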