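import Mathlib
import Pool.Agent.H12.Yoneda
import Pool.Agent.H12.InCat2
import Pool.Agent.H12.NoLift
import Pool.Agent.H12.LocalEll
import Pool.Agent.H12.Seq

open Polynomial TensorProduct

namespace Pool.Agent.H12

section Main

variable (k : Type) [Field k] [NumberField k] (ℓ : ℕ) [Fact ℓ.Prime]

/-- an infinitely ramified Kummer situation: two cocycles, locally trivial at `ℓ`, whose cup
product is not a coboundary even after multiplication by powers of `ℓ` -/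
theorem exists_cocycles : ∃ α β : GG k → ℤ_[ℓ],
    (∀ g h, α (g * h) = α g + (cyc k ℓ g : ℤ_[ℓ]) * α h) ∧ Continuous α ∧
    (∀ g h, β (g * h) = β g + (cyc k ℓ g : ℤ_[ℓ]) * β h) ∧ Continuous β ∧
    (∀ ι : AlgebraicClosure k →+* PadicAlgCl ℓ, ∃ c : ℤ_[ℓ],
      ∀ (g : GG k) (σ : GalP ℓ), (∀ x, ι (g x) = σ (ι x)) →
      α g = ((cyc k ℓ g : ℤ_[ℓ]) - 1) * c) ∧
    (∀ ι : AlgebraicClosure k →+* PadicAlgCl ℓ, ∃ c : ℤ_[ℓ],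
      ∀ (g : GG k) (σ : GalP ℓ), (∀ x, ι (g x) = σ (ι x)) →
      β g = ((cyc k ℓ g : ℤ_[ℓ]) - 1) * c) ∧
    ∀ (Γ : GG k → ℤ_[ℓ]) (_ : Continuous Γ) (C : ℕ),
      ¬ ∀ g h, Γ (g * h) = Γ g + (cyc k ℓ g : ℤ_[ℓ]) ^ 2 * Γ h +
        (ℓ : ℤ_[ℓ]) ^ C * (cyc k ℓ g : ℤ_[ℓ]) * β g * α h := by
  obtain ⟨A, B, p, m, c, hA0, hB0, hAs, hBs, hm, hc, hp, hmod, hcop, hA1, hB1, hB2, hB3, hAl, hBl⟩ :=
    exists_seq ℓ
  obtain ⟨ζ, hζ, hζs⟩ := exists_zeta k ℓ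
  obtain ⟨a, ha, haA⟩ := exists_roots k ℓ m A hA0 hAs
  obtain ⟨b, hb, hbB⟩ := exists_roots k ℓ c B hB0 hBs
  have hApos : ∀ i, 0 < A i := by
    intro i
    induction i with
    | zero => rw [hA0]; exact Nat.one_pos
    | succ n ih => rw [hAs]; exact Nat.mul_pos ih (pow_pos (hm n) _)
  have hBpos : ∀ i, 0 < B i := by
    intro i
    induction i with
    | zero => rw [hB0]; exact Nat.one_pos
    | succ n ih => rw [hBs]; exact Nat.mul_pos ih (pow_pos (hc n) _)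
  obtain ⟨α, hα, hαc, hαcont⟩ := exists_kummer ζ hζ hζs m A hm hApos a ha haA
  obtain ⟨β, hβ, hβc, hβcont⟩ := exists_kummer ζ hζ hζs c B hc hBpos b hb hbB
  refine ⟨α, β, hαc, hαcont, hβc, hβcont, ?_, ?_, ?_⟩
  · intro ι
    exact local_split ζ hζ A hApos hAl a haA α hα ι
  · intro ι
    exact local_split ζ hζ B hBpos hBl b hbB β hβ ι
  · intro Γ hΓc C hΓ
    exact no_lift k ℓ A B p hApos hp hmod hA1 hB1 hB2 hB3 ζ hζ a b haA hbB α β hα hβ Γ hΓc C hΓ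

variable {k ℓ}

/-- The inclusion of `ℚ_ℓ(j+1)`. -/
noncomputable def kumInl (j : ℕ) (κ : GG k → ℤ_[ℓ])
    (hκ : ∀ g h, κ (g * h) = κ g + (cyc k ℓ g : ℤ_[ℓ]) * κ h) (hc : Continuous κ) :
    LHom (tate k ℓ (j + 1)) (kum j κ hκ hc) where
  lin := LinearMap.inl ℚ_[ℓ] ℚ_[ℓ] ℚ_[ℓ]
  comm := fun g (x : ℚ_[ℓ]) => by
    change ((chi k ℓ g ^ (j + 1) * x, (0 : ℚ_[ℓ])) : ℚ_[ℓ] × ℚ_[ℓ]) =
      (chi k ℓ g ^ (j + 1) * x + chi k ℓ g ^ j * (κ g : ℚ_[ℓ]) * 0, chi k ℓ g ^ j * 0)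
    rw [mul_zero, mul_zero, add_zero]

/-- The projection to `ℚ_ℓ(j)`. -/
noncomputable def kumSnd (j : ℕ) (κ : GG k → ℤ_[ℓ])
    (hκ : ∀ g h, κ (g * h) = κ g + (cyc k ℓ g : ℤ_[ℓ]) * κ h) (hc : Continuous κ) :
    LHom (kum j κ hκ hc) (tate k ℓ j) where
  lin := LinearMap.snd ℚ_[ℓ] ℚ_[ℓ] ℚ_[ℓ]
  comm := fun _ _ => rfl

/-- Composition of morphisms. -/
noncomputable def LHom.comp {U V W : LRep k ℓ} (f : LHom V W) (g : LHom U V) : LHom U W where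
  lin := f.lin.comp g.lin
  comm := fun σ x => by
    rw [LinearMap.comp_apply, LinearMap.comp_apply, g.comm, f.comm]

/-- the Yoneda product of the two Kummer extensions -/
noncomputable def cup (α β : GG k → ℤ_[ℓ])
    (hα : ∀ g h, α (g * h) = α g + (cyc k ℓ g : ℤ_[ℓ]) * α h) (hαc : Continuous α)
    (hβ : ∀ g h, β (g * h) = β g + (cyc k ℓ g : ℤ_[ℓ]) * β h) (hβc : Continuous β)
    (hE : InC (kum 1 β hβ hβc)) (hF : InC (kum 0 α hα hαc)) :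
    TwoExt (tate k ℓ 0) (tate k ℓ 2) where
  E := kum 1 β hβ hβc
  F := kum 0 α hα hαc
  hE := hE
  hF := hF
  i := kumInl 1 β hβ hβc
  d := (kumInl 0 α hα hαc).comp (kumSnd 1 β hβ hβc)
  q := kumSnd 0 α hα hαc
  inj := (LinearMap.inl_injective : Function.Injective (LinearMap.inl ℚ_[ℓ] ℚ_[ℓ] ℚ_[ℓ]))
  exE := fun (x : ℚ_[ℓ] × ℚ_[ℓ]) => by
    constructor
    · intro h
      exact ⟨x.1, Prod.ext rfl (congrArg Prod.fst (show ((x.2, (0 : ℚ_[ℓ])) : ℚ_[ℓ] × ℚ_[ℓ]) =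
        (0, 0) from h)).symm⟩
    · rintro ⟨y, rfl⟩
      rfl
  exF := fun (x : ℚ_[ℓ] × ℚ_[ℓ]) => by
    constructor
    · intro h
      exact ⟨((0 : ℚ_[ℓ]), x.1), Prod.ext rfl (Eq.symm h)⟩
    · rintro ⟨y, rfl⟩
      rfl
  surj := (LinearMap.snd_surjective : Function.Surjective (LinearMap.snd ℚ_[ℓ] ℚ_[ℓ] ℚ_[ℓ]))

instance compactGG : CompactSpace (GG k) := inferInstance

theorem not_good (α β : GG k → ℤ_[ℓ])
    (hα : ∀ g h, α (g * h) = α g + (cyc k ℓ g : ℤ_[ℓ]) * α h) (hαc : Continuous α)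
    (hβ : ∀ g h, β (g * h) = β g + (cyc k ℓ g : ℤ_[ℓ]) * β h) (hβc : Continuous β)
    (hE : InC (kum 1 β hβ hβc)) (hF : InC (kum 0 α hα hαc))
    (hno : ∀ (Γ : GG k → ℤ_[ℓ]) (_ : Continuous Γ) (C : ℕ),
      ¬ ∀ g h, Γ (g * h) = Γ g + (cyc k ℓ g : ℤ_[ℓ]) ^ 2 * Γ h +
        (ℓ : ℤ_[ℓ]) ^ C * (cyc k ℓ g : ℤ_[ℓ]) * β g * α h) :
    ¬ Good (cup α β hα hαc hβ hβc hE hF) (1 : ℚ_[ℓ]) := by
  rintro ⟨f, e, hf, hec, hecoc, hed⟩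
  obtain ⟨x0, hx0⟩ : ∃ x0 : ℚ_[ℓ], f = ((x0, 1) : ℚ_[ℓ] × ℚ_[ℓ]) :=
    ⟨Prod.fst (α := ℚ_[ℓ]) (β := ℚ_[ℓ]) f, Prod.ext rfl hf⟩
  let γ : GG k → ℚ_[ℓ] := fun g => Prod.fst (α := ℚ_[ℓ]) (β := ℚ_[ℓ]) (e g)
  let δ : GG k → ℚ_[ℓ] := fun g => Prod.snd (α := ℚ_[ℓ]) (β := ℚ_[ℓ]) (e g)
  have hγc : Continuous γ := hec (LinearMap.fst ℚ_[ℓ] ℚ_[ℓ] ℚ_[ℓ])
  have hδ : ∀ g, δ g = α g + (chi k ℓ g - 1) * x0 := by
    intro g
    have h1 := hed g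
    rw [hx0] at h1
    have h2 : ((δ g, (0 : ℚ_[ℓ])) : ℚ_[ℓ] × ℚ_[ℓ]) =
      (chi k ℓ g ^ (0 + 1) * x0 + chi k ℓ g ^ 0 * (α g : ℚ_[ℓ]) * 1, chi k ℓ g ^ 0 * 1) -
        (x0, 1) := h1
    have h3 := congrArg Prod.fst h2
    simp only [Prod.fst_sub] at h3
    rw [h3]
    ring
  have hγ : ∀ g h, γ (g * h) = γ g + (chi k ℓ g ^ 2 * γ h + chi k ℓ g * β g * δ h) := by
    intro g h
    have h2 : ((γ (g * h), δ (g * h)) : ℚ_[ℓ] × ℚ_[ℓ]) = (γ g, δ g) +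
      (chi k ℓ g ^ (1 + 1) * γ h + chi k ℓ g ^ 1 * (β g : ℚ_[ℓ]) * δ h,
        chi k ℓ g ^ 1 * δ h) := hecoc g h
    have h3 := congrArg Prod.fst h2
    simp only [Prod.fst_add, pow_one] at h3
    exact h3
  have hβ' : ∀ g h, (β (g * h) : ℚ_[ℓ]) = β g + chi k ℓ g * β h := by
    intro g h
    rw [hβ]
    push_cast
    rfl
  let γ' : GG k → ℚ_[ℓ] := fun g => γ g - chi k ℓ g * β g * x0
  have hγ' : ∀ g h, γ' (g * h) = γ' g + chi k ℓ g ^ 2 * γ' h + chi k ℓ g * β g * α h := by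
    intro g h
    simp only [γ']
    rw [hγ, hδ, chi_mul, hβ']
    ring
  have hγ'c : Continuous γ' := by
    have h1 : Continuous fun g => (β g : ℚ_[ℓ]) := (coe_continuous ℓ).comp hβc
    have h2 := chi_continuous k ℓ
    exact hγc.sub ((h2.mul h1).mul continuous_const)
  obtain ⟨M, hM⟩ : ∃ M : ℝ, ∀ g, ‖γ' g‖ ≤ M := by
    obtain ⟨M, hM⟩ := (isCompact_range hγ'c).isBounded.exists_norm_le
    exact ⟨M, fun g => hM _ ⟨g, rfl⟩⟩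
  have hℓ : ℓ.Prime := Fact.out
  obtain ⟨C, hC⟩ : ∃ C : ℕ, M < (ℓ : ℝ) ^ C :=
    pow_unbounded_of_one_lt M (by exact_mod_cast hℓ.one_lt)
  have hint : ∀ g, ‖(ℓ : ℚ_[ℓ]) ^ C * γ' g‖ ≤ 1 := by
    intro g
    rw [norm_mul, norm_pow, Padic.norm_p, inv_pow]
    have h1 : (0 : ℝ) < (ℓ : ℝ) ^ C := pow_pos (by exact_mod_cast hℓ.pos) _
    rw [inv_mul_le_iff₀ h1, mul_one]
    exact (hM g).trans hC.le
  let Γ : GG k → ℤ_[ℓ] := fun g => ⟨(ℓ : ℚ_[ℓ]) ^ C * γ' g, hint g⟩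
  have hΓ : ∀ g, (Γ g : ℚ_[ℓ]) = (ℓ : ℚ_[ℓ]) ^ C * γ' g := fun g => rfl
  refine hno Γ ?_ C ?_
  · exact Continuous.subtype_mk (continuous_const.mul hγ'c) _
  · intro g h
    apply Subtype.val_injective
    change (Γ (g * h) : ℚ_[ℓ]) = _
    rw [hΓ, hγ']
    push_cast
    rw [hΓ, hΓ]
    have : ((cyc k ℓ g : ℤ_[ℓ]) : ℚ_[ℓ]) = chi k ℓ g := rfl
    rw [this]
    ring

theorem main (k : Type) [Field k] [NumberField k] (ℓ : ℕ) [Fact ℓ.Prime] :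
    ∃ (V W : LRep k ℓ) (hV : InC V) (hW : InC W) (x : Ext2 V W), x ≠ Ext2.zero V W hV hW := by
  obtain ⟨α, β, hα, hαc, hβ, hβc, hαl, hβl, hno⟩ := exists_cocycles k ℓ
  have hE := kum_inC 1 β hβ hβc hβl
  have hF := kum_inC 0 α hα hαc hαl
  refine ⟨tate k ℓ 0, tate k ℓ 2, tate_inC 0, tate_inC 2,
    Quot.mk _ (cup α β hα hαc hβ hβc hE hF), fun h => ?_⟩
  refine not_good α β hα hαc hβ hβc hE hF hno (good_of_zero _ _ (1 : ℚ_[ℓ]) (fun g => ?_) _ h)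
  change chi k ℓ g ^ 0 * (1 : ℚ_[ℓ]) = 1
  rw [pow_zero, mul_one]

end Main

end Pool.Agent.H12
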